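import Mathlib.Algebra.Field.ZMod
import Mathlib.LinearAlgebra.Matrix.Rank
import Mathlib.RingTheory.PicardGroup

/-!
Exactness for a pair of connected graphs on the same set of edges with Euler characteristic two.
-/

set_option autoImplicit false

open Finset Matrix

namespace Pool.Agent.MP_42ec7b_co

open Classical

variable {D A B E : Type} [Fintype D] [Fintype A] [Fintype B] [Fintype E]

lemma z2_add_self (x : ZMod 2) : x + x = 0 := CharTwo.add_self_eq_zero x

lemma z2_add_eq {x y : ZMod 2} : x + y = 0 ↔ x = y := CharTwo.add_eq_zero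

/-- Incidence matrix. -/
noncomputable def inc (s t : E → A) : Matrix E A (ZMod 2) :=
  fun e u => (if s e = u then 1 else 0) + (if t e = u then 1 else 0)

omit [Fintype E] in
lemma inc_mulVec (s t : E → A) (y : A → ZMod 2) (e : E) : (inc s t *ᵥ y) e = y (s e) + y (t e) := by
  simp [inc, mulVec, dotProduct, add_mul, sum_add_distrib]

omit [Fintype E] in
lemma inc_rank (s t : E → A) (h : ∀ y : A → ZMod 2, (∀ e, y (s e) = y (t e)) → ∀ u u', y u = y u') :
    Fintype.card A ≤ (inc s t).rank + 1 := by
  have h1 := LinearMap.finrank_range_add_finrank_ker (inc s t).mulVecLin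
  have h2 : Module.finrank (ZMod 2) (LinearMap.ker (inc s t).mulVecLin) ≤ 1 := by
    refine finrank_le_one ⟨fun _ => 1, ?_⟩ fun w => ?_
    · ext e
      simp only [mulVecLin_apply, inc_mulVec, z2_add_self, Pi.zero_apply]
    · have hw := h w.1 fun e => z2_add_eq.1 (by
        rw [← inc_mulVec]; exact congrFun (LinearMap.mem_ker.1 w.2) e)
      rcases isEmpty_or_nonempty A with k | ⟨⟨u⟩⟩
      · exact ⟨0, Subsingleton.elim _ _⟩
      · exact ⟨w.1 u, Subtype.ext (funext fun u' => by simpa using hw u u')⟩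
  rw [Module.finrank_fintype_fun_eq_card] at h1
  unfold Matrix.rank
  omega

lemma sum_pairs {M : Type} [AddCommMonoid M] {α : D → D} (hne : ∀ d, α d ≠ d) {ed : D → E}
    (hed : ∀ d d', ed d = ed d' ↔ d' = d ∨ d' = α d) {rep : E → D} (hrep : ∀ e, ed (rep e) = e)
    (g : D → M) : ∑ d, g d = ∑ e, (g (rep e) + g (α (rep e))) := by
  rw [← sum_fiberwise univ ed g]
  refine sum_congr rfl fun e _ => ?_
  rw [← sum_pair (hne _).symm]
  refine sum_congr (ext fun d => ?_) fun _ _ => rfl
  rw [mem_filter, mem_insert, mem_singleton, ← hed, hrep, eq_comm]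
  simp

lemma card_two {α : D → D} (hne : ∀ d, α d ≠ d) {ed : D → E} (hs : Function.Surjective ed)
    (hed : ∀ d d', ed d = ed d' ↔ d' = d ∨ d' = α d) : Fintype.card D = 2 * Fintype.card E := by
  choose rep hrep using hs
  simpa [mul_comm] using sum_pairs hne hed hrep fun _ => (1 : ℕ)

theorem core {α : D → D} (hα : ∀ d, α (α d) = d) (hne : ∀ d, α d ≠ d) {ed : D → E}
    (hs : Function.Surjective ed) (hed : ∀ d d', ed d = ed d' ↔ d' = d ∨ d' = α d)
    {a : D → A} {b : D → B}
    (ca : ∀ y : A → ZMod 2, (∀ d, y (a d) = y (a (α d))) → ∀ u u', y u = y u')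
    (cb : ∀ y : B → ZMod 2, (∀ d, y (b d) = y (b (α d))) → ∀ u u', y u = y u')
    (orth : ∀ (y : A → ZMod 2) (x : B), ∑ d with b d = x, (y (a d) + y (a (α d))) = 0) :
    Fintype.card A + Fintype.card B ≤ Fintype.card E + 2 ∧
    (Fintype.card A + Fintype.card B = Fintype.card E + 2 →
      ∀ z : D → ZMod 2, (∀ d, z (α d) = z d) → (∀ x, ∑ d with b d = x, z d = 0) →
      ∃ y : A → ZMod 2, ∀ d, z d = y (a d) + y (a (α d))) := by
  choose rep hrep using hs
  have hd : ∀ d, d = rep (ed d) ∨ d = α (rep (ed d)) := fun d => (hed _ _).1 (hrep _)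
  have hT : ∀ (w : D → ZMod 2), (∀ d, w (α d) = w d) → ∀ x,
      ((inc (fun e => b (rep e)) fun e => b (α (rep e)))ᵀ *ᵥ fun e => w (rep e)) x =
        ∑ d with b d = x, w d := fun w hw x => by
    rw [sum_filter, sum_pairs hne hed hrep]
    simp [inc, mulVec, dotProduct, add_mul, hw]
  have key : ∀ {C : Type} (c : D → C) (y : C → ZMod 2),
      (∀ e, y (c (rep e)) = y (c (α (rep e)))) → ∀ d, y (c d) = y (c (α d)) := fun c y h d => by
    rcases hd d with k | k
    · rw [k]; exact h _
    · rw [k, hα]; exact (h _).symm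
  have r1 := inc_rank (fun e => a (rep e)) (fun e => a (α (rep e))) fun y h => ca y (key a y h)
  have r2 := inc_rank (fun e => b (rep e)) (fun e => b (α (rep e))) fun y h => cb y (key b y h)
  have r3 := LinearMap.finrank_range_add_finrank_ker
    (inc (fun e => b (rep e)) fun e => b (α (rep e)))ᵀ.mulVecLin
  rw [← Matrix.rank_transpose] at r2
  rw [Module.finrank_fintype_fun_eq_card] at r3
  have hle : LinearMap.range (inc (fun e => a (rep e)) fun e => a (α (rep e))).mulVecLin ≤
      LinearMap.ker (inc (fun e => b (rep e)) fun e => b (α (rep e)))ᵀ.mulVecLin := by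
    rintro _ ⟨y, rfl⟩
    ext x
    have := hT (fun d => y (a d) + y (a (α d))) (fun d => by rw [hα, add_comm]) x
    rw [orth] at this
    refine Eq.trans ?_ this
    rw [mulVecLin_apply, mulVecLin_apply]
    congr 1
    ext e
    exact inc_mulVec _ _ _ _
  have r4 := Submodule.finrank_mono hle
  unfold Matrix.rank at r1 r2
  refine ⟨by omega, fun hc z hz hb => ?_⟩
  obtain ⟨y, hy⟩ : (fun e => z (rep e)) ∈
      LinearMap.range (inc (fun e => a (rep e)) fun e => a (α (rep e))).mulVecLin := by
    rw [Submodule.eq_of_le_of_finrank_le hle (by omega)]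
    ext x
    exact (hT z hz x).trans (hb x)
  refine ⟨y, fun d => ?_⟩
  have := congrFun hy (ed d)
  rw [mulVecLin_apply, inc_mulVec] at this
  rcases hd d with k | k
  · rw [k]; exact this.symm
  · rw [k, hα, hz, add_comm]; exact this.symm

end Pool.Agent.MP_42ec7b_co
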