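import Pool.Agent.MP_42ec7b_co.Conn

/-!
Counting darts around a set of faces.
-/

set_option autoImplicit false

open Finset

namespace Pool.Agent.MP_42ec7b_co

open Classical

namespace CM

variable {D : Type} [CM D]

/-- Number of boundary edges. -/
noncomputable def b (S : Finset (F D)) : ℕ := cnt fun d => f d ∈ S ∧ f (ρ d) ∉ S

/-- Number of vertices with exactly one corner in `S`. -/
noncomputable def p (S : Finset (F D)) : ℕ :=
  cnt fun d => f d ∈ S ∧ f (ρ d) ∉ S ∧ f (ρ (ρ d)) ∉ S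

/-- Number of vertices with exactly two corners in `S`. -/
noncomputable def q (S : Finset (F D)) : ℕ :=
  cnt fun d => f d ∉ S ∧ f (ρ d) ∈ S ∧ f (ρ (ρ d)) ∈ S

/-- Three times the number of vertices with all corners in `S`. -/
noncomputable def t3 (S : Finset (F D)) : ℕ :=
  cnt fun d => f d ∈ S ∧ f (ρ d) ∈ S ∧ f (ρ (ρ d)) ∈ S

/-- The vertex of the dart lies on the boundary of `S`. -/
def Bi (S : Finset (F D)) (d : D) : Prop :=
  ¬((f d ∈ S ↔ f (ρ d) ∈ S) ∧ (f (ρ d) ∈ S ↔ f (ρ (ρ d)) ∈ S))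

/-- Number of edges with an end on the boundary of `S`. -/
noncomputable def e (S : Finset (F D)) : ℕ := #((dset (Bi S)).image ed)

variable (S : Finset (F D))

lemma p1 : p S = cnt fun d => f (ρ d) ∈ S ∧ f (ρ (ρ d)) ∉ S ∧ f d ∉ S := by
  rw [p, ← cnt_perm ρ]; simp only [ρ3']

lemma p2 : p S = cnt fun d => f (ρ (ρ d)) ∈ S ∧ f d ∉ S ∧ f (ρ d) ∉ S := by
  rw [p1, ← cnt_perm ρ]; simp only [ρ3']

lemma q1 : q S = cnt fun d => f (ρ d) ∉ S ∧ f (ρ (ρ d)) ∈ S ∧ f d ∈ S := by
  rw [q, ← cnt_perm ρ]; simp only [ρ3']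

lemma q2 : q S = cnt fun d => f (ρ (ρ d)) ∉ S ∧ f d ∈ S ∧ f (ρ d) ∈ S := by
  rw [q1, ← cnt_perm ρ]; simp only [ρ3']

lemma p_compl : p Sᶜ = q S := by simp [p, q]

lemma q_compl : q Sᶜ = p S := by simp [p, q]

lemma b_eq : b S = p S + q S := by
  rw [b, p, q1]
  simp only [cnt_eq_sum, ← sum_add_distrib]
  refine sum_congr rfl fun d _ => ?_
  by_cases h1 : f d ∈ S <;> by_cases h2 : f (ρ d) ∈ S <;> by_cases h3 : f (ρ (ρ d)) ∈ S <;>
    simp [h1, h2, h3]

lemma in_eq : cnt (fun d => f d ∈ S ∧ f (ρ d) ∈ S) = q S + t3 S := by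
  rw [t3, q2]
  simp only [cnt_eq_sum, ← sum_add_distrib]
  refine sum_congr rfl fun d _ => ?_
  by_cases h1 : f d ∈ S <;> by_cases h2 : f (ρ d) ∈ S <;> by_cases h3 : f (ρ (ρ d)) ∈ S <;>
    simp [h1, h2, h3]

lemma tot_eq : cnt (fun d => f d ∈ S) = t3 S + 2 * q S + p S := by
  have := b_eq S
  rw [cnt_split _ fun d => f (ρ d) ∈ S, in_eq, ← b]
  omega

lemma bi_eq : cnt (Bi S) = 3 * b S := by
  rw [b_eq, show 3 * (p S + q S) = p S + p S + p S + (q S + q S + q S) by ring]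
  nth_rw 3 [p2, q2]
  nth_rw 2 [p1, q1]
  rw [p, q]
  simp only [cnt_eq_sum, ← sum_add_distrib]
  refine sum_congr rfl fun d _ => ?_
  by_cases h1 : f d ∈ S <;> by_cases h2 : f (ρ d) ∈ S <;> by_cases h3 : f (ρ (ρ d)) ∈ S <;>
    simp [Bi, h1, h2, h3]

lemma three_b_le : 3 * b S ≤ 2 * e S := by
  rw [← bi_eq]
  refine card_le_mul_card_image _ 2 fun a ha => ?_
  obtain ⟨d, -, rfl⟩ := mem_image.1 ha
  refine (card_le_card (t := {d, α d}) fun c hc => ?_).trans card_le_two
  simpa using (ed_eq _ _).1 (mem_filter.1 hc).2.symm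

lemma tot_len : cnt (fun d => f d ∈ S) = ∑ x ∈ S, len x := by
  rw [cnt, card_eq_sum_card_fiberwise (f := f) (t := S) fun d hd => by simpa using hd]
  refine sum_congr rfl fun x hx => congrArg card (ext fun d => ?_)
  simp only [mem_filter, mem_dset]
  exact ⟨fun h => h.2, fun h => ⟨h ▸ hx, h⟩⟩

lemma cnt_v_mem (X : Finset (V D)) : cnt (fun d => v d ∈ X) = 3 * #X := by
  rw [cnt, card_eq_sum_card_fiberwise (f := v) (t := X) fun d hd => by simpa using hd, mul_comm,
    ← smul_eq_mul, ← sum_const]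
  refine sum_congr rfl fun u hu => Eq.trans (congrArg card (ext fun d => ?_)) (cnt_v u)
  simp only [mem_filter, mem_dset]
  exact ⟨fun h => h.2, fun h => ⟨h ▸ hu, h⟩⟩

lemma euler' : 6 * Fintype.card (F D) = Fintype.card D + 12 := by
  have h1 := card_two (αne (D := D)) ed_surj ed_eq
  have h2 := cnt_v_mem (univ : Finset (V D))
  have h3 : Fintype.card (V D) + Fintype.card (F D) = Fintype.card (E D) + 2 := euler
  simp only [cnt, dset, mem_univ, filter_true, card_univ] at h2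
  omega

lemma b_single (x : F D) : b {x} = len x :=
  cnt_congr fun d => by
    simp only [mem_singleton]
    exact ⟨fun h => h.1, fun h => ⟨h, h ▸ s0 d⟩⟩

variable {S}

lemma b_insert {x : F D} (hx : x ∉ S) :
    b (insert x S) + 2 * cnt (fun d => f d = x ∧ f (ρ d) ∈ S) = b S + len x := by
  rw [two_mul]
  nth_rw 2 [← cnt_perm α]
  simp only [b, len, cnt_eq_sum, ← sum_add_distrib, fα, fρα]
  refine sum_congr rfl fun d _ => ?_
  by_cases h1 : f d = x
  · have h2 : f (ρ d) ≠ x := h1 ▸ s0 d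
    by_cases h3 : f (ρ d) ∈ S <;> simp [h1, h2, h3, hx]
  · by_cases h2 : f (ρ d) = x
    · by_cases h3 : f d ∈ S <;> simp [h1, h2, h3, hx]
    · by_cases h3 : f d ∈ S <;> by_cases h4 : f (ρ d) ∈ S <;> simp [h1, h2, h3, h4]

lemma slack {T : Finset (F D)} {x : F D} (hx : x ∈ S) (h : S ⊆ T) :
    b S + cnt (fun d => f d = x ∧ f (ρ d) ∉ T ∧ f (ρ (ρ d)) ∉ T) ≤ e S := by
  have h1 : b S + cnt (fun d => f d = x ∧ f (ρ d) ∉ T ∧ f (ρ (ρ d)) ∉ T) =
      cnt fun c => (f c ∈ S ∧ f (ρ c) ∉ S) ∨ (f (ρ (ρ c)) = x ∧ f c ∉ T ∧ f (ρ c) ∉ T) := by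
    rw [cnt_split (fun c => _ ∨ _) fun c => f c ∈ S, ← cnt_perm ρ (fun d => f d = x ∧ _),
      ← cnt_perm ρ (fun d => f (ρ d) = x ∧ _)]
    congr 1 <;> refine cnt_congr fun d => ?_
    · have := @h (f d)
      tauto
    · have := @h (f d)
      simp only [ρ3']
      tauto
  rw [h1, cnt, ← card_image_of_injOn (f := ed)]
  · refine card_le_card (image_subset_image fun d hd => mem_dset.2 ?_)
    have := @h (f (ρ d))
    rcases mem_dset.1 hd with k | ⟨k1, k2, k3⟩
    · unfold Bi; tauto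
    · rw [← k1] at hx
      unfold Bi; tauto
  · intro c hc c' hc' k
    rcases (ed_eq _ _).1 k with k | rfl
    · exact k.symm
    · exfalso
      have := @h (f c)
      have := @h (f (ρ c))
      have hc1 := mem_dset.1 hc
      have hc2 := mem_dset.1 hc'
      rw [fα, fρα] at hc2
      have k1 : f (ρ (ρ c)) = x := by tauto
      have k2 : f (ρ (ρ (α c))) = x := by tauto
      have e1 : α (ρ c) = ρ (ρ (α c)) := s1 (by rw [fα, k1, k2]) (by rw [fρα, ρ3, fα])
      have e2 : α (ρ (α c)) = ρ (ρ c) := s1 (by rw [fα, k1, k2]) (by rw [fρα, ρ3, fρα])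
      refine φφne (α (ρ c)) ?_
      rw [φ_def (α _), αα, ← e2, φ_def, αα, e1]

lemma len_le_good {x : F D} : len x ≤ cnt (fun d => f d = x ∧ f (ρ d) ∉ insert x S ∧
    f (ρ (ρ d)) ∉ insert x S) + 2 * cnt (fun d => f d = x ∧ f (ρ d) ∈ S) := by
  have h : cnt (fun d => f d = x ∧ f (ρ (ρ d)) ∈ S) = cnt (fun d => f d = x ∧ f (ρ d) ∈ S) := by
    rw [← cnt_perm φ]; simp only [fφ, fρφ]
  rw [two_mul]
  nth_rw 2 [← h]
  refine le_trans (cnt_mono fun d hd => ?_)
    ((cnt_or_le _ _).trans (add_le_add le_rfl (cnt_or_le _ _)))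
  have h1 : f (ρ d) ≠ x := hd ▸ s0 d
  have h2 : f (ρ (ρ d)) ≠ x := hd ▸ s0' d
  simp only [mem_insert]
  tauto

lemma len4 {y : F D} (hy : 6 ≤ len y) (x : F D) : 4 ≤ len x := by
  by_contra h
  have h3 : #(dset fun d : D => f d = x) ≤ 3 := Nat.le_of_lt_succ (not_le.1 h)
  rcases e4 {u | ∃ d, f d = x ∧ v d = u} ((dset fun d => f d = x).image ρ)
    (card_image_le.trans h3) (fun d ⟨c, h1, h2⟩ k => by
      rcases (v_eq _ _).1 h2 with rfl | rfl | rfl
      · exact absurd ⟨φ d, by rw [fφ, h1], vφ d⟩ k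
      · exact mem_image_of_mem _ (mem_dset.2 h1)
      · exact absurd ⟨_, by rw [fα, ρ3, h1], rfl⟩ k) with k | k
  · obtain ⟨d, hd⟩ := f_surj x
    exact loop d (k ⟨φ d, by rw [fφ, hd], vφ d⟩ ⟨d, hd, rfl⟩)
  · have h4 : len y ≤ #((dset fun d : D => f d = x).image v ∪ k.finite.toFinset) := by
      refine card_le_card_of_injOn v (fun d _ => ?_) fun d hd d' hd' k =>
        eq_of_fv ((mem_dset.1 hd).trans (mem_dset.1 hd').symm) k
      by_cases k1 : ∃ c, f c = x ∧ v c = v d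
      · obtain ⟨c, k2, k3⟩ := k1
        exact mem_union_left _ (mem_image.2 ⟨c, mem_dset.2 k2, k3⟩)
      · exact mem_union_right _ (k.finite.mem_toFinset.2 k1)
    have h5 : #k.finite.toFinset ≤ 1 := card_le_one.2 fun a ha b hb =>
      k (k.finite.mem_toFinset.1 ha) (k.finite.mem_toFinset.1 hb)
    have h6 := card_union_le ((dset fun d : D => f d = x).image v) k.finite.toFinset
    have h7 := card_image_le (s := dset fun d : D => f d = x) (f := v)
    omega

/-- The Euler characteristic of a connected proper set of faces is at most one. -/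
lemma chi_le (hS : Conn S) (h2 : Sᶜ.Nonempty) : 6 * #S ≤ t3 S + 3 * q S + 6 := by
  let I : D → Prop := fun d => f d ∈ S ∧ f (ρ d) ∈ S
  let M : V D → Prop := fun u => ∀ d, v d = u → f d ∈ S
  have hI : ∀ d, I d → I (α d) := fun d h => ⟨by rw [fα]; exact h.2, by rw [fρα]; exact h.1⟩
  let a : {d // I d} → {d // I d} := fun d => ⟨α d.1, hI _ d.2⟩
  let ed' : {d // I d} → {e : E D // ∃ d, I d ∧ ed d = e} := fun d => ⟨ed d.1, d.1, d.2, rfl⟩
  let cl : V D → Option {u // M u} := fun u => if h : M u then some ⟨u, h⟩ else none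
  have hne : ∀ d, a d ≠ d := fun d h => αne d.1 (congrArg Subtype.val h)
  have hs : Function.Surjective ed' := fun ⟨_, d, h, k⟩ => ⟨⟨d, h⟩, Subtype.ext k⟩
  have hed : ∀ d d', ed' d = ed' d' ↔ d' = d ∨ d' = a d := fun d d' => by
    simp only [Subtype.ext_iff]
    exact ed_eq _ _
  have out : ∀ d, ¬I d → cl (v d) = cl (v (α d)) := fun d h => by
    have k1 : ¬M (v d) := fun k => h ⟨k d rfl, k _ (vρ d)⟩
    have k2 : ¬M (v (α d)) := fun k => h ⟨by rw [← fφ]; exact k _ (vφ d), by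
      rw [← fα]; exact k _ rfl⟩
    simp only [cl, dif_neg k1, dif_neg k2]
  have key := (core (α := a) (fun d => Subtype.ext (αα d.1)) hne hs hed
    (a := fun d => cl (v d.1)) (b := fun d => (⟨f d.1, d.2.1⟩ : S)) (fun y hy u u' => ?_)
    (fun y hy x x' => ?_) fun y x => ?_).1
  · have k1 := card_two hne hs hed
    have k2 : Fintype.card {d // I d} = q S + t3 S := by
      rw [← in_eq, Fintype.card_subtype]
      exact congrArg card (ext fun d => by simp [I])
    have k3 : t3 S = 3 * Fintype.card {u // M u} := by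
      rw [Fintype.card_subtype, ← cnt_v_mem]
      refine cnt_congr fun d => ?_
      simp only [mem_filter, mem_univ, true_and]
      refine ⟨fun h c hc => ?_, fun h => ⟨h d rfl, h _ (vρ d), h _ (by rw [vρ, vρ])⟩⟩
      rcases (v_eq _ _).1 hc.symm with rfl | rfl | rfl
      exacts [h.1, h.2.1, h.2.2]
    rw [Fintype.card_option, Fintype.card_coe] at key
    omega
  · have k := conn_v (fun u => y (cl u)) fun d => by
      by_cases h : I d
      · exact hy ⟨d, h⟩
      · rw [out d h]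
    have su : Function.Surjective cl := by
      rintro (_ | ⟨u, hu⟩)
      · obtain ⟨x, hx⟩ := h2
        obtain ⟨d, rfl⟩ := f_surj x
        exact ⟨v d, dif_neg fun k => mem_compl.1 hx (k d rfl)⟩
      · exact ⟨u, dif_pos hu⟩
    obtain ⟨u, rfl⟩ := su u
    obtain ⟨u', rfl⟩ := su u'
    exact k u u'
  · have := hS (S.filter fun z => ∃ h : z ∈ S, y ⟨z, h⟩ = y x') (filter_subset _ _)
      ⟨x', mem_filter.2 ⟨x'.2, x'.2, rfl⟩⟩ (fun d k1 k2 => by
        obtain ⟨k3, k4⟩ := (mem_filter.1 k1).2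
        refine mem_filter.2 ⟨k2, k2, Eq.trans ?_ k4⟩
        exact ((hy ⟨d, k3, k2⟩).trans (congrArg y (Subtype.ext (fα d)))).symm) x.2
    exact (mem_filter.1 this).2.2
  · refine Eq.trans ?_ (orth_f (fun u => y (cl u)) x.1)
    rw [sum_filter, sum_filter, ← sum_filter_add_sum_filter_not univ I,
      sum_eq_zero (s := filter (fun d => ¬I d) univ) fun d hd => by
        rw [out d (mem_filter.1 hd).2, z2_add_self, ite_self], add_zero,
      sum_subtype (p := I) _ (by simp)]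
    exact sum_congr rfl fun d _ => by simp only [Subtype.ext_iff]; rfl

end CM

end Pool.Agent.MP_42ec7b_co
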