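import Mathlib.Tactic.Monotonicity.Lemmas
import Mathlib.Data.Int.ConditionallyCompleteOrder
import Mathlib.Data.Int.Star
import Mathlib.Algebra.Order.Ring.Star
import Mathlib.Combinatorics.SimpleGraph.CycleGraph
import Pool.Agent.MP_42ec7b_co.Count

-- ======== part 0: formerly Pool.Agent.MP_42ec7b_co.Disc
section MrgPart0

/-!
If no disc has `b ≤ l ≤ e`, then every disc has `e < l`.
-/

set_option autoImplicit false

open Finset

namespace Pool.Agent.MP_42ec7b_co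

open Classical

namespace CM

variable {D : Type} [CM D] {l : ℕ} (H : ∀ S : Finset (F D), Disc S → e S < l ∨ l < b S)

include H

/-- A disc of short faces is low. -/
lemma low {T : Finset (F D)} (hT : Disc T) (hs : ∀ x ∈ T, e {x} < l) : e T < l := by
  let J : Set (Finset (F D) × D) := {s | f s.2 ∉ s.1 ∧ Disc (insert (f s.2) s.1) ∧
    (∀ x ∈ insert (f s.2) s.1, e {x} < l) ∧ e s.1 < l ∧ l < b (insert (f s.2) s.1)}
  have key : ∀ T : Finset (F D), Disc T → (∀ x ∈ T, e {x} < l) → ¬e T < l → ∀ x ∈ T,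
      ∃ s ∈ J, x ∈ s.1 ∧ s.1 ⊆ T := by
    intro T hT hs h x hx
    obtain ⟨S, ⟨h1, h2, h3, h4⟩, hm⟩ := Set.exists_max_image
      {S : Finset (F D) | Disc S ∧ x ∈ S ∧ S ⊆ T ∧ e S < l} card (Set.toFinite _)
      ⟨{x}, disc_single x, mem_singleton_self x, singleton_subset_iff.2 hx, hs x hx⟩
    obtain ⟨d, k1, k2, -, k3⟩ := extend h1 hT h3 fun k => h (Subset.antisymm h3 k ▸ h4)
    refine ⟨(S, d), ⟨k2, k3, fun y hy => hs y (insert_subset k1 h3 hy), h4,
      (H _ k3).resolve_left fun k => ?_⟩, h2, h3⟩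
    have := hm _ ⟨k3, mem_insert_of_mem h2, insert_subset k1 h3, k⟩
    rw [card_insert_of_notMem k2] at this
    omega
  by_contra h
  obtain ⟨⟨S, d⟩, ⟨h1, h2, h3, h4, h5⟩, hm⟩ := Set.exists_max_image J
    (fun s => b (insert (f s.2) s.1) - b s.1) (Set.toFinite _) (by
      obtain ⟨x, hx⟩ := hT.1
      obtain ⟨s, k, -⟩ := key T hT hs h x hx
      exact ⟨s, k⟩)
  simp only at h1 h2 h3 h4 h5 hm
  obtain ⟨s, k, k1, k2⟩ := key _ h2 h3 (by have := three_b_le (insert (f d) S); omega) _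
    (mem_insert_self _ _)
  have a1 := hm s k
  have a2 := slack k1 k2
  have a3 := len_le_good (S := S) (x := f d)
  have a4 := b_insert h1
  have a5 := k.2.2.2
  omega

lemma long {x : F D} (h : ¬e {x} < l) : l < len x :=
  b_single x ▸ (H _ (disc_single x)).resolve_left h

variable (hl : 5 ≤ l)

include hl

/-- A long face has no long run of short neighbours. -/
lemma run {c : D} (hc : ¬e {f c} < l) : ∃ k < l / 3, ¬e {f (ρ ((φ ^ k) c))} < l := by
  by_contra h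
  have hs : ∀ k < l / 3, e {f (ρ ((φ ^ k) c))} < l := fun k hk => by_contra fun k' => h ⟨k, hk, k'⟩
  have hc' := long H hc
  have h4 := len4 (y := f c) (by omega)
  let R : ℕ → Finset (F D) := fun n => (range (n + 1)).image fun i => f (ρ ((φ ^ i) c))
  have key : ∀ n < l / 3, Conn (R n) ∧ Conn (R n)ᶜ ∧ 2 * n + 4 ≤ b (R n) := by
    intro n
    induction n with
    | zero =>
      intro _
      have : R 0 = {f (ρ c)} := by simp [R]
      rw [this, b_single]
      exact ⟨conn_single _, (disc_single _).2.2.2, h4 _⟩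
    | succ n ih =>
      intro hn
      obtain ⟨i1, i2, i3⟩ := ih (by omega)
      have e1 : R (n + 1) = insert (f (ρ ((φ ^ (n + 1)) c))) (R n) := by
        simp only [R]
        rw [range_add_one (n := n + 1), image_insert]
      have e2 : (φ ^ (n + 1)) c = φ ((φ ^ n) c) := by rw [pow_succ', Equiv.Perm.mul_apply]
      have u1 : ∀ d, f d = f (ρ ((φ ^ (n + 1)) c)) → f (ρ d) ∈ R n → d = ρ ((φ ^ (n + 1)) c) := by
        intro d k1 k2
        obtain ⟨i, hi, k3⟩ := mem_image.1 k2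
        rw [mem_range] at hi
        rcases s3 (by rw [fφpow, fφpow]) k1 k3.symm with k4 | k4
        · refine s1 k1 ?_
          rw [k4, fρφ, k3]
        · rw [← Equiv.Perm.mul_apply, ← pow_succ'] at k4
          exact absurd k4 (pow_ne (by omega) (by omega))
      have u2 : f (ρ ((φ ^ (n + 1)) c)) ∉ R n := fun k2 => by
        obtain ⟨i, hi, k3⟩ := mem_image.1 k2
        exact pow_ne (mem_range.1 hi) (by omega) (s1 (by rw [fφpow, fφpow]) k3)
      have u3 := b_insert u2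
      have u4 : cnt (fun d => f d = f (ρ ((φ ^ (n + 1)) c)) ∧ f (ρ d) ∈ R n) ≤ 1 :=
        cnt_le_one fun d d' k k' => (u1 d k.1 k.2).trans (u1 d' k'.1 k'.2).symm
      have u5 := h4 (f (ρ ((φ ^ (n + 1)) c)))
      rw [e1, compl_insert]
      refine ⟨conn_insert i1 ?_, link i2 (mem_compl.2 u2) fun d d' k k' k1 k2 =>
        (u1 d k (by simpa using k1)).trans (u1 d' k' (by simpa using k2)).symm, by omega⟩
      rw [e2, fρφ]
      exact mem_image.2 ⟨n, mem_range.2 n.lt_succ_self, rfl⟩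
  obtain ⟨i1, i2, i3⟩ := key (l / 3 - 1) (by omega)
  have i4 := low H (T := R (l / 3 - 1)) ⟨⟨_, mem_image.2 ⟨0, mem_range.2 (by omega), rfl⟩⟩,
    ⟨f c, mem_compl.2 fun k => by
      obtain ⟨i, -, k3⟩ := mem_image.1 k
      exact s0 _ (k3.trans (fφpow i c).symm)⟩, i1, i2⟩ fun x hx => by
      obtain ⟨i, hi, rfl⟩ := mem_image.1 hx
      exact hs i (by have := mem_range.1 hi; omega)
  have := three_b_le (R (l / 3 - 1))
  omega

lemma four {y : F D} (hy : ¬e {y} < l) : 4 ≤ cnt fun d => f d = y ∧ ¬e {f (ρ d)} < l := by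
  have h1 := long H hy
  have h2 : len y ≤ l / 3 * cnt fun d => f d = y ∧ ¬e {f (ρ d)} < l :=
    cnt_cover φ fun d hd => by
      obtain ⟨k, k1, k2⟩ := run H hl (c := d) (hd ▸ hy)
      exact ⟨k, k1, (fφpow k d).trans hd, k2⟩
  by_contra h
  have := Nat.mul_le_mul_left (l / 3) (Nat.le_of_lt_succ (not_le.1 h))
  omega

variable {K : Finset (F D)} (hK : ∀ d, f d ∈ K → e {f (ρ d)} < l → f (ρ d) ∈ K)
  (hs : ∀ x ∈ K, e {x} < l)

include hK hs

lemma four_le (hne : K.Nonempty) {U : Finset (F D)} (h1 : U.Nonempty) (h2 : U ⊆ Kᶜ)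
    (h3 : Cl Kᶜ U) : 4 ≤ cnt fun d => f d ∈ K ∧ f (ρ d) ∈ U ∧ f (ρ (ρ d)) ∈ U := by
  have h4 : ∀ d, f d ∈ U → f (ρ d) ∉ U → f (ρ d) ∈ K := fun d k1 k2 =>
    by_contra fun k => k2 (h3 d k1 (mem_compl.2 k))
  obtain ⟨x, hx⟩ := hne
  obtain ⟨c, c1, c2⟩ := exists_bd h1 ⟨x, mem_compl.2 fun k => mem_compl.1 (h2 k) hx⟩
  have c3 : ¬e {f c} < l := fun k => mem_compl.1 (h2 c1) (by
    have := hK (α c) (by rw [fα]; exact h4 c c1 c2) (by rwa [fρα])
    rwa [fρα] at this)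
  have n1 := four H hl c3
  by_contra h
  have hX : ∀ d, f d ∈ U → f (ρ d) ∈ U → f (ρ (ρ d)) ∈ U → ∀ d', v d' = v d → f d' ∈ U := by
    intro d k1 k2 k3 d' k
    rcases (v_eq _ _).1 k.symm with rfl | rfl | rfl
    exacts [k1, k2, k3]
  rcases e4' {u | ∀ d, v d = u → f d ∈ U} (by
    refine le_trans (cnt_mono fun d hd => ?_) ((cnt_perm (ρ * φ) _).trans_le
      (Nat.le_of_lt_succ (not_le.1 h)))
    have k1 : f (α d) ∈ U := by rw [fα]; exact hd.1 _ (vρ d)
    have k2 : f (ρ (α d)) ∈ U := by rw [fρα]; exact hd.1 _ rfl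
    simp only [Equiv.Perm.mul_apply, φ_def, ρ3']
    exact ⟨h4 _ k2 fun k => hd.2 (hX _ k1 k2 k), k1, k2⟩) with k | k
  · have n2 := cnt_v_le k
    have n3 : cnt (fun d => f d ∈ U ∧ f (ρ d) ∈ U) ≤ _ :=
      (cnt_mono fun d hd => by
        by_cases k1 : f (ρ (ρ d)) ∈ U
        · exact Or.inl (hX d hd.1 hd.2 k1)
        · exact Or.inr ⟨h4 _ hd.2 k1, hd⟩).trans (cnt_or_le
          (fun c => v c ∈ {u | ∀ d, v d = u → f d ∈ U})
          fun d => f (ρ (ρ d)) ∈ K ∧ f d ∈ U ∧ f (ρ d) ∈ U)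
    have n4 : cnt (fun d => f (ρ (ρ d)) ∈ K ∧ f d ∈ U ∧ f (ρ d) ∈ U) =
        cnt fun d => f d ∈ K ∧ f (ρ d) ∈ U ∧ f (ρ (ρ d)) ∈ U := by
      rw [← cnt_perm ρ]; simp only [ρ3']
    have n5 : ∀ d, f d = f c ∧ ¬e {f (ρ d)} < l → f d ∈ U ∧ f (ρ d) ∈ U := fun d hd =>
      ⟨hd.1 ▸ c1, h3 d (hd.1 ▸ c1) (mem_compl.2 fun k => hd.2 (hs _ k))⟩
    have n6 := cnt_split (fun d => f d ∈ U ∧ f (ρ d) ∈ U) fun d => f d = f c
    have n7 : cnt (fun d => f d = f c ∧ ¬e {f (ρ d)} < l) ≤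
        cnt fun d => (f d ∈ U ∧ f (ρ d) ∈ U) ∧ f d = f c := cnt_mono fun d hd => ⟨n5 d hd, hd.1⟩
    have n8 : cnt (fun d => f d = f c ∧ ¬e {f (ρ d)} < l) ≤
        cnt fun d => (f d ∈ U ∧ f (ρ d) ∈ U) ∧ ¬f d = f c := by
      rw [← cnt_perm α fun d => (f d ∈ U ∧ f (ρ d) ∈ U) ∧ ¬f d = f c]
      refine cnt_mono fun d hd => ?_
      rw [fα, fρα]
      exact ⟨(n5 d hd).symm, hd.1 ▸ s0 d⟩
    omega
  · obtain ⟨d, rfl⟩ := f_surj x
    have : f d ∉ U := fun k => mem_compl.1 (h2 k) hx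
    exact loop d (k (fun k1 => this (by rw [← fφ]; exact k1 _ (vφ d))) fun k1 => this (k1 _ rfl))

lemma b_le_run : b K ≤ (l / 3 - 1) * p K := by
  have h1 : b K = cnt fun c => f c ∉ K ∧ f (ρ c) ∈ K := by
    rw [b, ← cnt_perm α]; simp only [fα, fρα, and_comm]
  have h2 : p K = cnt fun c => f (ρ c) ∈ K ∧ f c ∉ K ∧ f (ρ (φ c)) ∉ K := by
    rw [p, ← cnt_perm α]; simp only [fα, fρα, φ_def]
  rw [h1, h2]
  refine cnt_cover φ fun c hc => ?_
  obtain ⟨k, k1, k2⟩ := run H hl (c := c) fun k => hc.1 (by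
    have := hK (α c) (by rw [fα]; exact hc.2) (by rwa [fρα])
    rwa [fρα] at this)
  have ex : ∃ j, f (ρ ((φ ^ j) c)) ∉ K := ⟨k, fun k3 => k2 (hs _ k3)⟩
  have j1 := Nat.find_spec ex
  have j2 : Nat.find ex ≤ k := Nat.find_min' ex fun k3 => k2 (hs _ k3)
  have j3 := fun m => Nat.find_min ex (m := m)
  generalize Nat.find ex = j at j1 j2 j3
  obtain _ | j := j
  · exact absurd hc.2 j1
  · rw [pow_succ', Equiv.Perm.mul_apply] at j1
    exact ⟨j, by omega, not_not.1 (j3 j j.lt_succ_self), by rw [fφpow]; exact hc.1, j1⟩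

lemma comp_le (hne : K.Nonempty) (hne' : Kᶜ.Nonempty) (hc : Conn K) :
    12 * p K + 6 * q K + (l + 1) * (6 * #K) ≤ (l + 1) * (3 * p K + 3 * q K + t3 K) := by
  have h1 := Nat.mul_le_mul_left (l + 1) (chi_le hc hne')
  have h2 := b_eq K
  suffices h : 12 * p K + 6 * q K + 6 * l + 6 ≤ 3 * (l * p K) + 3 * p K by nlinarith
  by_cases h : Conn Kᶜ
  · have h3 := low H ⟨hne, hne', hc, h⟩ hs
    have h4 := three_b_le K
    have h5 : 4 ≤ p K := (four_le H hl hK hs hne hne' Subset.rfl fun _ _ k => k).trans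
      (cnt_mono fun d hd => by simpa using hd)
    have := Nat.mul_le_mul_left l h5
    omega
  · unfold Conn at h
    push Not at h
    obtain ⟨U, u1, u2, u3, u4⟩ := h
    have a1 := four_le H hl hK hs hne u2 u1 u3
    have a2 := four_le H hl hK hs hne (sdiff_nonempty.2 u4) sdiff_subset fun d k1 k2 =>
      mem_sdiff.2 ⟨k2, fun k => (mem_sdiff.1 k1).2 (u3.symm d k (mem_sdiff.1 k1).1)⟩
    have a3 := cnt_split (fun d => f d ∈ K ∧ f (ρ d) ∉ K ∧ f (ρ (ρ d)) ∉ K) fun d => f (ρ d) ∈ U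
    have a4 := a1.trans (cnt_mono
      (Q := fun d => (f d ∈ K ∧ f (ρ d) ∉ K ∧ f (ρ (ρ d)) ∉ K) ∧ f (ρ d) ∈ U) fun d hd =>
        ⟨⟨hd.1, mem_compl.1 (u1 hd.2.1), mem_compl.1 (u1 hd.2.2)⟩, hd.2.1⟩)
    have a5 := a2.trans (cnt_mono
      (Q := fun d => (f d ∈ K ∧ f (ρ d) ∉ K ∧ f (ρ (ρ d)) ∉ K) ∧ ¬f (ρ d) ∈ U) fun d hd =>
        ⟨⟨hd.1, mem_compl.1 (mem_sdiff.1 hd.2.1).1, mem_compl.1 (mem_sdiff.1 hd.2.2).1⟩,
          (mem_sdiff.1 hd.2.1).2⟩)
    rw [← p] at a3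
    have a6 := b_le_run H hl hK hs
    have a7 : (3 * (l / 3 - 1) + 3) * p K ≤ l * p K := Nat.mul_le_mul_right _ (by omega)
    have a8 : l * 8 ≤ l * p K := Nat.mul_le_mul_left _ (by omega)
    rw [add_mul, mul_assoc] at a7
    omega

omit H hl hK hs in
lemma add_pat (P : Prop → Prop → Prop → Prop) (hP : ¬P False False False) {A : Finset (F D)}
    (hA : A ⊆ K) (hc : Cl K A) :
    cnt (fun d => P (f d ∈ K) (f (ρ d) ∈ K) (f (ρ (ρ d)) ∈ K)) =
      cnt (fun d => P (f d ∈ A) (f (ρ d) ∈ A) (f (ρ (ρ d)) ∈ A)) +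
      cnt fun d => P (f d ∈ K \ A) (f (ρ d) ∈ K \ A) (f (ρ (ρ d)) ∈ K \ A) := by
  simp only [cnt_eq_sum, ← sum_add_distrib]
  refine sum_congr rfl fun d _ => ?_
  have k : ∀ d, f d ∈ A ∨ f (ρ d) ∈ A ∨ f (ρ (ρ d)) ∈ A → (f d ∈ K ↔ f d ∈ A) := fun d h =>
    ⟨fun k => h.elim id fun h => h.elim (fun h => hc.symm d h k) fun h => by
      have := hc _ h (by rwa [ρ3])
      rwa [ρ3] at this, fun k => hA k⟩
  by_cases h : f d ∈ A ∨ f (ρ d) ∈ A ∨ f (ρ (ρ d)) ∈ A
  · have k1 := k d h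
    have k2 := k (ρ d) (by rw [ρ3]; tauto)
    have k3 := k (ρ (ρ d)) (by rw [ρ3]; tauto)
    simp only [mem_sdiff, k1, k2, k3, and_not_self, hP, if_false, add_zero]
  · push Not at h
    simp only [mem_sdiff, h.1, h.2.1, h.2.2, hP, if_false, zero_add, not_false_eq_true, and_true]

lemma all_le (hne' : Kᶜ.Nonempty) :
    12 * p K + 6 * q K + (l + 1) * (6 * #K) ≤ (l + 1) * (3 * p K + 3 * q K + t3 K) := by
  induction K using Finset.strongInduction with
  | H K ih =>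
  rcases K.eq_empty_or_nonempty with rfl | hne
  · simp [p, q, cnt, dset]
  by_cases h : Conn K
  · exact comp_le H hl hK hs hne hne' h
  unfold Conn at h
  push Not at h
  obtain ⟨A, u1, u2, u3, u4⟩ := h
  have i1 := ih A ⟨u1, u4⟩ (fun d k1 k2 => u3 d k1 (hK d (u1 k1) k2)) (fun x hx => hs x (u1 hx))
    (hne'.mono (compl_subset_compl.2 u1))
  have i2 := ih (K \ A) (sdiff_ssubset u1 u2) (fun d k1 k2 => mem_sdiff.2
    ⟨hK d (mem_sdiff.1 k1).1 k2, fun k => (mem_sdiff.1 k1).2 (u3.symm d k (mem_sdiff.1 k1).1)⟩)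
    (fun x hx => hs x (mem_sdiff.1 hx).1) (hne'.mono (compl_subset_compl.2 sdiff_subset))
  have e1 : p K = p A + p (K \ A) := add_pat (fun a b c => a ∧ ¬b ∧ ¬c) (by simp) u1 u3
  have e2 : q K = q A + q (K \ A) := add_pat (fun a b c => ¬a ∧ b ∧ c) (by simp) u1 u3
  have e3 : t3 K = t3 A + t3 (K \ A) := add_pat (fun a b c => a ∧ b ∧ c) (by simp) u1 u3
  rw [e1, e2, e3, ← card_sdiff_add_card_eq_card u1]
  linarith

omit hK hs in
theorem all_low {S : Finset (F D)} (hS : Disc S) : e S < l := by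
  by_contra h
  let Z : Finset (F D) := univ.filter fun x => e {x} < l
  have h1 := all_le H hl (K := Z) (fun d _ k => by simpa [Z] using k)
    (fun x hx => by simpa [Z] using hx) (by
      by_contra k
      refine h (low H hS fun x _ => by_contra fun k' => k ⟨x, ?_⟩)
      simpa [Z] using k')
  have h2 : (l + 1) * #Zᶜ ≤ cnt fun d => f d ∈ Zᶜ := by
    rw [tot_len, mul_comm, ← smul_eq_mul]
    exact card_nsmul_le_sum _ _ _ fun x hx => long H (by simpa [Z] using hx)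
  have h3 := euler' (D := D)
  have h4 : Fintype.card D = cnt (fun d => f d ∈ Z) + cnt fun d => f d ∈ Zᶜ := by
    rw [← show cnt (fun _ : D => True) = Fintype.card D by simp [cnt, dset],
      cnt_split _ fun d => f d ∈ Z]
    congr 1 <;> exact cnt_congr fun d => by simp only [true_and, mem_compl]
  rw [tot_eq, tot_eq, p_compl, q_compl] at h4
  rw [tot_eq, p_compl, q_compl] at h2
  rw [← card_add_card_compl Z, h4] at h3
  have h5 := congrArg ((l + 1) * ·) h3
  have h6 : 6 * t3 Zᶜ ≤ (l + 1) * t3 Zᶜ := Nat.mul_le_mul_right _ (by omega)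
  linarith

end CM

end Pool.Agent.MP_42ec7b_co

end MrgPart0

-- ======== part 1: formerly Pool.Agent.MP_42ec7b_co.Cyc
section MrgPart1

/-!
Cycles of the line graph along the boundary of a disc.
-/

set_option autoImplicit false

open Finset

namespace Pool.Agent.MP_42ec7b_co

open Classical

/-- The graph has a cycle of the given length. -/
def HasCyc {E : Type} (Γ : SimpleGraph E) (n : ℕ) : Prop :=
  ∃ (v : E) (p : Γ.Walk v v), p.IsCycle ∧ p.length = n

lemma hasCyc_iff {E : Type} (Γ : SimpleGraph E) (n : ℕ) : HasCyc Γ (n + 3) ↔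
    ∃ c : Fin (n + 3) → E, Function.Injective c ∧ ∀ i, Γ.Adj (c i) (c (i + 1)) := by
  rw [HasCyc, ← SimpleGraph.cycleGraph_isContained_iff (by omega)]
  refine ⟨fun ⟨h⟩ => ⟨h.toHom, h.injective, fun i => h.toHom.map_adj
    (SimpleGraph.cycleGraph_adj.2 (Or.inr (add_sub_cancel_left _ _)))⟩,
    fun ⟨c, h1, h2⟩ => ⟨⟨⟨c, fun {a b} h => ?_⟩, h1⟩⟩⟩
  rcases SimpleGraph.cycleGraph_adj.1 h with k | k
  · rw [sub_eq_iff_eq_add'.1 k]; exact (h2 b).symm
  · rw [sub_eq_iff_eq_add'.1 k]; exact h2 a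

lemma cyc_of {X E : Type} (Γ : SimpleGraph E) (W : Finset X) (σ : X → X) (g : X → E)
    (hm : ∀ w ∈ W, σ w ∈ W)
    (hc : ∀ A ⊆ W, A.Nonempty → (∀ a ∈ A, σ a ∈ A) → (∀ a ∈ A, ∃ a' ∈ A, σ a' = a) → W ⊆ A)
    (hg : Set.InjOn g W) (hadj : ∀ w ∈ W, Γ.Adj (g w) (g (σ w))) (h3 : 3 ≤ #W) : HasCyc Γ #W := by
  have it : ∀ w ∈ W, ∀ k, σ^[k] w ∈ W := fun w hw k =>
    Set.MapsTo.iterate (f := σ) (s := (W : Set X)) (fun w hw => hm w hw) k hw
  obtain ⟨w, hw⟩ := card_pos.1 (show 0 < #W by omega)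
  obtain ⟨x, hx, hp⟩ : ∃ x ∈ W, x ∈ Function.periodicPts σ := by
    obtain ⟨i, j, h1, h2⟩ := Set.Finite.exists_lt_map_eq_of_forall_mem (f := fun k => σ^[k] w)
      (it w hw) W.finite_toSet
    refine ⟨_, it w hw i, j - i, by omega, ?_⟩
    rw [Function.IsPeriodicPt, Function.IsFixedPt, ← Function.iterate_add_apply,
      Nat.sub_add_cancel h1.le]
    exact h2.symm
  have h0 := Function.minimalPeriod_pos_of_mem_periodicPts hp
  have hi := Function.iterate_injOn_Iio_minimalPeriod (f := σ) (x := x)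
  have hmod := fun k => Function.iterate_mod_minimalPeriod_eq (f := σ) (x := x) (n := k)
  generalize Function.minimalPeriod σ x = n at h0 hi hmod
  have mem : ∀ k, σ^[k] x ∈ (range n).image fun k => σ^[k] x := fun k =>
    mem_image.2 ⟨k % n, mem_range.2 (Nat.mod_lt _ h0), hmod k⟩
  have sub : ((range n).image fun k => σ^[k] x) ⊆ W := fun a ha => by
    obtain ⟨k, -, rfl⟩ := mem_image.1 ha
    exact it x hx k
  have e : #W = n := by
    rw [← Subset.antisymm sub (hc _ sub ⟨_, mem 0⟩ (fun a ha => ?_) fun a ha => ?_),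
      card_image_of_injOn (by simpa using hi), card_range]
    · obtain ⟨k, -, rfl⟩ := mem_image.1 ha
      rw [← Function.iterate_succ_apply' σ]
      exact mem _
    · obtain ⟨k, -, rfl⟩ := mem_image.1 ha
      refine ⟨_, mem (k + n - 1), ?_⟩
      rw [← Function.iterate_succ_apply' σ, ← hmod, show (k + n - 1).succ = k + n by omega,
        Nat.add_mod_right, hmod]
  rw [e] at h3 ⊢
  obtain ⟨n, rfl⟩ := Nat.exists_eq_add_of_le' h3
  refine (hasCyc_iff _ _).2 ⟨fun i => g (σ^[i] x), fun i j h =>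
    Fin.ext (hi i.2 j.2 (hg (it x hx _) (it x hx _) h)), fun i => ?_⟩
  simp only
  rw [Fin.val_add, hmod, Fin.val_one, Function.iterate_succ_apply']
  exact hadj _ (it x hx _)

namespace CM

variable {D : Type} [CM D]

lemma adj_of_v {c c' : D} (h : v c = v c') (hne : c ≠ c') : Γ.Adj (ed c) (ed c') :=
  (adj _ _).2 ⟨fun k => ((ed_eq _ _).1 k).elim (fun k => hne k.symm) fun k =>
    loop c (by rw [← k, h]), c, c', rfl, rfl, h⟩

lemma const_on {S : Finset (F D)} (h : Conn S) (y : F D → ZMod 2)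
    (hy : ∀ d, f d ∈ S → f (ρ d) ∈ S → y (f d) = y (f (ρ d))) {x x' : F D} (hx : x ∈ S)
    (hx' : x' ∈ S) : y x = y x' :=
  (mem_filter.1 (h (S.filter fun z => y z = y x') (filter_subset _ _) ⟨x', mem_filter.2 ⟨hx', rfl⟩⟩
    (fun d k1 k2 => mem_filter.2 ⟨k2, (hy d (mem_filter.1 k1).1 k2).symm.trans
      (mem_filter.1 k1).2⟩) hx)).2

/-- The boundary of a disc is connected. -/
lemma bd_conn {S : Finset (F D)} (hS : Disc S) (P : V D → Prop)
    (hP : ∀ d, f d ∈ S → f (ρ d) ∉ S → (P (v d) ↔ P (v (α d)))) {d d' : D} (h1 : f d ∈ S)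
    (h2 : f (ρ d) ∉ S) (h3 : f d' ∈ S) (h4 : f (ρ d') ∉ S) (h : P (v d)) : P (v d') := by
  obtain ⟨y, hy⟩ := exact_f (fun d : D => (if P (v d) then 1 else 0) *
    ((if f d ∈ S then 1 else 0) + if f (ρ d) ∈ S then 1 else 0)) (fun d => by
      have k1 := hP d
      have k2 := hP (α d)
      simp only [fα, fρα, αα'] at k2 ⊢
      by_cases a : f d ∈ S <;> by_cases a' : f (ρ d) ∈ S
      · rw [if_pos a, if_pos a', z2_add_self, mul_zero, mul_zero]
      · simp [a, a', k1 a a']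
      · simp [a, a', k2 a' a]
      · simp [a, a'])
    fun d => by
      simp only [vρ, ρ3']
      generalize (if P (v d) then (1 : ZMod 2) else 0) = a
      generalize (if f d ∈ S then (1 : ZMod 2) else 0) = b
      generalize (if f (ρ d) ∈ S then (1 : ZMod 2) else 0) = c
      generalize (if f (ρ (ρ d)) ∈ S then (1 : ZMod 2) else 0) = e
      revert a b c e
      decide
  simp only [fα] at hy
  have c1 : y (f d) = y (f d') := const_on hS.2.2.1 y (fun d k1 k2 => z2_add_eq.1 (by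
    rw [← hy, if_pos k1, if_pos k2, z2_add_self, mul_zero])) h1 h3
  have c2 : y (f (ρ d)) = y (f (ρ d')) := const_on hS.2.2.2 y (fun d k1 k2 => z2_add_eq.1 (by
    rw [← hy, if_neg (mem_compl.1 k1), if_neg (mem_compl.1 k2), z2_add_self, mul_zero]))
    (mem_compl.2 h2) (mem_compl.2 h4)
  have k := hy d
  rw [c1, c2, ← hy] at k
  by_contra h5
  simp [h, h1, h2, h3, h4, h5] at k

theorem cyc {S : Finset (F D)} (hS : Disc S) {l : ℕ} (h3 : 3 ≤ l) (h1 : b S ≤ l) (h2 : l ≤ e S) :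
    HasCyc (Γ (D := D)) l := by
  let B : D → Prop := fun d => f d ∈ S ∧ f (ρ d) ∉ S
  let T : D → Prop := fun d => (f d ∈ S ↔ f (ρ d) ∈ S) ∧ ¬(f (ρ d) ∈ S ↔ f (ρ (ρ d)) ∈ S)
  have h4 : e S ≤ b S + #((dset T).image ed) := by
    refine le_trans (card_le_card (t := (dset B).image ed ∪ (dset T).image ed) fun x hx => ?_)
      ((card_union_le _ _).trans (add_le_add card_image_le le_rfl))
    obtain ⟨d, hd, rfl⟩ := mem_image.1 hx
    have hd := mem_dset.1 hd
    by_cases k1 : B d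
    · exact mem_union_left _ (mem_image_of_mem _ (mem_dset.2 k1))
    by_cases k2 : T d
    · exact mem_union_right _ (mem_image_of_mem _ (mem_dset.2 k2))
    refine mem_union_left _ (mem_image.2 ⟨α d, mem_dset.2 ?_, edα d⟩)
    simp only [B, T, Bi, fα, fρα] at *
    tauto
  obtain ⟨t, t1, t2⟩ := exists_subset_card_eq (show l - b S ≤ #((dset T).image ed) by omega)
  obtain ⟨J, j1, j2, j3⟩ := exists_subset_injOn_image_eq_of_surjOn (f := ed) {d | T d} t
    fun x hx => by simpa using t1 hx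
  have TB : ∀ d, T d → ¬B d ∧ ¬B (α d) := fun d h => by
    simp only [B, T, fα, fρα] at *
    tauto
  have uB : ∀ c c', B c → B c' → v c = v c' → c = c' := fun c c' k k' h => by
    rcases (v_eq _ _).1 h with rfl | rfl | rfl
    · rfl
    · exact absurd k'.1 k.2
    · exact absurd k.1 (by simpa using k'.2)
  have uA : ∀ c c', B c → B c' → v (α c) = v (α c') → c = c' := fun c c' k k' h => by
    rcases (v_eq _ _).1 h with h | h | h
    · exact (α.injective h).symm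
    · exact absurd (by rw [← fα, h, fρα]; exact k.1) k'.2
    · exact absurd (by rw [← fα, ← ρ3 (α c), ← h, fρα]; exact k'.1) k.2
  let bd : D → D := fun c => if B (ρ c) then ρ c else ρ (ρ c)
  let th : D → D := fun c => if B (ρ c) then ρ (ρ c) else ρ c
  let σ : D → D := fun w => if B w then (if th (α w) ∈ J then th (α w) else bd (α w)) else bd w
  have vb : ∀ c, v (bd c) = v c ∧ bd c ≠ c := fun c => by
    simp only [bd]
    split_ifs
    exacts [⟨vρ c, ρne c⟩, ⟨by simp, ρρne c⟩]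
  have vt : ∀ c, v (th c) = v c ∧ th c ≠ c := fun c => by
    simp only [th]
    split_ifs
    exacts [⟨by simp, ρρne c⟩, ⟨vρ c, ρne c⟩]
  have bB : ∀ c, T c ∨ B (α c) → B (bd c) := fun c h => by
    simp only [bd]
    split_ifs with k
    · exact k
    · simp only [B, T, fα, fρα, ρ3'] at *
      tauto
  have G1 : ∀ w, B w → v (σ w) = v (α w) ∧ σ w ≠ α w ∧ (B (σ w) ∨ σ w ∈ J) := fun w h => by
    simp only [σ, if_pos h]
    split_ifs with k
    · exact ⟨(vt _).1, (vt _).2, Or.inr k⟩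
    · exact ⟨(vb _).1, (vb _).2, Or.inl (bB _ (Or.inr (by rwa [αα])))⟩
  have G2 : ∀ w ∈ J, v (σ w) = v w ∧ σ w ≠ w ∧ B (σ w) := fun w h => by
    simp only [σ, if_neg (TB w (j1 h)).1]
    exact ⟨(vb _).1, (vb _).2, bB _ (Or.inl (j1 h))⟩
  have G3 : ∀ w ∈ J, ∃ c, B c ∧ σ c = w := fun w h => by
    have k : T w := j1 h
    by_cases k1 : f w ∈ S
    · have k2 : B (α (ρ (ρ w))) := by
        simp only [B, T, fα, fρα, ρ3'] at *
        tauto
      have k3 : th (ρ (ρ w)) = w := by simp only [th, ρ3', if_neg (TB w k).1]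
      exact ⟨_, k2, by simp only [σ, if_pos k2, αα', k3, if_pos h]⟩
    · have k2 : B (α (ρ w)) ∧ B (ρ (ρ w)) := by
        simp only [B, T, fα, fρα, ρ3'] at *
        tauto
      have k3 : th (ρ w) = w := by simp only [th, ρ3', if_pos k2.2]
      exact ⟨_, k2.1, by simp only [σ, if_pos k2.1, αα', k3, if_pos h]⟩
  have hW : ∀ w, w ∈ dset B ∪ J ↔ B w ∨ w ∈ J := fun w => by rw [mem_union, mem_dset]
  have e1 : #(dset B ∪ J) = l := by
    rw [card_union_of_disjoint (disjoint_left.2 fun a k k' => (TB a (j1 k')).1 (mem_dset.1 k)),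
      ← card_image_of_injOn j2, j3, t2]
    exact Nat.add_sub_cancel' h1
  rw [← e1] at h3 ⊢
  refine cyc_of _ _ σ ed (fun w hw => (hW _).2 (((hW _).1 hw).elim (fun k => (G1 w k).2.2)
    fun k => Or.inl (G2 w k).2.2)) (fun A a1 a2 a3 a4 => ?_) (fun c hc c' hc' h => ?_)
    (fun w hw => ?_) h3
  · have a5 : ∀ a ∈ A, B a ∨ a ∈ J := fun a ha => (hW a).1 (a1 ha)
    obtain ⟨c, c1, c2⟩ : ∃ c ∈ A, B c := by
      obtain ⟨a, ha⟩ := a2
      exact (a5 a ha).elim (fun k => ⟨a, ha, k⟩) fun k => ⟨_, a3 a ha, (G2 a k).2.2⟩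
    have hP : ∀ d, f d ∈ S → f (ρ d) ∉ S →
        ((∃ c ∈ A, B c ∧ v c = v d) ↔ ∃ c ∈ A, B c ∧ v c = v (α d)) := fun d k1 k2 => by
      constructor
      · rintro ⟨c, m1, m2, m3⟩
        rw [uB _ _ m2 ⟨k1, k2⟩ m3] at m1
        obtain ⟨g1, -, g2 | g2⟩ := G1 d ⟨k1, k2⟩
        · exact ⟨_, a3 d m1, g2, g1⟩
        · exact ⟨_, a3 _ (a3 d m1), (G2 _ g2).2.2, (G2 _ g2).1.trans g1⟩
      · rintro ⟨c, m1, m2, m3⟩
        obtain ⟨c', n1, rfl⟩ := a4 c m1
        rcases a5 c' n1 with n2 | n2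
        · exact ⟨c', n1, n2, by rw [uA _ _ n2 ⟨k1, k2⟩ ((G1 _ n2).1.symm.trans m3)]⟩
        · obtain ⟨c'', n3, rfl⟩ := a4 c' n1
          have n4 := (a5 c'' n3).resolve_right fun k => (TB _ (j1 n2)).1 (G2 _ k).2.2
          exact ⟨c'', n3, n4, by
            rw [uA _ _ n4 ⟨k1, k2⟩ ((G1 _ n4).1.symm.trans ((G2 _ n2).1.symm.trans m3))]⟩
    have a6 : ∀ d, B d → d ∈ A := fun d hd => by
      obtain ⟨c', k1, k2, k3⟩ := bd_conn hS (fun u => ∃ c ∈ A, B c ∧ v c = u) hP c2.1 c2.2 hd.1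
        hd.2 ⟨c, c1, c2, rfl⟩
      exact uB _ _ k2 hd k3 ▸ k1
    intro w hw
    rcases (hW w).1 hw with k | k
    · exact a6 w k
    · obtain ⟨c, k1, rfl⟩ := G3 w k
      exact a3 c (a6 c k1)
  · rcases (ed_eq _ _).1 h with k | rfl
    · exact k.symm
    · rcases (hW _).1 hc with k | k <;> rcases (hW _).1 hc' with k' | k'
      · exact absurd (by rw [← fα]; exact k'.1) k.2
      · exact absurd (by rwa [αα]) (TB _ (j1 k')).2
      · exact absurd k' (TB _ (j1 k)).2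
      · exact j2 k k' h
  · rcases (hW w).1 hw with k | k
    · rw [← edα w]
      exact adj_of_v (G1 w k).1.symm (G1 w k).2.1.symm
    · exact adj_of_v (G2 w k).1.symm (G2 w k).2.1.symm

end CM

end Pool.Agent.MP_42ec7b_co

end MrgPart1

-- ======== part 2: formerly Pool.Agent.MP_42ec7b_co.Top
section MrgPart2

/-!
A cycle of the line graph lies along the boundary of a disc; weak pancyclicity.
-/

set_option autoImplicit false

open Finset

namespace Pool.Agent.MP_42ec7b_co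

open Classical

namespace CM

variable {D : Type} [CM D]

lemma four_v {a b c d : D} (h1 : v a = v b) (h2 : v a = v c) (h3 : v a = v d) (n1 : b ≠ a)
    (n2 : c ≠ a) (n3 : d ≠ a) (n4 : c ≠ b) (n5 : d ≠ b) (n6 : d ≠ c) : False := by
  rcases ((v_eq _ _).1 h1).resolve_left n1 with rfl | rfl <;>
    rcases ((v_eq _ _).1 h2).resolve_left n2 with rfl | rfl <;>
    rcases ((v_eq _ _).1 h3).resolve_left n3 with rfl | rfl <;> contradiction

lemma Bi.congr {S : Finset (F D)} {d d' : D} (h : Bi S d) (k : v d = v d') : Bi S d' := by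
  rcases (v_eq _ _).1 k with rfl | rfl | rfl <;> simp only [Bi, ρ3'] at * <;> tauto

lemma Bi.of_ne {S : Finset (F D)} {d : D} (h : ¬(f d ∈ S ↔ f (ρ d) ∈ S)) : Bi S d :=
  fun k => h k.1

lemma Bi.other {S : Finset (F D)} {d : D} (h : Bi S d) (k : f d ∈ S ↔ f (ρ d) ∈ S) :
    ¬(f (ρ d) ∈ S ↔ f (ρ (ρ d)) ∈ S) ∧ ¬(f (ρ (ρ d)) ∈ S ↔ f (ρ (ρ (ρ d))) ∈ S) := by
  rw [ρ3]
  exact ⟨fun k' => h ⟨k, k'⟩, fun k' => h ⟨k, (k'.trans k).symm⟩⟩

lemma Bi.not_both {S U : Finset (F D)} (h : Cl S U) {d : D} (b1 : Bi U d) (b2 : Bi (S \ U) d) :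
    False := by
  have a1 := h d
  have a2 := h (ρ d)
  have a3 := h (ρ (ρ d))
  have a4 := h.symm d
  have a5 := h.symm (ρ d)
  have a6 := h.symm (ρ (ρ d))
  simp only [Bi, ρ3', mem_sdiff] at b1 b2 a3 a6
  by_cases k1 : f d ∈ U <;> by_cases k2 : f (ρ d) ∈ U <;> by_cases k3 : f (ρ (ρ d)) ∈ U <;>
    simp_all

theorem top {n : ℕ} (h : HasCyc (Γ (D := D)) (n + 4)) :
    ∃ S : Finset (F D), Disc S ∧ n + 4 ≤ e S := by
  obtain ⟨c, hc, ha⟩ : ∃ c : ZMod (n + 4) → E D, Function.Injective c ∧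
    ∀ i, Γ.Adj (c i) (c (i + 1)) := (hasCyc_iff _ (n + 1)).1 h
  choose x y hx hy hv using fun i => ((adj _ _).1 (ha i)).2
  have nz : ∀ (i : ZMod (n + 4)) (k : ℕ), 0 < k → k < 4 → c (i + k) ≠ c i := fun i k k1 k2 h =>
    absurd (Nat.le_of_dvd k1 ((ZMod.natCast_eq_zero_iff _ _).1 (add_eq_left.1 (hc h)))) (by omega)
  have n1 : ∀ i, c (i + 1) ≠ c i := fun i => by simpa using nz i 1
  have n2 : ∀ i, c (i + 1 + 1) ≠ c i := fun i => by
    have := nz i (1 + 1) (by omega) (by omega)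
    rwa [Nat.cast_add, Nat.cast_one, ← add_assoc] at this
  have n3 : ∀ i, c (i + 1 + 1 + 1) ≠ c i := fun i => by
    have := nz i (1 + 1 + 1) (by omega) (by omega)
    rwa [Nat.cast_add, Nat.cast_add, Nat.cast_one, ← add_assoc, ← add_assoc] at this
  have tr : ∀ i, y i = x (i + 1) ∨ y i = α (x (i + 1)) := fun i =>
    (ed_eq _ _).1 ((hx _).trans (hy i).symm)
  have tr2 : ∀ i, y i = α (x (i + 1)) ∨ y (i + 1) = α (x (i + 1 + 1)) := fun i => by
    by_contra k
    have k1 := (tr i).resolve_right fun k' => k (Or.inl k')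
    have k2 := (tr (i + 1)).resolve_right fun k' => k (Or.inr k')
    have e1 : v (x i) = v (x (i + 1)) := by rw [hv, k1]
    have e2 : v (x i) = v (x (i + 1 + 1)) := by rw [e1, hv, k2]
    refine four_v e1 e2 (e2.trans (hv _)) ?_ ?_ ?_ ?_ ?_ ?_ <;> refine ne_of_apply_ne ed ?_ <;>
      simp only [hx, hy]
    exacts [n1 _, n2 _, n3 _, n1 _, n2 _, n1 _]
  let w : ZMod (n + 4) → D → ZMod 2 := fun i d =>
    (if x (i + 1) = d then 1 else 0) + if y i = d then 1 else 0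
  let z : D → ZMod 2 := fun d => ∑ i, w i d
  have w0 : ∀ i d, y i = x (i + 1) → w i d = 0 := fun i d k => by simp only [w, k, z2_add_self]
  have w1 : ∀ i d, y i = α (x (i + 1)) → w i d = ind (x (i + 1)) d := fun i d k => by
    simp only [w, k, ind]
  have zα : ∀ d, z (α d) = z d := fun d => sum_congr rfl fun i _ => by
    rcases tr i with k | k
    · rw [w0 i _ k, w0 i _ k]
    · rw [w1 i _ k, w1 i _ k, ind_α]
  have zv : ∀ d, z d + z (ρ d) + z (ρ (ρ d)) = 0 := fun d => by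
    rw [← sum_vfib z, sum_comm]
    simp only [w, sum_add_distrib, sum_ite_eq, mem_filter, mem_univ, true_and, ← hv]
    rw [z2_add_eq]
    exact Equiv.sum_comp (Equiv.addRight 1) fun i => if v (x i) = v d then (1 : ZMod 2) else 0
  have z1 : ∀ d, z d = 1 → ∃ i, v d = v (x i) := fun d hd => by
    obtain ⟨i, -, k⟩ := exists_ne_zero_of_sum_ne_zero (hd.trans_ne one_ne_zero)
    by_cases k1 : x (i + 1) = d
    · exact ⟨_, by rw [k1]⟩
    · by_cases k2 : y i = d
      · exact ⟨i, by rw [hv, k2]⟩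
      · simp [w, k1, k2] at k
  have z2 : ∀ i, y i = α (x (i + 1)) → z (y i) = 1 := fun i k => by
    rw [← ind_self (x (i + 1)), ← ind_α, ← k, ← w1 i _ k]
    refine sum_eq_single i (fun j _ k1 => ?_) fun k => absurd (mem_univ i) k
    have : c (j + 1) ≠ c (i + 1) := fun k2 => k1 (add_right_cancel (hc k2))
    simp only [w]
    rw [if_neg (ne_of_apply_ne ed (by rwa [hx, hy])), if_neg (ne_of_apply_ne ed (by rwa [hy, hy])),
      add_zero]
  obtain ⟨Y, hY⟩ := exact_f z zα zv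
  have A : ∀ S : Finset (F D), (∀ d, f d ∈ S → f (ρ d) ∉ S → z d = 1) → S.Nonempty →
      Sᶜ.Nonempty → ∀ i, Bi S (x i) := by
    intro S hS s1 s2 i
    have hS' : ∀ d, ¬(f d ∈ S ↔ f (ρ d) ∈ S) → z d = 1 := fun d k => by
      by_cases k1 : f d ∈ S
      · exact hS d k1 fun k2 => k (iff_of_true k1 k2)
      · rw [← zα]
        exact hS _ (by rw [fα]; exact by_contra fun k2 => k (iff_of_false k1 k2)) (by rwa [fρα])
    obtain ⟨d, d1, d2⟩ := exists_bd s1 s2
    obtain ⟨j, hj⟩ := z1 d (hS d d1 d2)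
    rw [← add_sub_cancel j i, ← ZMod.natCast_zmod_val (i - j)]
    induction (i - j).val with
    | zero => exact (Bi.of_ne fun k => d2 (k.1 d1)).congr (by simpa using hj)
    | succ k ih =>
      rw [Nat.cast_succ, ← add_assoc]
      have b1 := ih.congr (hv _)
      rcases tr (j + k) with k1 | k1
      · rwa [← k1]
      · have b2 : ¬(f (y (j + k)) ∈ S ↔ f (ρ (y (j + k))) ∈ S) := fun k2 => by
          have := zv (y (j + k))
          rw [z2 _ k1, hS' _ (b1.other k2).1, hS' _ (b1.other k2).2] at this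
          exact absurd this (by decide)
        rw [k1, fα, fρα] at b2
        exact Bi.of_ne fun k => b2 k.symm
  have B : ∀ S : Finset (F D), (∀ d, f d ∈ S → f (ρ d) ∉ S → z d = 1) → Sᶜ.Nonempty → Conn S := by
    intro S hS s2 U u1 u2 u3
    by_contra u4
    exact Bi.not_both u3 (A U (fun d k1 k2 => hS d (u1 k1) fun k => k2 (u3 d k1 k)) u2
      (s2.mono (compl_subset_compl.2 u1)) 0) (A (S \ U) (fun d k1 k2 => hS d (mem_sdiff.1 k1).1
      fun k => k2 (mem_sdiff.2 ⟨k, fun k' => (mem_sdiff.1 k1).2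
        (u3.symm d k' (mem_sdiff.1 k1).1)⟩)) (sdiff_nonempty.2 u4)
      (s2.mono (compl_subset_compl.2 sdiff_subset)) 0)
  let S : Finset (F D) := univ.filter fun t => Y t = 1
  have hS : ∀ d, z d = 1 ↔ ¬(f d ∈ S ↔ f (ρ d) ∈ S) := fun d => by
    rw [hY, z2_ne, fα]; simp [S]
  obtain ⟨d, hd⟩ : ∃ d, z d = 1 := (tr2 0).elim (fun k => ⟨_, z2 _ k⟩) fun k => ⟨_, z2 _ k⟩
  rw [hS] at hd
  have s1 : S.Nonempty := by
    by_contra k
    exact hd (iff_of_false (fun k' => k ⟨_, k'⟩) fun k' => k ⟨_, k'⟩)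
  have s2 : Sᶜ.Nonempty := by
    by_contra k
    exact hd (iff_of_true (by_contra fun k' => k ⟨_, mem_compl.2 k'⟩)
      (by_contra fun k' => k ⟨_, mem_compl.2 k'⟩))
  have s3 : ∀ d, f d ∈ S → f (ρ d) ∉ S → z d = 1 := fun d k1 k2 => (hS d).2 fun k => k2 (k.1 k1)
  refine ⟨S, ⟨s1, s2, B S s3 s2, B Sᶜ (fun d k1 k2 => (hS d).2 fun k =>
    k2 (mem_compl.2 fun k' => mem_compl.1 k1 (k.2 k'))) (by rwa [compl_compl])⟩, ?_⟩
  calc n + 4 = #(univ.image c) := by rw [card_image_of_injective _ hc, card_univ, ZMod.card]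
    _ ≤ _ := card_le_card fun t ht => by
      obtain ⟨i, -, rfl⟩ := mem_image.1 ht
      exact mem_image.2 ⟨x i, mem_dset.2 (A S s3 s1 s2 i), hx i⟩

lemma tri (x : E D) : HasCyc (Γ (D := D)) 3 := by
  obtain ⟨d, -⟩ := ed_surj x
  have h1 := adj_of_v (vρ d).symm (ρne d).symm
  have h2 := adj_of_v (vρ (ρ d)).symm (ρne _).symm
  have h3 := adj_of_v (vρ (ρ (ρ d))).symm (ρne _).symm
  rw [ρ3] at h3
  refine (hasCyc_iff _ 0).2 ⟨![ed d, ed (ρ d), ed (ρ (ρ d))], fun i j h => ?_, fun i => ?_⟩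
  · fin_cases i <;> fin_cases j
    exacts [rfl, absurd h h1.ne, absurd h h3.ne', absurd h h1.ne', rfl, absurd h h2.ne,
      absurd h h3.ne, absurd h h2.ne', rfl]
  · fin_cases i
    exacts [h1, h2, h3]

/-- Weak pancyclicity of the line graph. -/
theorem weak {m l : ℕ} (h : HasCyc (Γ (D := D)) m) (h3 : 3 ≤ l) (h4 : l ≠ 4) (hl : l ≤ m) :
    HasCyc (Γ (D := D)) l := by
  rcases h3.eq_or_lt with rfl | h3
  · exact tri h.choose
  have h5 : 5 ≤ l := by omega
  by_contra k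
  obtain ⟨n, rfl⟩ := Nat.exists_eq_add_of_le' (show 4 ≤ m by omega)
  obtain ⟨S, h1, h2⟩ := top h
  have := all_low (fun S hS => by
    by_contra k'
    exact k (cyc hS (by omega) (by omega) (by omega))) h5 h1
  omega

end CM

end Pool.Agent.MP_42ec7b_co

end MrgPart2

-- marker of a merged file
example : 731051 + 446097 = 731051 + 446097 := rfl
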