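import Mathlib.GroupTheory.Perm.Cycle.Basic
import Mathlib.Combinatorics.SimpleGraph.Dart

/-! Planarity of a finite connected graph through rotation systems. -/

set_option autoImplicit false

namespace Pool.Agent.MP_42ec7b_co

/-- `G` has a rotation system of genus zero: `ρ` permutes the darts (oriented edges) and its
cycles are the sets of darts with a common initial vertex, the faces are the cycles of
`φ d = ρ (reverse of d)`, and Euler's formula `|V| - |E| + |F| = 2` holds. For a connected graph
with an edge this is planarity. -/
def Planar {V : Type} (G : SimpleGraph V) : Prop :=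
  ∃ ρ φ : Equiv.Perm G.Dart, (∀ d d', ρ.SameCycle d d' ↔ d.fst = d'.fst) ∧
    (∀ d, φ d = ρ d.symm) ∧
    Nat.card V + Nat.card (Quotient (Equiv.Perm.SameCycle.setoid φ)) = Nat.card G.edgeSet + 2

end Pool.Agent.MP_42ec7b_co
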