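import Pool.Agent.MP_42ec7b_co.Map

/-!
Connected sets of faces, discs and their shellings.
-/

set_option autoImplicit false

open Finset

namespace Pool.Agent.MP_42ec7b_co

open Classical

namespace CM

variable {D : Type} [CM D]

/-- `A` is closed under adjacency inside `S`. -/
def Cl (S A : Finset (F D)) : Prop := ∀ d, f d ∈ A → f (ρ d) ∈ S → f (ρ d) ∈ A

lemma Cl.symm {S A : Finset (F D)} (h : Cl S A) (d : D) (h1 : f (ρ d) ∈ A) (h2 : f d ∈ S) :
    f d ∈ A := by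
  have := h (α d) (by rwa [fα]) (by rwa [fρα])
  rwa [fρα] at this

/-- Connected set of faces. -/
def Conn (S : Finset (F D)) : Prop := ∀ A, A ⊆ S → A.Nonempty → Cl S A → S ⊆ A

/-- A set of faces such that it and its complement are nonempty and connected. -/
def Disc (S : Finset (F D)) : Prop := S.Nonempty ∧ Sᶜ.Nonempty ∧ Conn S ∧ Conn Sᶜ

lemma conn_univ : Conn (univ : Finset (F D)) := by
  rintro A - ⟨a, ha⟩ hc x -
  have := conn_f (fun x => if x ∈ A then 1 else 0) (fun d => by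
    rw [fα]
    exact if_congr ⟨fun h => hc d h (mem_univ _), fun h => hc.symm d h (mem_univ _)⟩ rfl rfl) x a
  by_contra h
  simp [h, ha] at this

lemma exists_bd {S : Finset (F D)} (h : S.Nonempty) (h' : Sᶜ.Nonempty) :
    ∃ d, f d ∈ S ∧ f (ρ d) ∉ S := by
  by_contra k
  obtain ⟨x, hx⟩ := h'
  exact mem_compl.1 hx (conn_univ S (subset_univ _) h
    (fun d h1 _ => by_contra fun h2 => k ⟨d, h1, h2⟩) (mem_univ x))

lemma conn_single (x : F D) : Conn {x} := by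
  rintro A hA ⟨a, ha⟩ -
  rw [singleton_subset_iff, ← mem_singleton.1 (hA ha)]
  exact ha

lemma conn_insert {S : Finset (F D)} (h : Conn S) {d : D} (hd : f (ρ d) ∈ S) :
    Conn (insert (f d) S) := by
  rintro A hA ⟨a, ha⟩ hc
  have h1 : S ⊆ A ∩ S := by
    refine h _ inter_subset_right ?_ fun e h1 h2 =>
      mem_inter.2 ⟨hc e (mem_inter.1 h1).1 (mem_insert_of_mem h2), h2⟩
    rcases mem_insert.1 (hA ha) with k | k
    · exact ⟨_, mem_inter.2 ⟨hc d (k ▸ ha) (mem_insert_of_mem hd), hd⟩⟩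
    · exact ⟨a, mem_inter.2 ⟨ha, k⟩⟩
  have h2 : S ⊆ A := h1.trans inter_subset_left
  exact insert_subset (hc.symm d (h2 hd) (mem_insert_self _ _)) h2

lemma link {U : Finset (F D)} (hU : Conn U) {x : F D} (hx : x ∈ U)
    (h1 : ∀ c c', f c = x → f c' = x → f (ρ c) ∉ U → f (ρ c') ∉ U → c = c') :
    Conn (U.erase x) := by
  intro A hA hne hc
  obtain ⟨c0, h0, h2⟩ : ∃ c0, f c0 = x ∧ ∀ c, f c = x → c ≠ c0 → f (ρ c) ∈ U := by
    by_cases k : ∃ c, f c = x ∧ f (ρ c) ∉ U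
    · obtain ⟨c0, k1, k2⟩ := k
      exact ⟨c0, k1, fun c k3 k4 => by_contra fun k5 => k4 (h1 c c0 k3 k1 k5 k2)⟩
    · obtain ⟨c0, k1⟩ := f_surj x
      exact ⟨c0, k1, fun c k3 _ => by_contra fun k5 => k ⟨c, k3, k5⟩⟩
  have er : ∀ c, f c = x → f (ρ c) ∈ U → f (ρ c) ∈ U.erase x := fun c k1 k2 =>
    mem_erase.2 ⟨k1 ▸ s0 c, k2⟩
  have step : ∀ c, f c = x → f (ρ c) ∈ U → f (ρ (φ c)) ∈ U →
      (f (ρ c) ∈ A ↔ f (ρ (φ c)) ∈ A) := fun c k1 k2 k3 =>
    ⟨fun k => hc.symm (ρ (φ c)) (by rwa [fρφ]) (er _ (by rwa [fφ]) k3), fun k => by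
      have := hc (ρ (φ c)) k (by rw [fρφ]; exact er c k1 k2)
      rwa [fρφ] at this⟩
  have all : ∀ c, f c = x → c = c0 ∨ (f (ρ c) ∈ A ↔ f (ρ (φ c0)) ∈ A) := fun c k1 => by
    refine face_ind (Q := fun c => c = c0 ∨ (f (ρ c) ∈ A ↔ f (ρ (φ c0)) ∈ A)) (Or.inl rfl)
      (fun c k2 k3 => ?_) (k1.trans h0.symm)
    by_cases k4 : c = c0
    · rw [k4]; exact Or.inr Iff.rfl
    · by_cases k5 : φ c = c0
      · exact Or.inl k5
      · rw [h0] at k2
        exact Or.inr ((step c k2 (h2 c k2 k4) (h2 _ (by rwa [fφ]) k5)).symm.trans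
          (k3.resolve_left k4))
  have all' : ∀ c, f c = x → f (ρ c) ∈ U → (f (ρ c) ∈ A ↔ f (ρ (φ c0)) ∈ A) := fun c k1 k2 => by
    rcases all c k1 with k | k
    · rw [k] at k2 ⊢
      exact step c0 h0 k2 (h2 _ (by rwa [fφ]) (φne c0))
    · exact k
  have hAU : A ⊆ U := hA.trans (erase_subset _ _)
  by_cases k : f (ρ (φ c0)) ∈ A
  · refine subset_insert_iff.1 (hU _ (insert_subset hx hAU) (insert_nonempty _ _) fun d k1 k2 => ?_)
    rcases mem_insert.1 k1 with k3 | k3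
    · exact mem_insert_of_mem ((all' d k3 k2).2 k)
    · by_cases k4 : f (ρ d) = x
      · rw [k4]; exact mem_insert_self _ _
      · exact mem_insert_of_mem (hc d k3 (mem_erase.2 ⟨k4, k2⟩))
  · refine (erase_subset _ _).trans (hU A hAU hne fun d k1 k2 => hc d k1 (mem_erase.2 ⟨?_, k2⟩))
    intro k4
    exact k ((all' (α d) (by rwa [fα]) (by rw [fρα]; exact hAU k1)).1 (by rwa [fρα]))

lemma conn_erase (x : F D) : Conn (univ.erase x) :=
  link conn_univ (mem_univ x) fun _ _ _ _ h => absurd (mem_univ _) h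

lemma disc_single (x : F D) : Disc {x} := by
  obtain ⟨d, rfl⟩ := f_surj x
  refine ⟨singleton_nonempty _, ⟨f (ρ d), by simpa using s0 d⟩, conn_single _, ?_⟩
  rw [compl_singleton]
  exact conn_erase _

/-- A smaller disc can be extended by one face inside a larger disc. -/
lemma extend {S T : Finset (F D)} (hS : Disc S) (hT : Disc T) (h : S ⊆ T) (h' : ¬T ⊆ S) :
    ∃ d, f d ∈ T ∧ f d ∉ S ∧ f (ρ d) ∈ S ∧ Disc (insert (f d) S) := by
  obtain ⟨⟨A, d⟩, ⟨h1, h2, h3, h4, h5, h6⟩, hm⟩ := Set.exists_max_image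
    {p : Finset (F D) × D | Conn p.1 ∧ Tᶜ ⊆ p.1 ∧ p.1 ⊆ Sᶜ.erase (f p.2) ∧ f p.2 ∈ T ∧ f p.2 ∉ S ∧
      f (ρ p.2) ∈ S} (fun p => #p.1) (Set.toFinite _) (by
        obtain ⟨d, k1, k2, k3⟩ : ∃ d, f d ∈ S ∧ f (ρ d) ∈ T ∧ f (ρ d) ∉ S := by
          by_contra k
          exact h' (hT.2.2.1 S h hS.1 fun d k1 k2 => by_contra fun k3 => k ⟨d, k1, k2, k3⟩)
        refine ⟨(Tᶜ, α d), hT.2.2.2, Subset.rfl, fun x hx => ?_, by rwa [fα], by rwa [fα],
          by rwa [fρα]⟩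
        rw [mem_compl] at hx
        exact mem_erase.2 ⟨fun k => hx (by rwa [k, fα]), mem_compl.2 fun k => hx (h k)⟩)
  simp only at h1 h2 h3 h4 h5 h6 hm
  have hy : f d ∉ A := fun k => (mem_erase.1 (h3 k)).1 rfl
  have hcl : Cl (Sᶜ.erase (f d)) A := fun e k1 k2 => by
    by_contra k3
    have := hm (insert (f (α e)) A, d) ⟨conn_insert h1 (by rwa [fρα]),
      h2.trans (subset_insert _ _), insert_subset (by rwa [fα]) h3, h4, h5, h6⟩
    rw [card_insert_of_notMem (by rwa [fα])] at this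
    omega
  obtain ⟨e0, g1, g2⟩ : ∃ e, f e = f d ∧ f (ρ e) ∈ A := by
    by_contra k
    refine hy (hS.2.2.2 A (h3.trans (erase_subset _ _)) (hT.2.1.mono h2) (fun e k1 k2 => ?_)
      (mem_compl.2 h5))
    exact hcl e k1 (mem_erase.2 ⟨fun k3 => k ⟨α e, by rwa [fα], by rwa [fρα]⟩, k2⟩)
  have noS : ∀ e, f e ∈ Sᶜ.erase (f d) → f e ∉ A → f (ρ e) ∉ S := fun e k1 k2 k3 => by
    have := hm (insert (f e0) A, e) ⟨conn_insert h1 g2, h2.trans (subset_insert _ _),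
      insert_subset (mem_erase.2 ⟨g1 ▸ (mem_erase.1 k1).1.symm, g1 ▸ mem_compl.2 h5⟩)
        fun x hx => mem_erase.2 ⟨fun k => k2 (k ▸ hx), (mem_erase.1 (h3 hx)).2⟩,
      by_contra fun k => k2 (h2 (mem_compl.2 k)), mem_compl.1 (mem_erase.1 k1).2, k3⟩
    rw [card_insert_of_notMem (by rwa [g1])] at this
    omega
  have fin : Sᶜ.erase (f d) ⊆ A := by
    by_contra k
    have := conn_erase (f d) (Sᶜ.erase (f d) \ A)
      (sdiff_subset.trans (erase_subset_erase _ (subset_univ _))) (sdiff_nonempty.2 k)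
      (fun e k1 k2 => mem_sdiff.2 ⟨mem_erase.2 ⟨(mem_erase.1 k2).1,
        mem_compl.2 (noS e (mem_sdiff.1 k1).1 (mem_sdiff.1 k1).2)⟩,
        fun k3 => (mem_sdiff.1 k1).2 (hcl.symm e k3 (mem_sdiff.1 k1).1)⟩)
      (mem_erase.2 ⟨s0 d, mem_univ _⟩)
    exact mem_compl.1 (mem_erase.1 (mem_sdiff.1 this).1).2 h6
  refine ⟨d, h4, h5, h6, insert_nonempty _ _, ?_, conn_insert hS.2.2.1 h6, ?_⟩ <;>
    rw [compl_insert, ← Subset.antisymm h3 fin]
  exacts [hT.2.1.mono h2, h1]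

end CM

end Pool.Agent.MP_42ec7b_co
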