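import Pool.Agent.MP_42ec7b_co.Top

-- ======== part 0: formerly Pool.Agent.MP_42ec7b_co.T0
section MrgPart0

/-!
Planarity tools: three connected classes, balance counts, components, the boundary orbit.
-/

set_option autoImplicit false

open Finset

namespace Pool.Agent.MP_42ec7b_co

open Classical

namespace CM

variable {D : Type} [CM D]

/-- Adjacent sets of faces. -/
def Ad (P Q : Finset (F D)) : Prop := ∃ d, f d ∈ P ∧ f (ρ d) ∈ Q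

lemma Ad.symm {P Q : Finset (F D)} (h : Ad P Q) : Ad Q P := by
  obtain ⟨d, h1, h2⟩ := h
  exact ⟨α d, by rwa [fα], by rwa [fρα]⟩

lemma Ad.mono {P Q P' Q' : Finset (F D)} (h : Ad P Q) (h1 : P ⊆ P') (h2 : Q ⊆ Q') : Ad P' Q' := by
  obtain ⟨d, k1, k2⟩ := h
  exact ⟨d, h1 k1, h2 k2⟩

lemma Conn.sub {P S A : Finset (F D)} (h : Conn P) (hS : P ⊆ S) (hc : Cl S A) {x : F D}
    (h1 : x ∈ P) (h2 : x ∈ A) : P ⊆ A :=
  (h (P ∩ A) inter_subset_left ⟨x, mem_inter.2 ⟨h1, h2⟩⟩ fun d k1 k2 =>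
    mem_inter.2 ⟨k2, hc d (mem_inter.1 k1).2 (hS k2)⟩).trans inter_subset_right

lemma conn_union {P Q : Finset (F D)} (hP : Conn P) (hQ : Conn Q)
    (h : Ad P Q ∨ ∃ x, x ∈ P ∧ x ∈ Q) : Conn (P ∪ Q) := by
  rintro A hA ⟨a, ha⟩ hc
  have key : (∃ x ∈ P, x ∈ A) ↔ ∃ x ∈ Q, x ∈ A := by
    rcases h with ⟨d, h1, h2⟩ | ⟨x, h1, h2⟩
    · exact ⟨fun ⟨x, k1, k2⟩ => ⟨_, h2, hc d (hP.sub subset_union_left hc k1 k2 h1)
        (mem_union_right _ h2)⟩, fun ⟨x, k1, k2⟩ => ⟨_, h1, hc.symm d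
          (hQ.sub subset_union_right hc k1 k2 h2) (mem_union_left _ h1)⟩⟩
    · exact ⟨fun ⟨y, k1, k2⟩ => ⟨_, h2, hP.sub subset_union_left hc k1 k2 h1⟩,
        fun ⟨y, k1, k2⟩ => ⟨_, h1, hQ.sub subset_union_right hc k1 k2 h2⟩⟩
  obtain ⟨⟨x, k1, k2⟩, y, k3, k4⟩ : (∃ x ∈ P, x ∈ A) ∧ ∃ x ∈ Q, x ∈ A :=
    (mem_union.1 (hA ha)).elim (fun k => ⟨⟨a, k, ha⟩, key.1 ⟨a, k, ha⟩⟩)
      fun k => ⟨key.2 ⟨a, k, ha⟩, a, k, ha⟩
  exact union_subset (hP.sub subset_union_left hc k1 k2) (hQ.sub subset_union_right hc k3 k4)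

/-- A set all of whose faces are joined to a connected core is connected. -/
lemma conn_of_core {S P : Finset (F D)} (hP : Conn P) (hS : P ⊆ S)
    (h : ∀ Z ⊆ S, Z.Nonempty → Cl S Z → ∃ x ∈ P, x ∈ Z) : Conn S := by
  intro A hA hne hc
  obtain ⟨x, k1, k2⟩ := h A hA hne hc
  by_contra k
  obtain ⟨y, k3, k4⟩ := h (S \ A) sdiff_subset (sdiff_nonempty.2 k) fun d m1 m2 =>
    mem_sdiff.2 ⟨m2, fun m => (mem_sdiff.1 m1).2 (hc.symm d m (mem_sdiff.1 m1).1)⟩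
  exact (mem_sdiff.1 k4).2 (hP.sub hS hc k1 k2 k3)

/-- Removing a part whose neighbours lie in a connected core. -/
lemma conn_sdiff {S K P : Finset (F D)} (hS : Conn S) (hP : Conn P) (hne : P.Nonempty)
    (h1 : P ⊆ S \ K) (h2 : ∀ d, f d ∈ K → f (ρ d) ∈ S → f (ρ d) ∉ K → f (ρ d) ∈ P) :
    Conn (S \ K) := by
  refine conn_of_core hP h1 fun Z hZ hZ' hc => ?_
  by_contra k
  obtain ⟨x, hx⟩ := hne
  refine k ⟨x, hx, hS Z (hZ.trans sdiff_subset) hZ' (fun d m1 m2 => hc d m1 (mem_sdiff.2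
    ⟨m2, fun m => k ⟨f d, ?_, m1⟩⟩)) (mem_sdiff.1 (h1 hx)).1⟩
  have := h2 (α d) (by rwa [fα]) (by rw [fρα]; exact (mem_sdiff.1 (hZ m1)).1)
    (by rw [fρα]; exact (mem_sdiff.1 (hZ m1)).2)
  rwa [fρα] at this

/-- The component of a face. -/
lemma exists_comp {S : Finset (F D)} {x : F D} (hx : x ∈ S) :
    ∃ K ⊆ S, x ∈ K ∧ Conn K ∧ Cl S K := by
  obtain ⟨K, ⟨h1, h2, h3⟩, hm⟩ := Set.exists_max_image {K : Finset (F D) | K ⊆ S ∧ x ∈ K ∧ Conn K}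
    card (Set.toFinite _) ⟨{x}, singleton_subset_iff.2 hx, mem_singleton_self x, conn_single x⟩
  refine ⟨K, h1, h2, h3, fun d k1 k2 => by_contra fun k => ?_⟩
  have := hm (insert (f (α d)) K) ⟨insert_subset (by rwa [fα]) h1, mem_insert_of_mem h2,
    conn_insert h3 (by rwa [fρα])⟩
  rw [card_insert_of_notMem (by rwa [fα])] at this
  omega

/-- Two disjoint connected parts extend to a partition into connected parts. -/
lemma ext_two {U P Q : Finset (F D)} (hU : Conn U) (hP : Conn P) (hQ : Conn Q) (h1 : P ⊆ U)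
    (h2 : Q ⊆ U) (hd : Disjoint P Q) (n1 : P.Nonempty) (n2 : Q.Nonempty) :
    ∃ K ⊆ U, P ⊆ K ∧ Q ⊆ U \ K ∧ Conn K ∧ Conn (U \ K) := by
  obtain ⟨x, hx⟩ := n1
  have h3 : P ⊆ U \ Q := subset_sdiff.2 ⟨h1, hd⟩
  obtain ⟨K, k1, k2, k3, k4⟩ := exists_comp (h3 hx)
  have h4 : Q ⊆ U \ K := subset_sdiff.2 ⟨h2, (subset_sdiff.1 k1).2.symm⟩
  exact ⟨K, k1.trans sdiff_subset, hP.sub h3 k4 hx k2, h4, k3, conn_sdiff hU hQ n2 h4
    fun d m1 m2 m3 => by_contra fun m => m3 (k4 d m1 (mem_sdiff.2 ⟨m2, m⟩))⟩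

lemma cnt_cancel {P Q : D → Prop} (h : cnt P = cnt Q) :
    cnt (fun d => P d ∧ ¬Q d) = cnt fun d => Q d ∧ ¬P d := by
  have h1 := cnt_split P Q
  have h2 := cnt_split Q P
  rw [cnt_congr (Q := fun d => P d ∧ Q d) fun d => and_comm] at h2
  omega

lemma exists_of_cnt {P Q : D → Prop} (h : cnt P = cnt Q) {d : D} (hd : P d) : ∃ c, Q c := by
  obtain ⟨c, hc⟩ := card_pos.1 (h ▸ cnt_pos hd : 0 < cnt Q)
  exact ⟨c, mem_dset.1 hc⟩

/-- Both orientations of three classes occur equally often. -/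
lemma par {P Q : Finset (F D)} (hd : Disjoint P Q) :
    cnt (fun d => f d ∈ P ∧ f (ρ d) ∈ Q ∧ f (ρ (ρ d)) ∉ P ∪ Q) =
      cnt fun d => f d ∈ Q ∧ f (ρ d) ∈ P ∧ f (ρ (ρ d)) ∉ P ∪ Q := by
  have h0 : ∀ P Q : Finset (F D), Disjoint P Q → cnt (fun d => f d ∈ P ∧ f (ρ d) ∈ Q) =
      cnt (fun d => f d ∈ P ∧ f (ρ d) ∈ Q ∧ f (ρ (ρ d)) ∉ P ∪ Q) +
      cnt (fun d => f d ∈ P ∧ f (ρ d) ∈ Q ∧ f (ρ (ρ d)) ∈ P) +
      cnt (fun d => f d ∈ P ∧ f (ρ d) ∈ Q ∧ f (ρ (ρ d)) ∈ Q) := fun P Q hd => by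
    simp only [cnt_eq_sum, ← sum_add_distrib]
    refine sum_congr rfl fun d _ => ?_
    have := @disjoint_left.1 hd (f (ρ (ρ d)))
    by_cases h1 : f d ∈ P <;> by_cases h2 : f (ρ d) ∈ Q <;> by_cases h3 : f (ρ (ρ d)) ∈ P <;>
      by_cases h4 : f (ρ (ρ d)) ∈ Q <;> simp_all
  have h1 := h0 P Q hd
  have h2 := h0 Q P hd.symm
  have h3 : cnt (fun d => f d ∈ P ∧ f (ρ d) ∈ Q) = cnt fun d => f d ∈ Q ∧ f (ρ d) ∈ P := by
    rw [← cnt_perm α]; simp only [fα, fρα, and_comm]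
  have h4 : ∀ P Q : Finset (F D), cnt (fun d => f d ∈ P ∧ f (ρ d) ∈ Q ∧ f (ρ (ρ d)) ∈ Q) =
      cnt fun d => f d ∈ Q ∧ f (ρ d) ∈ P ∧ f (ρ (ρ d)) ∈ Q := fun P Q => by
    rw [← cnt_perm ρ]
    exact cnt_congr fun d => by simp only [ρ3']; tauto
  have h5 := h4 P Q
  have h6 := h4 Q P
  rw [union_comm Q P] at h2
  omega

lemma par' {P Q : Finset (F D)} (hd : Disjoint P Q) {d : D} (h1 : f d ∈ P) (h2 : f (ρ d) ∈ Q)
    (h3 : f (ρ (ρ d)) ∉ P ∪ Q) : ∃ c, f c ∈ Q ∧ f (ρ c) ∈ P ∧ f (ρ (ρ c)) ∉ P ∪ Q :=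
  exists_of_cnt (par hd) ⟨h1, h2, h3⟩

/-- Three connected classes meet in at most one vertex of each orientation. -/
lemma tri1 {P Q : Finset (F D)} (hd : Disjoint P Q) (hP : Conn P) (hQ : Conn Q)
    (hR : Conn (P ∪ Q)ᶜ) {d d' : D} (h1 : f d ∈ P) (h2 : f (ρ d) ∈ Q) (h3 : f (ρ (ρ d)) ∉ P ∪ Q)
    (k1 : f d' ∈ P) (k2 : f (ρ d') ∈ Q) (k3 : f (ρ (ρ d')) ∉ P ∪ Q) : d = d' := by
  have c1 := chi_le hP ⟨_, mem_compl.2 (disjoint_right.1 hd h2)⟩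
  have c2 := chi_le hQ ⟨_, mem_compl.2 (disjoint_left.1 hd h1)⟩
  have c3 := chi_le hR ⟨f d, by simp [h1]⟩
  have c4 := card_add_card_compl (P ∪ Q)
  rw [card_union_of_disjoint hd] at c4
  have c5 := euler' (D := D)
  have c6 := par hd
  have r : ∀ P Q : Finset (F D), ∀ R : Finset (F D),
      3 * cnt (fun d => f d ∈ P ∧ f (ρ d) ∈ Q ∧ f (ρ (ρ d)) ∉ R) =
      cnt (fun d => f d ∈ P ∧ f (ρ d) ∈ Q ∧ f (ρ (ρ d)) ∉ R) +
      cnt (fun d => f (ρ d) ∈ P ∧ f (ρ (ρ d)) ∈ Q ∧ f d ∉ R) +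
      cnt (fun d => f (ρ (ρ d)) ∈ P ∧ f d ∈ Q ∧ f (ρ d) ∉ R) := fun P Q R => by
    have e1 := cnt_perm ρ fun d => f d ∈ P ∧ f (ρ d) ∈ Q ∧ f (ρ (ρ d)) ∉ R
    have e2 := cnt_perm ρ fun d => f (ρ d) ∈ P ∧ f (ρ (ρ d)) ∈ Q ∧ f d ∉ R
    simp only [ρ3'] at e1 e2
    omega
  have rq : ∀ S : Finset (F D), 3 * q S = q S + q S + q S := fun S => by ring
  have c7 : t3 P + t3 Q + t3 (P ∪ Q)ᶜ + 3 * q P + 3 * q Q + 3 * q (P ∪ Q)ᶜ +
      3 * cnt (fun d => f d ∈ P ∧ f (ρ d) ∈ Q ∧ f (ρ (ρ d)) ∉ P ∪ Q) +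
      3 * cnt (fun d => f d ∈ Q ∧ f (ρ d) ∈ P ∧ f (ρ (ρ d)) ∉ P ∪ Q) ≤ Fintype.card D := by
    rw [r, r, rq, rq, rq]
    nth_rw 9 [q2]
    nth_rw 8 [q1]
    nth_rw 6 [q2]
    nth_rw 5 [q1]
    nth_rw 3 [q2]
    nth_rw 2 [q1]
    simp only [t3, q, cnt_eq_sum, ← sum_add_distrib, mem_compl, mem_union]
    rw [← card_univ, card_eq_sum_ones]
    refine sum_le_sum fun d _ => ?_
    have h : ∀ g, (g ∈ P ∧ g ∉ Q) ∨ (g ∉ P ∧ g ∈ Q) ∨ (g ∉ P ∧ g ∉ Q) := fun g => by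
      have := @disjoint_left.1 hd g
      tauto
    rcases h (f d) with a | a | a <;> rcases h (f (ρ d)) with a' | a' | a' <;>
      rcases h (f (ρ (ρ d))) with a'' | a'' | a'' <;> simp [a.1, a.2, a'.1, a'.2, a''.1, a''.2]
  by_contra hne
  have := card_le_cnt (P := fun d => f d ∈ P ∧ f (ρ d) ∈ Q ∧ f (ρ (ρ d)) ∉ P ∪ Q) (s := {d, d'})
    (by simp only [mem_insert, mem_singleton]; rintro _ (rfl | rfl); exacts [⟨h1, h2, h3⟩, ⟨k1, k2, k3⟩])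
  rw [card_pair hne] at this
  omega

/-- Balance along the boundary of a set of faces. -/
lemma bal (S : Finset (F D)) (P : V D → Prop) :
    cnt (fun c => (f c ∈ S ∧ f (ρ c) ∉ S) ∧ P (v c)) =
      cnt fun c => (f c ∈ S ∧ f (ρ c) ∉ S) ∧ P (v (α c)) := by
  have h : cnt (fun c => f c ∈ S ∧ P (v c)) = cnt fun c => f (ρ c) ∈ S ∧ P (v c) := by
    rw [← cnt_perm ρ]; simp only [vρ]
  have := cnt_cancel h
  rw [← cnt_perm α fun c => (f c ∈ S ∧ f (ρ c) ∉ S) ∧ P (v (α c))]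
  refine (cnt_congr fun d => ?_).trans (this.trans (cnt_congr fun d => ?_))
  · tauto
  · simp only [fα, fρα, αα']; tauto

/-- Balance around a face. -/
lemma balf (g : F D) (Y : Set (V D)) :
    cnt (fun c => f c = g ∧ v c ∈ Y ∧ v (α c) ∉ Y) =
      cnt fun c => f (ρ c) = g ∧ v c ∈ Y ∧ v (α c) ∉ Y := by
  have h : cnt (fun c => f c = g ∧ v c ∈ Y) = cnt fun c => f c = g ∧ v (α c) ∈ Y := by
    rw [← cnt_perm φ]; simp only [vφ, fφ]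
  have := cnt_cancel h
  rw [← cnt_perm α fun c => f (ρ c) = g ∧ v c ∈ Y ∧ v (α c) ∉ Y]
  refine (cnt_congr fun d => ?_).trans (this.trans (cnt_congr fun d => ?_))
  · tauto
  · simp only [fρα, αα']; tauto

lemma cut_single (u : V D) : cnt (fun d => v d = u ∧ v (α d) ≠ u) = 3 :=
  (cnt_congr fun d => ⟨fun k => k.1, fun k => ⟨k, fun k' => loop d (k'.trans k.symm)⟩⟩).trans
    (cnt_v u)

/-- Three-edge-connectivity. -/
lemma e3 {Y : Set (V D)} {u u' : V D} (h1 : u ∈ Y) (h2 : u' ∉ Y) :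
    3 ≤ cnt fun d => v d ∈ Y ∧ v (α d) ∉ Y := by
  by_contra h
  rcases e4' Y (by omega) with k | k
  · rw [k.eq_singleton_of_mem h1] at h
    exact h (cut_single u).ge
  · refine h ((cut_single u').ge.trans ?_)
    rw [← cnt_perm α]
    refine cnt_mono fun d hd => ?_
    rw [αα] at hd
    exact ⟨by_contra fun k' => hd.2 (k k' h2), hd.1 ▸ h2⟩

lemma uniqB {S : Finset (F D)} {c c' : D} (h1 : f c ∈ S) (h2 : f (ρ c) ∉ S) (h3 : f c' ∈ S)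
    (h4 : f (ρ c') ∉ S) (h : v c = v c') : c = c' := by
  rcases (v_eq _ _).1 h with rfl | rfl | rfl
  · rfl
  · exact absurd h3 h2
  · exact absurd h1 (by simpa using h4)

/-- The boundary darts of a disc in cyclic order. -/
lemma orbit {U : Finset (F D)} (hU : Disc U) {e : D} (h1 : f e ∈ U) (h2 : f (ρ e) ∉ U) :
    ∃ (L : ℕ) (dd : ℕ → D), dd 0 = e ∧ (∀ i, f (dd i) ∈ U ∧ f (ρ (dd i)) ∉ U) ∧
      (∀ i, dd (i + 1) = φ (dd i) ∨ dd (i + 1) = ρ (φ (dd i))) ∧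
      (∀ i j, i < L → j < L → dd i = dd j → i = j) ∧
      ∀ d, f d ∈ U → f (ρ d) ∉ U → ∃ i < L, dd i = d := by
  let B := {d : D // f d ∈ U ∧ f (ρ d) ∉ U}
  let nx : B → B := fun d => if h : f (ρ (φ d.1)) ∈ U then ⟨ρ (φ d.1), h, by
    rw [fρφ]; exact d.2.2⟩ else ⟨φ d.1, by rw [fφ]; exact d.2.1, h⟩
  have n1 : ∀ d, (nx d).1 = φ d.1 ∨ (nx d).1 = ρ (φ d.1) := fun d => by
    simp only [nx]
    split_ifs
    exacts [Or.inr rfl, Or.inl rfl]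
  have n2 : ∀ d, v (nx d).1 = v (α d.1) := fun d => by rcases n1 d with k | k <;> simp [k]
  have n3 : Function.Injective nx := fun c c' h => Subtype.ext (α.injective (uniqB (S := Uᶜ)
    (c := α c.1) (c' := α c'.1) (by simpa using c.2.2) (by rw [fρα]; simpa using c.2.1)
    (by simpa using c'.2.2) (by rw [fρα]; simpa using c'.2.1) (by rw [← n2, ← n2, h])))
  have hp := n3.mem_periodicPts ⟨e, h1, h2⟩
  have h0 := Function.minimalPeriod_pos_of_mem_periodicPts hp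
  have hi := Function.iterate_injOn_Iio_minimalPeriod (f := nx) (x := ⟨e, h1, h2⟩)
  have hmod := fun k => Function.iterate_mod_minimalPeriod_eq (f := nx) (x := ⟨e, h1, h2⟩) (n := k)
  generalize Function.minimalPeriod nx ⟨e, h1, h2⟩ = L at h0 hi hmod
  refine ⟨L, fun i => (nx^[i] ⟨e, h1, h2⟩).1, rfl, fun i => (nx^[i] ⟨e, h1, h2⟩).2, fun i => ?_,
    fun i j a b c => hi a b (Subtype.ext c), fun d k1 k2 => ?_⟩
  · simp only [Function.iterate_succ_apply']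
    exact n1 _
  · have u : ∀ c c' : B, v c.1 = v c'.1 → c = c' := fun c c' h =>
      Subtype.ext (uniqB c.2.1 c.2.2 c'.2.1 c'.2.2 h)
    obtain ⟨i, hi⟩ := bd_conn hU (fun u => ∃ i, v (nx^[i] ⟨e, h1, h2⟩).1 = u) (fun c m1 m2 => by
      constructor
      · rintro ⟨i, hi⟩
        exact ⟨i + 1, by rw [Function.iterate_succ_apply', u _ ⟨c, m1, m2⟩ hi, n2]⟩
      · rintro ⟨i, hi⟩
        refine ⟨i + L - 1, congrArg (fun z : B => v z.1) (n3 (a₂ := ⟨c, m1, m2⟩) (u _ _ ?_))⟩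
        rw [← Function.iterate_succ_apply' nx, ← hmod, show (i + L - 1).succ = i + L by omega,
          Nat.add_mod_right, hmod, hi, n2]) h1 h2 k1 k2 ⟨0, rfl⟩
    exact ⟨i % L, Nat.mod_lt _ h0, by simp only [hmod]; rw [u _ ⟨d, k1, k2⟩ hi]⟩

end CM

end Pool.Agent.MP_42ec7b_co

end MrgPart0

-- ======== part 1: formerly Pool.Agent.MP_42ec7b_co.T1
section MrgPart1

/-!
Extension of a two-colouring of faces: definitions and the easy reductions.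
-/

set_option autoImplicit false

open Finset

namespace Pool.Agent.MP_42ec7b_co

open Classical

namespace CM

variable {D : Type} [CM D]

/-- The vertex has a corner in `U`. -/
def Tch (U : Finset (F D)) (u : V D) : Prop := ∃ c, v c = u ∧ f c ∈ U

/-- The vertex sees both colours. -/
def BV (S : Finset (F D)) (u : V D) : Prop := Tch S u ∧ Tch Sᶜ u

/-- The edge has a side in `U`. -/
def InE (U : Finset (F D)) (c : D) : Prop := f c ∈ U ∨ f (ρ c) ∈ U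

/-- A closed block of one-coloured vertices with at most two attachments. -/
def Blk (U S : Finset (F D)) (Y : Set (V D)) : Prop :=
  (∀ u ∈ Y, Tch U u ∧ ¬BV S u) ∧ (∀ c, v c ∈ Y → InE U c → v (α c) ∉ Y → BV S (v (α c))) ∧
    cnt (fun c => v c ∈ Y ∧ InE U c ∧ v (α c) ∉ Y) ≤ 2

/-- The condition of Tutte. -/
def Good (U S : Finset (F D)) : Prop :=
  ∀ u, Tch U u → ¬BV S u → (∀ c, v c = u → f c ∈ U ∧ BV S (v (α c))) ∨ ∃ Y, u ∈ Y ∧ Blk U S Y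

/-- Red faces, blue faces and uncoloured faces. -/
structure Inst (A B U : Finset (F D)) : Prop where
  part : ∀ g, (g ∈ A ∧ g ∉ B ∧ g ∉ U) ∨ (g ∉ A ∧ g ∈ B ∧ g ∉ U) ∨ (g ∉ A ∧ g ∉ B ∧ g ∈ U)
  cA : Conn A
  cB : Conn B
  ad : Ad A B

/-- Admissible prescribed edges. -/
def Pre (A B U : Finset (F D)) (W : D → Prop) : Prop :=
  (∀ e, W e → ∃ J ⊆ U, Conn J ∧ f e ∈ J ∧ (f (ρ e) ∈ A ∧ Ad J B ∨ f (ρ e) ∈ B ∧ Ad J A)) ∧
    ∀ e e' J, W e → W e' → J ⊆ U → Conn J → f e ∈ J → f e' ∈ J → e = e'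

/-- A solution. -/
structure Sol (A B U : Finset (F D)) (W : D → Prop) (S : Finset (F D)) : Prop where
  sA : A ⊆ S
  sB : B ⊆ Sᶜ
  cS : Conn S
  cT : Conn Sᶜ
  pre : ∀ e, W e → ¬(f e ∈ S ↔ f (ρ e) ∈ S)
  good : Good U S

/-- Solvability of all smaller instances. -/
def IH (D : Type) [CM D] (n : ℕ) : Prop :=
  ∀ (A B U : Finset (F D)) (W : D → Prop), #U < n → Inst A B U → Pre A B U W → ∃ S, Sol A B U W S

variable {A B U K S S' : Finset (F D)} {W : D → Prop} {Y : Set (V D)} {u : V D} {c : D}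

lemma Tch.mono (h : Tch A u) (k : A ⊆ B) : Tch B u := by
  obtain ⟨c, h1, h2⟩ := h
  exact ⟨c, h1, k h2⟩

lemma tch_v (h : f c ∈ U) : Tch U (v c) := ⟨c, rfl, h⟩

lemma tch_α (h : f c ∈ U) : Tch U (v (α c)) := ⟨φ c, vφ c, by rwa [fφ]⟩

lemma tch_iff : Tch U (v c) ↔ f c ∈ U ∨ f (ρ c) ∈ U ∨ f (ρ (ρ c)) ∈ U := by
  refine ⟨fun ⟨c', h1, h2⟩ => ?_, fun h => h.elim tch_v fun h => h.elim
    (fun h => ⟨_, vρ c, h⟩) fun h => ⟨_, by simp, h⟩⟩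
  rcases (v_eq _ _).1 h1.symm with rfl | rfl | rfl
  exacts [Or.inl h2, Or.inr (Or.inl h2), Or.inr (Or.inr h2)]

lemma InE.tch (h : InE U c) : Tch U (v c) := h.elim tch_v fun h => ⟨_, vρ c, h⟩

lemma InE.symm (h : InE U c) : InE U (α c) := by
  unfold InE
  rw [fα, fρα]
  exact Or.symm h

lemma InE.tch' (h : InE U c) : Tch U (v (α c)) := h.symm.tch

lemma InE.mono (h : InE A c) (k : A ⊆ B) : InE B c := h.imp (fun h => k h) fun h => k h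

lemma bv_compl : BV Sᶜ u ↔ BV S u := by rw [BV, compl_compl, and_comm, BV]

lemma bv_of {c c' : D} (h : v c = v c') (k : ¬(f c ∈ S ↔ f c' ∈ S)) : BV S (v c) := by
  by_cases a : f c ∈ S
  · exact ⟨tch_v a, c', h.symm, mem_compl.2 fun b => k (iff_of_true a b)⟩
  · exact ⟨⟨c', h.symm, by_contra fun b => k (iff_of_false a b)⟩, tch_v (mem_compl.2 a)⟩

lemma mono_iff {c c' : D} (k : ¬BV S (v c)) (h : v c = v c') : f c ∈ S ↔ f c' ∈ S :=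
  by_contra fun k' => k (bv_of h k')

lemma bv_congr (h : ∀ g ∉ K, g ∈ S' ↔ g ∈ S) (k : ¬Tch K u) : BV S' u ↔ BV S u := by
  have : ∀ c, v c = u → (f c ∈ S' ↔ f c ∈ S) := fun c hc => h _ fun k' => k ⟨c, hc, k'⟩
  refine and_congr (exists_congr fun c => and_congr_right fun hc => this c hc)
    (exists_congr fun c => and_congr_right fun hc => ?_)
  rw [mem_compl, mem_compl, this c hc]

lemma Cl.corner (h : Cl S A) {c c' : D} (k : v c = v c') (h1 : f c ∈ A) (h2 : f c' ∈ S) :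
    f c' ∈ A := by
  rcases (v_eq _ _).1 k with rfl | rfl | rfl
  · exact h1
  · exact h _ h1 h2
  · exact h.symm _ (by rwa [ρ3]) h2

lemma ad_of_tch (h1 : Tch A u) (h2 : Tch B u) (hd : ∀ g ∈ A, g ∉ B) : Ad A B := by
  obtain ⟨c, rfl, k1⟩ := h1
  rcases tch_iff.1 h2 with k | k | k
  · exact absurd k (hd _ k1)
  · exact ⟨c, k1, k⟩
  · exact Ad.symm ⟨_, k, by rwa [ρ3]⟩

lemma Blk.restrict (h : Blk U S Y) (P : V D → Prop)
    (hP : ∀ c, v c ∈ Y → P (v c) → InE U c → v (α c) ∈ Y → P (v (α c))) :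
    Blk U S {u | u ∈ Y ∧ P u} :=
  ⟨fun u hu => h.1 u hu.1, fun c k1 k2 k3 => h.2.1 c k1.1 k2 fun k => k3 ⟨k, hP c k1.1 k1.2 k2 k⟩,
    (cnt_mono fun c k => ⟨k.1.1, k.2.1, fun k' => k.2.2 ⟨k', hP c k.1.1 k.1.2 k.2.1 k'⟩⟩).trans
      h.2.2⟩

lemma Blk.transfer (h : Blk K S' Y) (h1 : ∀ u ∈ Y, Tch U u ∧ ¬BV S u)
    (h2 : ∀ c, v c ∈ Y → InE U c → v (α c) ∉ Y →
      InE K c ∧ (BV S' (v (α c)) → BV S (v (α c)))) : Blk U S Y :=
  ⟨h1, fun c k1 k2 k3 => (h2 c k1 k2 k3).2 (h.2.1 c k1 (h2 c k1 k2 k3).1 k3),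
    (cnt_mono fun c k => ⟨k.1, (h2 c k.1 k.2.1 k.2.2).1, k.2.2⟩).trans h.2.2⟩

lemma Good.compl (h : Good U S) : Good U Sᶜ := by
  simpa only [Good, Blk, bv_compl] using h

lemma Inst.symm (h : Inst A B U) : Inst B A U :=
  ⟨fun g => by have := h.part g; tauto, h.cB, h.cA, h.ad.symm⟩

lemma Pre.symm (h : Pre A B U W) : Pre B A U W :=
  ⟨fun e he => by
    obtain ⟨J, h1, h2, h3, h4⟩ := h.1 e he
    exact ⟨J, h1, h2, h3, h4.symm⟩, h.2⟩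

lemma Sol.symm (h : Sol B A U W S) : Sol A B U W Sᶜ :=
  ⟨h.sB, by rw [compl_compl]; exact h.sA, h.cT, by rw [compl_compl]; exact h.cS, fun e he => by
    rw [mem_compl, mem_compl, not_iff_not]; exact h.pre e he, h.good.compl⟩

lemma Inst.AB (h : Inst A B U) {g : F D} (k : g ∈ A) : g ∉ B := by have := h.part g; tauto

lemma Inst.AU (h : Inst A B U) {g : F D} (k : g ∈ A) : g ∉ U := by have := h.part g; tauto

lemma Inst.BU (h : Inst A B U) {g : F D} (k : g ∈ B) : g ∉ U := by have := h.part g; tauto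

lemma Inst.or (h : Inst A B U) {g : F D} (k : g ∉ U) : g ∈ A ∨ g ∈ B := by
  have := h.part g; tauto

lemma Inst.nA (h : Inst A B U) : A.Nonempty := h.ad.elim fun _ k => ⟨_, k.1⟩

lemma Inst.nB (h : Inst A B U) : B.Nonempty := h.ad.elim fun _ k => ⟨_, k.2⟩

lemma Inst.compl (h : Inst A B U) : Uᶜ = A ∪ B :=
  ext fun g => by have := h.part g; simp only [mem_compl, mem_union]; tauto

lemma Inst.cU (h : Inst A B U) : Conn Uᶜ := h.compl ▸ conn_union h.cA h.cB (Or.inl h.ad)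

lemma Inst.move (h : Inst A B U) (hK : K ⊆ U) (hc : Conn (A ∪ K)) : Inst (A ∪ K) B (U \ K) :=
  ⟨fun g => by
    have := h.part g
    have := @hK g
    simp only [mem_union, mem_sdiff]
    tauto, hc, h.cB, h.ad.mono subset_union_left Subset.rfl⟩

/-- Uncolour a part and solve again. -/
lemma resolve {n : ℕ} (ih : IH D n) (hn : #K < n) (h1 : Conn (S \ K)) (h2 : Conn (Sᶜ \ K))
    (h3 : Ad (S \ K) (Sᶜ \ K)) (h4 : Pre (S \ K) (Sᶜ \ K) K W) :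
    ∃ S', (∀ g ∉ K, g ∈ S' ↔ g ∈ S) ∧ Conn S' ∧ Conn S'ᶜ ∧
      (∀ e, W e → ¬(f e ∈ S' ↔ f (ρ e) ∈ S')) ∧ Good K S' := by
  obtain ⟨S', k⟩ := ih _ _ K W hn ⟨fun g => by
    simp only [mem_sdiff, mem_compl]; tauto, h1, h2, h3⟩ h4
  exact ⟨S', fun g hg => ⟨fun m => by_contra fun m' =>
    mem_compl.1 (k.sB (mem_sdiff.2 ⟨mem_compl.2 m', hg⟩)) m,
    fun m => k.sA (mem_sdiff.2 ⟨m, hg⟩)⟩, k.cS, k.cT, k.pre, k.good⟩

lemma one_side (h : Inst A B U) (hp : Pre A B U W) (hU : Conn U) (hB : ¬Ad U B) :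
    ∃ S, Sol A B U W S := by
  have e : (A ∪ U)ᶜ = B := ext fun g => by
    have := h.part g; simp only [mem_compl, mem_union]; tauto
  refine ⟨A ∪ U, subset_union_left, e.ge, ?_, e ▸ h.cB, fun d hd => ?_, fun u h1 _ => Or.inr
    ⟨{u | Tch U u}, h1, fun u hu => ⟨hu, fun k => hB (ad_of_tch hu (e ▸ k.2) fun g k1 k2 =>
      h.BU k2 k1)⟩, fun c _ k1 k2 => absurd k1.tch' k2, (cnt_le_card (s := ∅) fun c k =>
      absurd k.2.1.tch' k.2.2).trans (by simp)⟩⟩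
  · rcases U.eq_empty_or_nonempty with rfl | k
    · rw [union_empty]; exact h.cA
    · obtain ⟨d, k1, k2⟩ := exists_bd k (h.compl ▸ h.nA.mono subset_union_left)
      exact conn_union h.cA hU (Or.inl (Ad.symm
        ⟨d, k1, (h.or k2).resolve_right fun k3 => hB ⟨d, k1, k3⟩⟩))
  · obtain ⟨J, k1, -, k2, k3 | k3⟩ := hp.1 d hd
    · exact absurd (k3.2.mono k1 Subset.rfl) hB
    · exact absurd ⟨d, k1 k2, k3.1⟩ hB

/-- Splitting off a component. -/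
lemma split (ih : IH D #U) (h : Inst A B U) (hp : Pre A B U W) (k1 : K ⊆ U) (k2 : Conn K)
    (k3 : Cl U K) (k4 : Ad K A) (k5 : ¬U ⊆ K) : ∃ S, Sol A B U W S := by
  have kn : K.Nonempty := k4.elim fun _ k => ⟨_, k.1⟩
  obtain ⟨S, s⟩ := ih (A ∪ K) B (U \ K) (fun e => W e ∧ f e ∉ K) (card_lt_card (sdiff_ssubset k1 kn))
    (h.move k1 (conn_union h.cA k2 (Or.inl k4.symm))) ⟨fun e he => by
      obtain ⟨J, m1, m2, m3, m4⟩ := hp.1 e he.1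
      exact ⟨J, subset_sdiff.2 ⟨m1, disjoint_left.2 fun x a b => he.2 (m2.sub m1 k3 a b m3)⟩, m2,
        m3, m4.imp (fun m => ⟨mem_union_left _ m.1, m.2⟩)
          fun m => ⟨m.1, m.2.mono Subset.rfl subset_union_left⟩⟩,
      fun e e' J a b c => hp.2 e e' J a.1 b.1 (c.trans sdiff_subset)⟩
  have a1 : A ⊆ S \ K := fun g hg => mem_sdiff.2 ⟨s.sA (mem_union_left _ hg), fun k => h.AU hg (k1 k)⟩
  have a2 : B ⊆ Sᶜ \ K := fun g hg => mem_sdiff.2 ⟨s.sB hg, fun k => h.BU hg (k1 k)⟩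
  obtain ⟨S', t1, t2, t3, t4, t5⟩ := resolve (W := fun e => W e ∧ f e ∈ K) ih
    (card_lt_card ⟨k1, k5⟩)
    (conn_sdiff s.cS h.cA h.nA a1 fun d m1 m2 m3 => (h.or fun m => m3 (k3 d m1 m)).resolve_right
      fun m => mem_compl.1 (s.sB m) m2)
    (conn_sdiff s.cT h.cB h.nB a2 fun d m1 m2 m3 => (h.or fun m => m3 (k3 d m1 m)).resolve_left
      fun m => mem_compl.1 m2 (s.sA (mem_union_left _ m))) (h.ad.mono a1 a2) ⟨fun e he => by
      obtain ⟨J, m1, m2, m3, m4⟩ := hp.1 e he.1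
      exact ⟨J, m2.sub m1 k3 m3 he.2, m2, m3, m4.imp (fun m => ⟨a1 m.1, m.2.mono Subset.rfl a2⟩)
        fun m => ⟨a2 m.1, m.2.mono Subset.rfl a1⟩⟩,
      fun e e' J a b c => hp.2 e e' J a.1 b.1 (c.trans k1)⟩
  have nt : ∀ u, Tch (U \ K) u → ¬Tch K u := fun u ⟨c, m1, m2⟩ ⟨c', m3, m4⟩ =>
    (mem_sdiff.1 m2).2 (k3.corner (m3.trans m1.symm) m4 (mem_sdiff.1 m2).1)
  refine ⟨S', fun g hg => (t1 g (mem_sdiff.1 (a1 hg)).2).2 (mem_sdiff.1 (a1 hg)).1,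
    fun g hg => mem_compl.2 fun k => mem_compl.1 (s.sB hg) ((t1 g (mem_sdiff.1 (a2 hg)).2).1 k),
    t2, t3, fun e he => ?_, fun u h1 h2 => ?_⟩
  · by_cases k : f e ∈ K
    · exact t4 e ⟨he, k⟩
    · obtain ⟨J, m1, -, m3, -⟩ := hp.1 e he
      rw [t1 _ k, t1 _ fun k' => k (k3.symm e k' (m1 m3))]
      exact s.pre e ⟨he, k⟩
  · by_cases k : Tch K u
    · refine (t5 u k h2).imp (fun m c hc => ⟨k1 (m c hc).1, (m c hc).2⟩) fun ⟨Y, m1, m2⟩ =>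
        ⟨Y, m1, m2.transfer (fun u hu => ⟨(m2.1 u hu).1.mono k1, (m2.1 u hu).2⟩)
          fun c m3 m4 _ => ⟨?_, id⟩⟩
      obtain ⟨c', m5, m6⟩ := (m2.1 _ m3).1
      exact m4.imp (k3.corner m5 m6) (k3.corner (m5.trans (vρ c).symm) m6)
    · have k' : ∀ c, ¬Tch K (v c) → InE U c → InE (U \ K) c := fun c m1 m2 =>
        m2.imp (fun m => mem_sdiff.2 ⟨m, fun m' => m1 (tch_v m')⟩)
          fun m => mem_sdiff.2 ⟨m, fun m' => m1 ⟨_, vρ c, m'⟩⟩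
      obtain ⟨c0, rfl, h1⟩ := h1
      refine (s.good _ (k' c0 k (Or.inl h1)).tch (by rwa [← bv_congr t1 k])).imp
        (fun m c hc => ⟨(mem_sdiff.1 (m c hc).1).1,
          (bv_congr t1 (nt _ (tch_α (m c hc).1))).2 (m c hc).2⟩) fun ⟨Y, m1, m2⟩ =>
        ⟨Y, m1, m2.transfer (fun u hu => ⟨(m2.1 u hu).1.mono sdiff_subset,
          by rw [bv_congr t1 (nt u (m2.1 u hu).1)]; exact (m2.1 u hu).2⟩) fun c m3 m4 _ =>
          ⟨k' c (nt _ (m2.1 _ m3).1) m4,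
            (bv_congr t1 (nt _ (k' c (nt _ (m2.1 _ m3).1) m4).tch')).2⟩⟩

end CM

end Pool.Agent.MP_42ec7b_co

end MrgPart1

-- ======== part 2: formerly Pool.Agent.MP_42ec7b_co.T2
section MrgPart2

/-!
Reduction at an uncoloured face that sees both colours.
-/

set_option autoImplicit false

open Finset

namespace Pool.Agent.MP_42ec7b_co

open Classical

namespace CM

variable {D : Type} [CM D] {A B U K : Finset (F D)} {W : D → Prop} {n : F D}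

/-- A component of the uncoloured faces after removal of `n`. -/
structure Pock (A B U K : Finset (F D)) (n : F D) : Prop where
  h : Inst A B U
  hU : Conn U
  hn : n ∈ U
  nA : Ad {n} A
  nB : Ad {n} B
  sub : K ⊆ U.erase n
  cK : Conn K
  cl : Cl (U.erase n) K
  ne : K.Nonempty

namespace Pock

variable (p : Pock A B U K n)

include p

lemma symm : Pock B A U K n := ⟨p.h.symm, p.hU, p.hn, p.nB, p.nA, p.sub, p.cK, p.cl, p.ne⟩

lemma nK : n ∉ K := fun k => (mem_erase.1 (p.sub k)).1 rfl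

lemma KU : K ⊆ U := p.sub.trans (erase_subset _ _)

lemma nb {c c' : D} (h : v c = v c') (h1 : f c ∈ K) (h2 : f c' ∉ K) (h3 : f c' ∈ U) : f c' = n :=
  by_contra fun k => h2 (p.cl.corner h h1 (mem_erase.2 ⟨k, h3⟩))

lemma cR : Conn (K ∪ {n})ᶜ := by
  have s : Uᶜ ⊆ (K ∪ {n})ᶜ := compl_subset_compl.2 (union_subset p.KU (singleton_subset_iff.2 p.hn))
  refine conn_of_core p.h.cU s fun Z z1 z2 z3 => by_contra fun k => ?_
  obtain ⟨a, ha⟩ := p.h.nA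
  refine k ⟨a, mem_compl.2 (p.h.AU ha), conn_erase n Z (fun x hx => ?_) z2 (fun d m1 m2 => z3 d m1 ?_)
    (mem_erase.2 ⟨fun m => p.h.AU ha (m ▸ p.hn), mem_univ _⟩)⟩
  · have := z1 hx
    simp only [mem_compl, mem_union, mem_singleton, not_or] at this
    simp [this.2]
  · have := z1 m1
    simp only [mem_compl, mem_union, mem_singleton, not_or] at this ⊢
    exact ⟨fun m => this.2 (p.nb (vρ d) m this.1 (by_contra fun m' => k ⟨_, mem_compl.2 m', m1⟩)),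
      (mem_erase.1 m2).1⟩

lemma cUK : Conn (U \ K) :=
  conn_sdiff p.hU (conn_single n) (singleton_nonempty n)
    (singleton_subset_iff.2 (mem_sdiff.2 ⟨p.hn, p.nK⟩)) fun d m1 m2 m3 =>
      mem_singleton.2 (p.nb (vρ d).symm m1 m3 m2)

lemma ends : ∃ d1 d2 : D, (f d1 ∈ K ∧ f (ρ d1) = n ∧ f (ρ (ρ d1)) ∉ U) ∧
    (f d2 = n ∧ f (ρ d2) ∈ K ∧ f (ρ (ρ d2)) ∉ U) ∧
    (∀ c, Tch K (v c) → f c ∉ K → f (ρ c) ∉ K → InE U c → c = ρ d1 ∨ c = ρ (ρ d2)) ∧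
    ∀ P : V D → Prop, (∀ c, f c = n → f (ρ c) ∈ K → (P (v c) ↔ P (v (α c)))) →
      (P (v d1) ↔ P (v d2)) ∧ ∀ c, f c = n → f (ρ c) ∈ K → (P (v c) ↔ P (v d2)) := by
  have dj : Disjoint K {n} := disjoint_singleton_right.2 p.nK
  obtain ⟨c0, a1, a2⟩ : ∃ c, f c = n ∧ f (ρ c) ∈ K := by
    by_contra k
    exact p.nK (p.hU K p.KU p.ne (fun d m1 m2 => by_contra fun m3 =>
      k ⟨α d, by rw [fα]; exact p.nb (vρ d).symm m1 m3 m2, by rwa [fρα]⟩) p.hn)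
  obtain ⟨d1, b1, b2, b3⟩ : ∃ d, f d ∈ K ∧ f (ρ d) ∈ ({n} : Finset (F D)) ∧
      f (ρ (ρ d)) ∉ K ∪ {n} := by
    by_contra k
    obtain ⟨c, m1, m2⟩ := p.nA
    refine p.h.AU m2 (p.KU (face_ind (Q := fun c => f (ρ c) ∈ K) a2 (fun c m3 m4 => ?_)
      ((mem_singleton.1 m1).trans a1.symm)))
    by_contra m5
    refine k ⟨ρ (ρ (φ c)), by rwa [fρφ], by rw [ρ3, fφ, m3, a1]; exact mem_singleton_self _, ?_⟩
    rw [ρ3, mem_union, mem_singleton, ← a1, ← m3, ← fφ c]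
    exact fun m => m.elim m5 (s0 _)
  obtain ⟨d2, c1, c2, c3⟩ := par' dj b1 b2 b3
  have u1 : ∀ d, f d ∈ K → f (ρ d) = n → f (ρ (ρ d)) ∉ K → d = d1 := fun d m1 m2 m3 =>
    tri1 dj p.cK (conn_single n) p.cR m1 (mem_singleton.2 m2) (by
      rw [mem_union, mem_singleton, ← m2]; exact fun m => m.elim m3 (s0 _)) b1 b2 b3
  have u2 : ∀ d, f d = n → f (ρ d) ∈ K → f (ρ (ρ d)) ∉ K → d = d2 := fun d m1 m2 m3 =>
    tri1 dj.symm (conn_single n) p.cK (union_comm K _ ▸ p.cR) (mem_singleton.2 m1) m2 (by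
      rw [mem_union, mem_singleton, ← m1]; exact fun m => m.elim (s0' _) m3) c1 c2
      (union_comm K _ ▸ c3)
  rw [mem_union, mem_singleton, not_or] at b3 c3
  rw [mem_singleton] at b2 c1
  refine ⟨d1, d2, ⟨b1, b2, fun m => b3.2 (p.nb (by simp) b1 b3.1 m)⟩,
    ⟨c1, c2, fun m => c3.2 (p.nb (vρ _).symm c2 c3.1 m)⟩, fun c m1 m2 m3 m4 => ?_, fun P hP => ?_⟩
  · have m5 := ((tch_iff.1 m1).resolve_left m2).resolve_left m3
    rcases m4 with m4 | m4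
    · exact Or.inl (by
        rw [← u1 (ρ (ρ c)) m5 (by rw [ρ3]; exact p.nb (by simp) m5 m2 m4) (by rwa [ρ3]), ρ3])
    · exact Or.inr (by rw [← u2 (ρ c) (p.nb (vρ _) m5 m3 m4) m5 (by rwa [ρ3]), ρ3])
  · have key : ∀ c, f c = n → f (ρ c) ∈ K → (P (v c) ↔ P (v d2)) := fun c m =>
      face_ind (Q := fun c => f (ρ c) ∈ K → (P (v c) ↔ P (v d2))) (fun _ => Iff.rfl)
        (fun c m1 m2 m3 => by
          by_cases m4 : f (ρ c) ∈ K
          · rw [vφ, ← hP c (m1.trans c1) m4, m2 m4]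
          · rw [u2 (φ c) (by rw [fφ, m1, c1]) m3 (by rwa [fρφ])]) (m.trans c1.symm)
    refine ⟨?_, key⟩
    rw [← key (α d1) (by rwa [fα]) (by rwa [fρα]), hP (α d1) (by rwa [fα]) (by rwa [fρα]), αα]

lemma not_ad {d1 d2 : D} (a1 : f d1 ∈ K) (a2 : f (ρ d1) = n) (a3 : f (ρ (ρ d1)) ∈ A)
    (b1 : f d2 = n) (b2 : f (ρ d2) ∈ K) (b3 : f (ρ (ρ d2)) ∈ A)
    (en : ∀ c, Tch K (v c) → f c ∉ K → f (ρ c) ∉ K → InE U c → c = ρ d1 ∨ c = ρ (ρ d2)) :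
    ¬Ad K B := by
  rintro ⟨c0, m1, m2⟩
  have dj : Disjoint K A := disjoint_left.2 fun g k1 k2 => p.h.AU k2 (p.KU k1)
  have KB : ∀ {g}, g ∈ B → g ∉ K := fun k1 k2 => p.h.BU k1 (p.KU k2)
  have e1 : (K ∪ A)ᶜ = B ∪ U \ K := ext fun g => by
    have := p.h.part g
    have : g ∈ K → g ∈ U := fun k => p.KU k
    simp only [mem_compl, mem_union, mem_sdiff]
    tauto
  have c1 : Conn (K ∪ A)ᶜ := e1 ▸ conn_union p.h.cB p.cUK (Or.inl (p.nB.symm.mono Subset.rfl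
    (singleton_subset_iff.2 (mem_sdiff.2 ⟨p.hn, p.nK⟩))))
  have nn : n ∉ K ∪ A := fun k => (mem_union.1 k).elim p.nK fun k => p.h.AU k p.hn
  have bb : ∀ {g}, g ∈ B → g ∉ K ∪ A := fun k1 k =>
    (mem_union.1 k).elim (KB k1) fun k => p.h.AB k k1
  have c2 : Conn Kᶜ := by
    have := conn_union p.cR (conn_single n) (Or.inl (p.nA.symm.mono (fun g hg => mem_compl.2
      fun k => p.h.AU hg (union_subset p.KU (singleton_subset_iff.2 p.hn) k)) Subset.rfl))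
    rwa [show (K ∪ {n})ᶜ ∪ {n} = Kᶜ from ext fun g => by
      have : g = n → g ∉ K := fun k => k ▸ p.nK
      simp only [mem_compl, mem_union, mem_singleton]
      tauto] at this
  have := bd_conn ⟨p.ne, ⟨n, mem_compl.2 p.nK⟩, p.cK, c2⟩ (Tch B) (fun c k1 k2 => ?_) m1 (KB m2)
    a1 (a2 ▸ p.nK) ⟨_, vρ c0, m2⟩
  · rcases tch_iff.1 this with k | k | k
    exacts [KB k a1, p.h.BU k (a2 ▸ p.hn), p.h.AB a3 k]
  by_cases k3 : f (ρ c) ∈ B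
  · exact iff_of_true ⟨_, vρ c, k3⟩ (tch_v (by rwa [fα]))
  refine iff_of_false (fun k => ?_) fun k => ?_
  · have k4 := ((tch_iff.1 k).resolve_left fun k => KB k k1).resolve_left k3
    by_cases k5 : f (ρ c) ∈ U
    · rcases en (ρ c) ⟨c, (vρ c).symm, k1⟩ k2 (KB k4) (Or.inl k5) with k6 | k6
      · rw [k6] at k4; exact p.h.AB a3 k4
      · rw [k6] at k5; exact p.h.AU b3 k5
    · have := tri1 dj p.cK p.h.cA c1 k1 ((p.h.or k5).resolve_right k3) (bb k4) b2 b3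
        (by rw [ρ3, b1]; exact nn)
      rw [this, ρ3, b1] at k4
      exact p.h.BU k4 p.hn
  · have k4 := ((tch_iff.1 k).resolve_left (by rwa [fα])).resolve_left
      (by rw [fρα]; exact fun k => KB k k1)
    by_cases k5 : f (ρ c) ∈ U
    · rcases en (ρ (ρ (α c))) ⟨φ c, by simp, by rwa [fφ]⟩ (KB k4) (by rwa [ρ3, fα])
        (Or.inr (by rwa [ρ3, fα])) with k6 | k6
      · rw [k6, a2] at k4; exact p.h.BU k4 p.hn
      · rw [k6] at k4; exact p.h.AB b3 k4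
    · have := tri1 dj.symm p.h.cA p.cK (union_comm K A ▸ c1) (d := α c)
        (by rw [fα]; exact (p.h.or k5).resolve_right k3) (by rwa [fρα]) (union_comm K A ▸ bb k4) a3
        (by rwa [ρ3]) (by rw [ρ3, a2]; exact union_comm K A ▸ nn)
      rw [this, ρ3, a2] at k4
      exact p.h.BU k4 p.hn

lemma red (ih : IH D #U) (hp : Pre A B U W) (hW : ∀ e, W e → f e ∉ K) {d1 d2 : D}
    (a1 : f d1 ∈ K) (a2 : f (ρ d1) = n) (a3 : f (ρ (ρ d1)) ∉ U) (b1 : f d2 = n) (b2 : f (ρ d2) ∈ K)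
    (b3 : f (ρ (ρ d2)) ∉ U)
    (en : ∀ c, Tch K (v c) → f c ∉ K → f (ρ c) ∉ K → InE U c → c = ρ d1 ∨ c = ρ (ρ d2))
    (int : ∀ P : V D → Prop, (∀ c, f c = n → f (ρ c) ∈ K → (P (v c) ↔ P (v (α c)))) →
      (P (v d1) ↔ P (v d2)) ∧ ∀ c, f c = n → f (ρ c) ∈ K → (P (v c) ↔ P (v d2)))
    (hA : f (ρ (ρ d1)) ∈ A ∨ f (ρ (ρ d2)) ∈ A) : ∃ S, Sol A B U W S := by
  have ad1 : ∀ T : Finset (F D), f (ρ (ρ d1)) ∈ T → Ad K T := fun T k =>
    Ad.symm ⟨_, k, by rwa [ρ3]⟩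
  have ad2 : ∀ T : Finset (F D), f (ρ (ρ d2)) ∈ T → Ad K T := fun T k => ⟨_, b2, k⟩
  have KA : Ad K A := hA.elim (ad1 A) (ad2 A)
  have nUK : n ∈ U \ K := mem_sdiff.2 ⟨p.hn, p.nK⟩
  have WU : ∀ e, W e → f e ∈ U ∧ f (ρ e) ∉ U := fun e he => by
    obtain ⟨J, m1, -, m3, m4⟩ := hp.1 e he
    exact ⟨m1 m3, m4.elim (fun m => p.h.AU m.1) fun m => p.h.BU m.1⟩
  obtain ⟨S, s⟩ := ih (A ∪ K) B (U \ K) W (card_lt_card (sdiff_ssubset p.KU p.ne))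
    (p.h.move p.KU (conn_union p.h.cA p.cK (Or.inl KA.symm))) ⟨fun e he =>
      ⟨U \ K, Subset.rfl, p.cUK, mem_sdiff.2 ⟨(WU e he).1, hW e he⟩, (p.h.or (WU e he).2).imp
        (fun m => ⟨mem_union_left _ m, p.nB.mono (singleton_subset_iff.2 nUK) Subset.rfl⟩)
        fun m => ⟨m, p.nA.mono (singleton_subset_iff.2 nUK) subset_union_left⟩⟩,
      fun e e' J a b c => hp.2 e e' J a b (c.trans sdiff_subset)⟩
  have AS : A ⊆ S := subset_union_left.trans s.sA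
  have KS : K ⊆ S := subset_union_right.trans s.sA
  have SA : ∀ g ∉ U, g ∈ S → g ∈ A := fun g k1 k2 =>
    (p.h.or k1).resolve_right fun k => mem_compl.1 (s.sB k) k2
  have k' : ∀ c, ¬Tch K (v c) → InE U c → InE (U \ K) c := fun c m1 m2 =>
    m2.imp (fun m => mem_sdiff.2 ⟨m, fun m' => m1 (tch_v m')⟩)
      fun m => mem_sdiff.2 ⟨m, fun m' => m1 ⟨_, vρ c, m'⟩⟩
  by_cases hc : (n ∈ S ↔ f (ρ (ρ d1)) ∈ S) ∧ (n ∈ S ↔ f (ρ (ρ d2)) ∈ S)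
  · have nS : n ∈ S := hA.elim (fun k => hc.1.2 (AS k)) fun k => hc.2.2 (AS k)
    have nad := p.not_ad a1 a2 (SA _ a3 (hc.1.1 nS)) b1 b2 (SA _ b3 (hc.2.1 nS)) en
    have mono : ∀ u, Tch K u → ¬BV S u := by
      rintro u ⟨c, rfl, m1⟩ ⟨-, c', m2, m3⟩
      rw [mem_compl] at m3
      by_cases m4 : f c' ∈ U
      · exact m3 (p.nb m2.symm m1 (fun m => m3 (KS m)) m4 ▸ nS)
      · exact nad (ad_of_tch (tch_v m1) ⟨c', m2, (p.h.or m4).resolve_left fun m => m3 (AS m)⟩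
          fun g k1 k2 => p.h.BU k2 (p.KU k1))
    obtain ⟨Y1, y1, y2⟩ := (s.good (v d2) (tch_v (b1 ▸ nUK)) (mono _ ⟨_, vρ d2, b2⟩)).resolve_left
      fun m => (mem_sdiff.1 (m _ (vρ d2)).1).2 b2
    have inv : ∀ c, f c = n → f (ρ c) ∈ K → (v c ∈ Y1 ↔ v (α c) ∈ Y1) := fun c m1 m2 =>
      ⟨fun m => by_contra fun m' => mono _ (tch_v (by rwa [fα])) (y2.2.1 c m (Or.inl (m1 ▸ nUK)) m'),
        fun m => by_contra fun m' => mono _ ⟨_, vρ c, m2⟩ (by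
          simpa using y2.2.1 (α c) m (InE.symm (Or.inl (m1 ▸ nUK))) (by rwa [αα]))⟩
    have both : ∀ u, Tch K u → Tch (U \ K) u → u ∈ Y1 := by
      rintro u ⟨c, rfl, m1⟩ ⟨c', m2, m3⟩
      have m4 := p.nb m2.symm m1 (mem_sdiff.1 m3).2 (mem_sdiff.1 m3).1
      rcases (v_eq _ _).1 m2.symm with rfl | rfl | rfl
      · exact absurd m1 (mem_sdiff.1 m3).2
      · have m5 : f (α c) = n := by rwa [fα]
        have m6 : f (ρ (α c)) ∈ K := by rwa [fρα]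
        simpa using (inv _ m5 m6).1 (((int (· ∈ Y1) inv).2 _ m5 m6).2 y1)
      · exact m2 ▸ ((int (· ∈ Y1) inv).2 _ m4 (by rwa [ρ3])).2 y1
    have star : Blk U S {u | u ∈ Y1 ∨ Tch K u} := by
      have m : ∀ c, (v c ∈ Y1 ∨ Tch K (v c)) → InE U c → ¬(v (α c) ∈ Y1 ∨ Tch K (v (α c))) →
          v c ∈ Y1 ∧ InE (U \ K) c ∧ v (α c) ∉ Y1 := fun c m1 m2 m3 => by
        have m4 : InE (U \ K) c := by simpa using (k' (α c) (fun m => m3 (Or.inr m)) m2.symm).symm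
        exact ⟨m1.elim id fun m => both _ m m4.tch, m4, fun m => m3 (Or.inl m)⟩
      exact ⟨fun u hu => hu.elim (fun m => ⟨(y2.1 u m).1.mono sdiff_subset, (y2.1 u m).2⟩)
        fun m => ⟨m.mono p.KU, mono u m⟩, fun c m1 m2 m3 => y2.2.1 c (m c m1 m2 m3).1
          (m c m1 m2 m3).2.1 (m c m1 m2 m3).2.2,
        (cnt_mono fun c k => m c k.1 k.2.1 k.2.2).trans y2.2.2⟩
    refine ⟨S, AS, s.sB, s.cS, s.cT, s.pre, fun u h1 h2 => ?_⟩
    by_cases k : u ∈ Y1 ∨ Tch K u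
    · exact Or.inr ⟨_, k, star⟩
    obtain ⟨c0, rfl, h1⟩ := h1
    refine (s.good _ (k' c0 (fun m => k (Or.inr m)) (Or.inl h1)).tch h2).imp
      (fun m c hc => ⟨(mem_sdiff.1 (m c hc).1).1, (m c hc).2⟩) fun ⟨Y, m1, m2⟩ =>
      ⟨{u | u ∈ Y ∧ u ∉ Y1}, ⟨m1, fun m => k (Or.inl m)⟩, (m2.restrict (· ∉ Y1) fun c m3 m4 m5 _ m6 =>
        (m2.1 _ m3).2 (by simpa using y2.2.1 (α c) m6 m5.symm (by rwa [αα]))).transfer
        (fun u hu => ⟨(m2.1 u hu.1).1.mono sdiff_subset, (m2.1 u hu.1).2⟩) fun c m3 m4 _ =>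
        ⟨k' c (fun m => m3.2 (both _ m (m2.1 _ m3.1).1)) m4, id⟩⟩
  have o1 : ∀ g ∉ K, g ∈ S → g ∈ S \ K := fun g k1 k2 => mem_sdiff.2 ⟨k2, k1⟩
  have o2 : ∀ g ∉ S, g ∈ Sᶜ \ K := fun g k => mem_sdiff.2 ⟨mem_compl.2 k, fun k' => k (KS k')⟩
  have z1 : f (ρ (ρ d1)) ∉ K := fun k => a3 (p.KU k)
  have z2 : f (ρ (ρ d2)) ∉ K := fun k => b3 (p.KU k)
  have a1' : A ⊆ S \ K := fun g hg => o1 g (fun k => p.h.AU hg (p.KU k)) (AS hg)
  obtain ⟨S', t1, t2, t3, t4, t5⟩ := resolve (S := S) (K := K) (W := fun e =>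
      e = d1 ∧ (n ∈ S ↔ f (ρ (ρ d1)) ∈ S) ∨ e = ρ d2 ∧ (n ∈ S ↔ f (ρ (ρ d2)) ∈ S)) ih
    (card_lt_card ⟨p.KU, fun k => p.nK (k p.hn)⟩) (by
      by_cases nS : n ∈ S
      · refine conn_sdiff s.cS (conn_union p.h.cA (conn_single n) (Or.inl p.nA.symm))
          (p.h.nA.mono subset_union_left) (union_subset a1'
            (singleton_subset_iff.2 (o1 n p.nK nS))) fun d m1 m2 m3 => ?_
        by_cases m4 : f (ρ d) ∈ U
        · exact mem_union_right _ (mem_singleton.2 (p.nb (vρ d).symm m1 m3 m4))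
        · exact mem_union_left _ (SA _ m4 m2)
      · exact conn_sdiff s.cS p.h.cA p.h.nA a1' fun d m1 m2 m3 =>
          SA _ (fun m => nS (p.nb (vρ d).symm m1 m3 m ▸ m2)) m2)
    (by rw [sdiff_eq_self_of_disjoint (disjoint_left.2 fun g k1 k2 => mem_compl.1 k1 (KS k2))]
        exact s.cT)
    (p.h.ad.mono a1' fun g hg => o2 g (mem_compl.1 (s.sB hg))) ⟨fun e he => by
      refine ⟨K, Subset.rfl, p.cK, ?_⟩
      rcases he with ⟨rfl, m⟩ | ⟨rfl, m⟩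
      · refine ⟨a1, ?_⟩
        rw [a2]
        by_cases nS : n ∈ S
        · exact Or.inl ⟨o1 n p.nK nS, ad2 _ (o2 _ fun k => hc ⟨m, iff_of_true nS k⟩)⟩
        · exact Or.inr ⟨o2 n nS, KA.mono Subset.rfl a1'⟩
      · refine ⟨b2, ?_⟩
        by_cases nS : n ∈ S
        · exact Or.inl ⟨o1 _ z2 (m.1 nS), ad1 _ (o2 _ fun k => hc ⟨iff_of_true nS k, m⟩)⟩
        · exact Or.inr ⟨o2 _ fun k => nS (m.2 k), KA.mono Subset.rfl a1'⟩,
      by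
        rintro _ _ - (⟨rfl, m⟩ | ⟨rfl, m⟩) (⟨rfl, m'⟩ | ⟨rfl, m'⟩) - - - -
        exacts [rfl, absurd ⟨m, m'⟩ hc, absurd ⟨m', m⟩ hc, rfl]⟩
  have bv1 : BV S' (v d1) := by
    by_cases m : n ∈ S ↔ f (ρ (ρ d1)) ∈ S
    · exact bv_of (vρ d1).symm (t4 _ (Or.inl ⟨rfl, m⟩))
    · exact vρ d1 ▸ bv_of (vρ (ρ d1)).symm (by rwa [t1 _ z1, a2, t1 _ p.nK])
  have bv2 : BV S' (v d2) := by
    by_cases m : n ∈ S ↔ f (ρ (ρ d2)) ∈ S
    · exact vρ d2 ▸ bv_of (vρ (ρ d2)).symm (t4 _ (Or.inr ⟨rfl, m⟩))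
    · exact bv_of (c' := ρ (ρ d2)) (by simp) (by rwa [t1 _ z2, b1, t1 _ p.nK])
  have en' : ∀ c, Tch K (v c) → f c ∉ K → f (ρ c) ∉ K → InE U c → BV S' (v c) :=
    fun c m1 m2 m3 m4 => by
      rcases en c m1 m2 m3 m4 with rfl | rfl <;> simpa
  refine ⟨S', fun g hg => (t1 g (mem_sdiff.1 (a1' hg)).2).2 (AS hg), fun g hg => mem_compl.2
    fun k => mem_compl.1 (s.sB hg) ((t1 g fun k' => p.h.BU hg (p.KU k')).1 k), t2, t3,
    fun e he => by rw [t1 _ (hW e he), t1 _ fun k => (WU e he).2 (p.KU k)]; exact s.pre e he,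
    fun u h1 h2 => ?_⟩
  by_cases k : Tch K u
  · exact (t5 u k h2).imp (fun m c hc => ⟨p.KU (m c hc).1, (m c hc).2⟩) fun ⟨Y, m1, m2⟩ =>
      ⟨Y, m1, m2.transfer (fun u hu => ⟨(m2.1 u hu).1.mono p.KU, (m2.1 u hu).2⟩)
        fun c m3 m4 _ => ⟨by_contra fun m => (m2.1 _ m3).2 (en' c (m2.1 _ m3).1
          (fun m' => m (Or.inl m')) (fun m' => m (Or.inr m')) m4), id⟩⟩
  obtain ⟨c0, rfl, h1⟩ := h1
  have far : ∀ c, ¬Tch K (v c) → f (α c) ∉ K ∧ f (ρ (α c)) ∉ K := fun c m =>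
    ⟨by rw [fα]; exact fun m' => m ⟨_, vρ c, m'⟩, by rw [fρα]; exact fun m' => m (tch_v m')⟩
  refine (s.good _ (k' c0 k (Or.inl h1)).tch (by rwa [← bv_congr t1 k])).imp (fun m c hc => ?_)
    fun ⟨Y, m1, m2⟩ => ⟨{u | u ∈ Y ∧ ¬Tch K u}, ⟨m1, k⟩, fun u hu =>
      ⟨(m2.1 u hu.1).1.mono sdiff_subset, by rw [bv_congr t1 hu.2]; exact (m2.1 u hu.1).2⟩,
      fun c m3 m4 m5 => ?_, ?_⟩
  · refine ⟨(mem_sdiff.1 (m c hc).1).1, ?_⟩
    by_cases m3 : Tch K (v (α c))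
    · exact en' _ m3 (far c (hc ▸ k)).1 (far c (hc ▸ k)).2
        (InE.symm (Or.inl (mem_sdiff.1 (m c hc).1).1))
    · exact (bv_congr t1 m3).2 (m c hc).2
  · by_cases m6 : Tch K (v (α c))
    · exact en' _ m6 (far c m3.2).1 (far c m3.2).2 m4.symm
    · exact (bv_congr t1 m6).2 (m2.2.1 c m3.1 (k' c m3.2 m4) fun m => m5 ⟨m, m6⟩)
  have act : ∀ c, v c ∈ Y → ¬Tch K (v c) → InE U c → v (α c) ∈ Y → Tch K (v (α c)) →
      α c = ρ d1 ∧ v d1 ∈ Y ∨ α c = ρ (ρ d2) ∧ v d2 ∈ Y := fun c _ m4 m5 m6 m7 =>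
    (en _ m7 (far c m4).1 (far c m4).2 m5.symm).imp (fun m => ⟨m, by simpa [m] using m6⟩)
      fun m => ⟨m, by simpa [m] using m6⟩
  have nb : ¬(v d1 ∈ Y ∧ v d2 ∈ Y) := fun m => hc
    ⟨a2 ▸ mono_iff (vρ d1 ▸ (m2.1 _ m.1).2) (vρ (ρ d1)).symm,
      b1 ▸ mono_iff (m2.1 _ m.2).2 (by simp)⟩
  have sp := cnt_split (fun c => v c ∈ Y ∧ InE (U \ K) c ∧ v (α c) ∉ Y) fun c => Tch K (v c)
  have le := m2.2.2
  by_cases ex : v d1 ∈ Y ∨ v d2 ∈ Y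
  · obtain ⟨c, m3, m4, m5⟩ : ∃ c, f c = n ∧ f (ρ c) ∈ K ∧ ¬(v c ∈ Y ↔ v (α c) ∈ Y) := by
      by_contra m
      have := (int (· ∈ Y) fun c m3 m4 => by_contra fun m5 => m ⟨c, m3, m4, m5⟩).1
      exact nb (ex.elim (fun m => ⟨m, this.1 m⟩) fun m => ⟨this.2 m, m⟩)
    have pos : 0 < cnt fun c => (v c ∈ Y ∧ InE (U \ K) c ∧ v (α c) ∉ Y) ∧ Tch K (v c) := by
      by_cases m6 : v c ∈ Y
      · exact cnt_pos (d := c) ⟨⟨m6, Or.inl (m3 ▸ nUK), fun m => m5 (iff_of_true m6 m)⟩,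
          _, vρ c, m4⟩
      · exact cnt_pos (d := α c) ⟨⟨by_contra fun m => m5 (iff_of_false m6 m),
          InE.symm (Or.inl (m3 ▸ nUK)), by rwa [αα]⟩, tch_v (by rwa [fα])⟩
    have one : cnt (fun c => α c = ρ d1 ∧ v d1 ∈ Y ∨ α c = ρ (ρ d2) ∧ v d2 ∈ Y) ≤ 1 :=
      cnt_le_one fun c c' m m' => α.injective (by
        rcases m with m | m <;> rcases m' with m' | m'
        exacts [m.1.trans m'.1.symm, absurd ⟨m.2, m'.2⟩ nb, absurd ⟨m'.2, m.2⟩ nb,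
          m.1.trans m'.1.symm])
    refine le_trans (cnt_mono fun c m => ?_) ((cnt_or_le
      (fun c => (v c ∈ Y ∧ InE (U \ K) c ∧ v (α c) ∉ Y) ∧ ¬Tch K (v c))
      fun c => α c = ρ d1 ∧ v d1 ∈ Y ∨ α c = ρ (ρ d2) ∧ v d2 ∈ Y).trans (by omega))
    by_cases m6 : v (α c) ∈ Y
    · exact Or.inr (act c m.1.1 m.1.2 m.2.1 m6 (by_contra fun m7 => m.2.2 ⟨m6, m7⟩))
    · exact Or.inl ⟨⟨m.1.1, k' c m.1.2 m.2.1, m6⟩, m.1.2⟩
  · refine (cnt_mono fun c m => ⟨m.1.1, k' c m.1.2 m.2.1, fun m6 => ex ?_⟩).trans le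
    exact (act c m.1.1 m.1.2 m.2.1 m6 (by_contra fun m7 => m.2.2 ⟨m6, m7⟩)).imp And.right And.right

theorem solve (ih : IH D #U) (hp : Pre A B U W) (hW : ∀ e, W e → f e ∉ K) :
    ∃ S, Sol A B U W S := by
  obtain ⟨d1, d2, ⟨a1, a2, a3⟩, ⟨b1, b2, b3⟩, en, int⟩ := p.ends
  by_cases hA : f (ρ (ρ d1)) ∈ A ∨ f (ρ (ρ d2)) ∈ A
  · exact p.red ih hp hW a1 a2 a3 b1 b2 b3 en int hA
  · obtain ⟨S, s⟩ := p.symm.red ih hp.symm hW a1 a2 a3 b1 b2 b3 en int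
      (Or.inl ((p.h.or a3).resolve_left fun k => hA (Or.inl k)))
    exact ⟨_, s.symm⟩

end Pock

end CM

end Pool.Agent.MP_42ec7b_co

end MrgPart2

-- ======== part 3: formerly Pool.Agent.MP_42ec7b_co.T3
section MrgPart3

/-!
The fan along the red boundary of the uncoloured faces.
-/

set_option autoImplicit false

open Finset

namespace Pool.Agent.MP_42ec7b_co

open Classical

namespace CM

/-- An irreducible instance, its boundary darts and an induced path of faces along the red part. -/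
structure Fan (D : Type) [CM D] where
  A : Finset (F D)
  B : Finset (F D)
  U : Finset (F D)
  L : ℕ
  m : ℕ
  r : ℕ
  dd : ℕ → D
  s : ℕ → F D
  ε : ℕ → D
  h : Inst A B U
  hU : Conn U
  bd : ∀ i, f (dd i) ∈ U ∧ f (ρ (dd i)) ∉ U
  nx : ∀ i, dd (i + 1) = φ (dd i) ∨ dd (i + 1) = ρ (φ (dd i))
  inj : ∀ i j, i < L → j < L → dd i = dd j → i = j
  sur : ∀ d, f d ∈ U → f (ρ d) ∉ U → ∃ i < L, dd i = d
  mL : m + 1 < L
  fA : ∀ i ≤ m, f (ρ (dd i)) ∈ A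
  fB : f (ρ (dd (m + 1))) ∈ B
  irr : ∀ n ∈ U, Ad {n} A → Ad {n} B → ∀ g ∈ U.erase n,
    ∃ K ⊆ U.erase n, Conn K ∧ g ∈ K ∧ f (dd 0) ∈ K
  st : s 0 = f (dd 0)
  en : s r = f (dd m)
  sN : ∀ l ≤ r, ∃ i ≤ m, f (dd i) = s l
  ad : ∀ l < r, f (ε l) = s l ∧ f (ρ (ε l)) = s (l + 1)
  ind : ∀ p q, p < q → q ≤ r → s p ≠ s q ∧ ∀ d, f d = s p → f (ρ d) = s q → q = p + 1

namespace Fan

variable {D : Type} [CM D] (X : Fan D) {c : D} {g : F D} {u : V D} {i j k l : ℕ}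

lemma arc {P Q : Finset (F D)} (hP : Conn P) (hQ : Conn Q) (h1 : P ⊆ X.U) (h2 : Q ⊆ X.U)
    (hd : Disjoint P Q) {i1 i2 i3 i4 : ℕ} (a1 : i1 ≤ i2) (a2 : i2 ≤ i3) (a3 : i3 ≤ i4)
    (a4 : i4 < X.L) (b1 : f (X.dd i1) ∈ P) (b2 : f (X.dd i2) ∈ Q) (b3 : f (X.dd i3) ∈ P)
    (b4 : f (X.dd i4) ∈ Q) : False := by
  obtain ⟨K, k1, k2, k3, k4, k5⟩ := ext_two X.hU hP hQ h1 h2 hd ⟨_, b1⟩ ⟨_, b2⟩
  have ch : ∀ i j, i ≤ j → f (X.dd i) ∈ K → f (X.dd j) ∉ K →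
      ∃ n, i ≤ n ∧ n < j ∧ f (X.dd n) ∈ K ∧ f (X.dd (n + 1)) ∉ K := by
    intro i j hij hi
    induction j, hij using Nat.le_induction with
    | base => exact fun k => absurd hi k
    | succ j hij ih =>
      intro hj
      by_cases k : f (X.dd j) ∈ K
      · exact ⟨j, hij, j.lt_succ_self, k, hj⟩
      · obtain ⟨n, m1, m2, m3⟩ := ih k
        exact ⟨n, m1, m2.trans j.lt_succ_self, m3⟩
  have pat : ∀ n, f (X.dd n) ∈ K → f (X.dd (n + 1)) ∉ K → f (φ (X.dd n)) ∈ K ∧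
      f (ρ (φ (X.dd n))) ∈ X.U \ K ∧ f (ρ (ρ (φ (X.dd n)))) ∉ K ∪ X.U \ K := fun n m1 m2 => by
    rw [union_sdiff_of_subset k1, fρφ, fφ]
    rcases X.nx n with m | m
    · exact absurd (by rwa [m, fφ]) m2
    · exact ⟨m1, m ▸ mem_sdiff.2 ⟨(X.bd _).1, m2⟩, (X.bd n).2⟩
  obtain ⟨n, m1, m2, m3, m4⟩ := ch i1 i2 a1 (k2 b1) (mem_sdiff.1 (k3 b2)).2
  obtain ⟨n', o1, o2, o3, o4⟩ := ch i3 i4 a3 (k2 b3) (mem_sdiff.1 (k3 b4)).2
  have := X.inj n n' (by omega) (by omega) (φ.injective (tri1 disjoint_sdiff k4 k5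
    (by rw [union_sdiff_of_subset k1]; exact X.h.cU) (pat n m3 m4).1 (pat n m3 m4).2.1
    (pat n m3 m4).2.2 (pat n' o3 o4).1 (pat n' o3 o4).2.1 (pat n' o3 o4).2.2))
  omega

lemma vnx (i : ℕ) : v (X.dd (i + 1)) = v (α (X.dd i)) := by
  rcases X.nx i with k | k <;> simp [k]

lemma sU (h : l ≤ X.r) : X.s l ∈ X.U := by
  obtain ⟨i, -, k⟩ := X.sN l h
  exact k ▸ (X.bd i).1

lemma s_inj (h1 : i ≤ X.r) (h2 : j ≤ X.r) (h : X.s i = X.s j) : i = j := by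
  rcases lt_trichotomy i j with k | k | k
  exacts [absurd h (X.ind i j k h2).1, k, absurd h.symm (X.ind j i k h1).1]

/-- A segment of the path. -/
noncomputable def seg (i j : ℕ) : Finset (F D) := (Icc i j).image X.s

lemma mem_seg : g ∈ X.seg i j ↔ ∃ l, i ≤ l ∧ l ≤ j ∧ X.s l = g := by
  simp only [seg, mem_image, mem_Icc, and_assoc]

lemma seg_mem (h1 : i ≤ l) (h2 : l ≤ j) : X.s l ∈ X.seg i j := X.mem_seg.2 ⟨l, h1, h2, rfl⟩

lemma seg_U (h : j ≤ X.r) : X.seg i j ⊆ X.U := fun g hg => by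
  obtain ⟨l, -, k, rfl⟩ := X.mem_seg.1 hg
  exact X.sU (k.trans h)

lemma seg_conn (h1 : i ≤ j) (h2 : j ≤ X.r) : Conn (X.seg i j) := by
  induction j, h1 using Nat.le_induction with
  | base =>
    rw [seg, Icc_self, image_singleton]
    exact conn_single _
  | succ j h1 ih =>
    have := conn_insert (ih (by omega)) (d := α (X.ε j))
      (by rw [fρα, (X.ad j h2).1]; exact X.seg_mem h1 le_rfl)
    rwa [fα, (X.ad j h2).2, seg, ← image_insert, insert_Icc_right_eq_Icc_add_one (by omega)] at this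

lemma seg_disj (h1 : j < k) (h2 : l ≤ X.r) (h3 : j ≤ X.r) : Disjoint (X.seg i j) (X.seg k l) :=
  disjoint_left.2 fun g a a' => by
    obtain ⟨n, -, m1, rfl⟩ := X.mem_seg.1 a
    obtain ⟨n', m2, m3, m4⟩ := X.mem_seg.1 a'
    have := X.s_inj (m3.trans h2) (m1.trans h3) m4
    omega

/-- The faces of the path. -/
noncomputable def NS : Finset (F D) := X.seg 0 X.r

lemma mem_NS : g ∈ X.NS ↔ ∃ l ≤ X.r, X.s l = g := by simp [NS, mem_seg]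

lemma sNS (h : l ≤ X.r) : X.s l ∈ X.NS := X.mem_NS.2 ⟨l, h, rfl⟩

lemma NS_U : X.NS ⊆ X.U := X.seg_U le_rfl

lemma seg_NS (h : j ≤ X.r) : X.seg i j ⊆ X.NS := fun g hg => by
  obtain ⟨l, -, k, rfl⟩ := X.mem_seg.1 hg
  exact X.sNS (k.trans h)

lemma fd (h1 : f c ∈ X.NS) (h2 : f (ρ c) ∈ X.NS) : ∃ l < X.r, c = X.ε l ∨ c = α (X.ε l) := by
  obtain ⟨i, a1, a2⟩ := X.mem_NS.1 h1
  obtain ⟨j, b1, b2⟩ := X.mem_NS.1 h2
  rcases lt_trichotomy i j with k | rfl | k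
  · obtain rfl := (X.ind i j k b1).2 c a2.symm b2.symm
    exact ⟨i, b1, Or.inl (s1 (by rw [(X.ad i b1).1, a2]) (by rw [(X.ad i b1).2, b2]))⟩
  · exact absurd (b2.symm.trans a2) (s0 c)
  · obtain rfl := (X.ind j i k a1).2 (α c) (by rw [fα, b2]) (by rw [fρα, a2])
    exact ⟨j, a1, Or.inr (s1 (by rw [fα, (X.ad j a1).2, a2]) (by rw [fρα, (X.ad j a1).1, b2]))⟩

lemma no3 (h1 : f c ∈ X.NS) (h2 : f (ρ c) ∈ X.NS) : f (ρ (ρ c)) ∉ X.NS := fun h3 => by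
  have key : ∀ c, f c ∈ X.NS → f (ρ c) ∈ X.NS → ∀ i j, i ≤ X.r → j ≤ X.r → X.s i = f c →
      X.s j = f (ρ c) → j = i + 1 ∨ i = j + 1 := fun c k1 k2 i j a1 a2 a3 a4 => by
    obtain ⟨l, m1, rfl | rfl⟩ := X.fd k1 k2
    · rw [(X.ad l m1).1] at a3
      rw [(X.ad l m1).2] at a4
      have := X.s_inj a1 m1.le a3
      have := X.s_inj a2 m1 a4
      omega
    · rw [fα, (X.ad l m1).2] at a3
      rw [fρα, (X.ad l m1).1] at a4
      have := X.s_inj a1 m1 a3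
      have := X.s_inj a2 m1.le a4
      omega
  obtain ⟨i, a1, a2⟩ := X.mem_NS.1 h1
  obtain ⟨j, b1, b2⟩ := X.mem_NS.1 h2
  obtain ⟨k, c1, c2⟩ := X.mem_NS.1 h3
  have := key c h1 h2 i j a1 b1 a2 b2
  have := key _ h2 h3 j k b1 c1 b2 c2
  have := key _ h3 (by rwa [ρ3]) k i c1 a1 c2 (by rwa [ρ3])
  omega

lemma x0 : X.dd (X.m + 1) = φ (X.dd X.m) :=
  (X.nx _).resolve_right fun k => X.h.AB (X.fA _ le_rfl) (by
    have := X.fB
    rwa [k, fρφ] at this)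

lemma x1 : f (X.dd (X.m + 1)) = X.s X.r := by rw [X.x0, fφ, X.en]

lemma x2 : f (ρ (ρ (X.dd (X.m + 1)))) ∈ X.A := by
  rw [X.x0, fρφ]
  exact X.fA _ le_rfl

/-- Only the last face of the path sees blue. -/
lemma f1 (h1 : f c ∈ X.NS) (h2 : f (ρ c) ∈ X.B) : f c = X.s X.r := by
  by_contra hne
  obtain ⟨l, a1, a2⟩ := X.mem_NS.1 h1
  obtain ⟨i, b1, b2⟩ := X.sN l a1
  obtain ⟨K, k1, k2, k3, k4⟩ := X.irr (f c) (X.NS_U h1)
    ⟨_, mem_singleton.2 (b2.trans a2), X.fA i b1⟩ ⟨c, mem_singleton_self _, h2⟩ _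
    (mem_erase.2 ⟨Ne.symm hne, X.sU le_rfl⟩)
  obtain ⟨k, c1, c2⟩ := X.sur c (X.NS_U h1) (X.h.BU h2)
  exact X.arc k2 (conn_single (f c)) (k1.trans (erase_subset _ _))
    (singleton_subset_iff.2 (X.NS_U h1))
    (disjoint_singleton_right.2 fun k => (mem_erase.1 (k1 k)).1 rfl) (Nat.zero_le i) b1
    (not_lt.1 fun k' => X.h.AB (X.fA k k'.le) (c2 ▸ h2)) c1 k4
    (mem_singleton.2 (b2.trans a2)) (X.en ▸ k3) (mem_singleton.2 (by rw [c2]))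

/-- The faces between the path and the red boundary. -/
noncomputable def In : Finset (F D) :=
  univ.filter fun g => ∃ J ⊆ X.U \ X.NS, Conn J ∧ g ∈ J ∧ ∃ i ≤ X.m, f (X.dd i) ∈ J

lemma mem_In : g ∈ X.In ↔ ∃ J ⊆ X.U \ X.NS, Conn J ∧ g ∈ J ∧ ∃ i ≤ X.m, f (X.dd i) ∈ J := by
  simp only [In, mem_filter, mem_univ, true_and]

lemma In_sub (h : g ∈ X.In) : g ∈ X.U ∧ g ∉ X.NS := by
  obtain ⟨J, k1, -, k2, -⟩ := X.mem_In.1 h
  exact mem_sdiff.1 (k1 k2)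

lemma In_cl : Cl (X.U \ X.NS) X.In := fun c h1 h2 => by
  obtain ⟨J, k1, k2, k3, i, k4, k5⟩ := X.mem_In.1 h1
  exact X.mem_In.2 ⟨insert (f (α c)) J, insert_subset (by rwa [fα]) k1,
    conn_insert k2 (by rwa [fρα]), by rw [fα]; exact mem_insert_self _ _, i, k4,
    mem_insert_of_mem k5⟩

lemma N_sub (h : i ≤ X.m) : f (X.dd i) ∈ X.In ∨ f (X.dd i) ∈ X.NS :=
  or_iff_not_imp_right.2 fun k => X.mem_In.2 ⟨{f (X.dd i)}, singleton_subset_iff.2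
    (mem_sdiff.2 ⟨(X.bd i).1, k⟩), conn_single _, mem_singleton_self _, i, h, mem_singleton_self _⟩

lemma inb (h1 : f c ∈ X.In) (h2 : f (ρ c) ∉ X.U) : ∃ i < X.m, X.dd i = c := by
  obtain ⟨J, k1, k2, k3, i, k4, k5⟩ := X.mem_In.1 h1
  obtain ⟨k, c1, c2⟩ := X.sur c (X.In_sub h1).1 h2
  refine ⟨k, not_le.1 fun k' => ?_, c2⟩
  exact X.arc (X.seg_conn (Nat.zero_le _) le_rfl) k2 X.NS_U (k1.trans sdiff_subset)
    (subset_sdiff.1 k1).2.symm (Nat.zero_le i) k4 k' c1 (X.st ▸ X.sNS (Nat.zero_le _)) k5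
    (X.en ▸ X.sNS le_rfl) (c2 ▸ k3)

lemma In_nb (h : f c ∈ X.In) : f (ρ c) ∈ X.A ∨ f (ρ c) ∈ X.In ∨ f (ρ c) ∈ X.NS := by
  by_cases k : f (ρ c) ∈ X.U
  · exact Or.inr (or_iff_not_imp_right.2 fun k' => X.In_cl c h (mem_sdiff.2 ⟨k, k'⟩))
  · obtain ⟨i, k1, rfl⟩ := X.inb h k
    exact Or.inl (X.fA i k1.le)

/-- Inner vertices. -/
def Inn (u : V D) : Prop := Tch X.In u ∨ ∃ i < X.m, v (α (X.dd i)) = u

lemma inn_f (h : X.Inn (v c)) : f c ∈ X.A ∨ f c ∈ X.In ∨ f c ∈ X.NS := by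
  rcases h with ⟨c', k1, k2⟩ | ⟨i, k1, k2⟩
  · rcases (v_eq _ _).1 k1 with rfl | rfl | rfl
    · exact Or.inr (Or.inl k2)
    · exact X.In_nb k2
    · have := X.In_nb (c := α (ρ (ρ c'))) (by rwa [fα, ρ3])
      rwa [fρα] at this
  · rw [← vφ] at k2
    rcases (v_eq _ _).1 k2 with rfl | rfl | rfl
    · rw [fφ]
      exact Or.inr (X.N_sub k1.le)
    · rcases X.nx i with k | k <;> rw [← k]
      exacts [Or.inl (X.fA _ k1), Or.inr (X.N_sub k1)]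
    · rw [fρφ]
      exact Or.inl (X.fA i k1.le)

lemma ia (h : X.Inn (v c)) (h' : f c ∈ X.A) : ∃ i < X.m, v (α (X.dd i)) = v c := by
  rcases h with ⟨c', k1, k2⟩ | k
  · rcases (v_eq _ _).1 k1 with rfl | rfl | rfl
    · exact absurd (X.In_sub k2).1 (X.h.AU h')
    · obtain ⟨_ | i, m1, rfl⟩ := X.inb k2 (X.h.AU h')
      · exact absurd (X.st ▸ X.sNS (Nat.zero_le _)) (X.In_sub k2).2
      · exact ⟨i, by omega, by rw [← X.vnx, vρ]⟩
    · obtain ⟨i, m1, m2⟩ := X.inb (c := α (ρ (ρ c'))) (by rwa [fα, ρ3])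
        (by rw [fρα]; exact X.h.AU h')
      exact ⟨i, m1, by rw [m2, αα]⟩
  · exact k

lemma uq1 (h : v (X.dd i) = v (X.dd j)) : X.dd i = X.dd j :=
  uniqB (X.bd i).1 (X.bd i).2 (X.bd j).1 (X.bd j).2 h

lemma uq2 (h1 : f c ∉ X.U) (h2 : f (ρ c) ∈ X.U) (h : v (α (X.dd i)) = v c) : α (X.dd i) = c :=
  uniqB (S := X.Uᶜ) (by simpa using (X.bd i).2) (by rw [fρα]; simpa using (X.bd i).1)
    (mem_compl.2 h1) (by simpa using h2) h

lemma n0 : ¬X.Inn (v (X.dd 0)) := fun h => by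
  obtain ⟨i, k1, k2⟩ := X.ia (c := ρ (X.dd 0)) (by rwa [vρ]) (X.fA 0 (Nat.zero_le _))
  have := X.mL
  have := X.inj _ _ (by omega) (by omega) (X.uq1 ((X.vnx i).trans (k2.trans (vρ _))))
  omega

lemma nm : ¬X.Inn (v (α (X.dd X.m))) := fun h => by
  obtain ⟨i, k1, k2⟩ := X.ia h (by rw [fα]; exact X.fA _ le_rfl)
  have := X.mL
  have := X.inj _ _ (by omega) (by omega) (X.uq1 ((X.vnx i).trans (k2.trans (X.vnx X.m).symm)))
  omega

/-- Leaving the inner vertices. -/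
lemma step (h1 : X.Inn (v c)) (h2 : InE X.U c) : X.Inn (v (α c)) ∨
    (f c ∈ X.NS ∧ f (ρ c) ∈ X.NS) ∨ c = α (X.dd 0) ∨ c = X.dd X.m := by
  by_cases k : InE X.In c
  · exact Or.inl (Or.inl k.tch')
  have a1 := (X.inn_f h1).imp_right fun m => m.resolve_left fun m => k (Or.inl m)
  have a2 := (X.inn_f (c := ρ c) (by rwa [vρ])).imp_right
    fun m => m.resolve_left fun m => k (Or.inr m)
  rcases a1 with a1 | a1
  · obtain ⟨i, m1, m2⟩ := X.ia h1 a1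
    obtain rfl := X.uq2 (X.h.AU a1) (h2.resolve_left (X.h.AU a1)) m2
    rcases i with _ | i
    · exact Or.inr (Or.inr (Or.inl rfl))
    · exact Or.inl (Or.inr ⟨i, by omega, by rw [αα, X.vnx]⟩)
  rcases a2 with a2 | a2
  · obtain ⟨i, m1, m2⟩ := X.ia (c := ρ c) (by rwa [vρ]) a2
    obtain rfl := uniqB (X.bd (i + 1)).1 (X.bd (i + 1)).2 (X.NS_U a1) (X.h.AU a2)
      ((X.vnx i).trans (m2.trans (vρ c)))
    rcases (Nat.succ_le_of_lt m1).lt_or_eq with m3 | m3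
    · exact Or.inl (Or.inr ⟨_, m3, rfl⟩)
    · exact Or.inr (Or.inr (Or.inr (congrArg X.dd m3)))
  · exact Or.inr (Or.inl ⟨a1, a2⟩)

/-- Every edge of the path has exactly one inner end. -/
lemma eps (h : l < X.r) : X.Inn (v (X.ε l)) ∧ ¬X.Inn (v (α (X.ε l))) := by
  have sub := X.seg_NS (i := 0) h.le
  have key : ∀ c, f c ∈ X.seg 0 l → f (ρ c) ∉ X.seg 0 l → f (ρ c) ∈ X.NS → c = X.ε l := by
    intro c k1 k2 k3
    obtain ⟨n, m1, m2⟩ := X.fd (sub k1) k3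
    obtain ⟨n', -, m3, m4⟩ := X.mem_seg.1 k1
    rcases m2 with rfl | rfl
    · rw [(X.ad n m1).1] at m4
      obtain rfl := X.s_inj (by omega) m1.le m4
      rw [(X.ad _ m1).2] at k2
      rw [m3.eq_or_lt.resolve_right fun k => k2 (X.seg_mem (Nat.zero_le _) k)]
    · rw [fα, (X.ad n m1).2] at m4
      have := X.s_inj (by omega) m1 m4
      rw [fρα, (X.ad n m1).1] at k2
      exact absurd (X.seg_mem (Nat.zero_le _) (by omega)) k2
  have hm : 0 < X.m := Nat.pos_of_ne_zero fun k => (X.ind 0 X.r (by omega) le_rfl).1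
    (by rw [X.st, X.en, k])
  have nA : ∀ i ≤ X.m, f (ρ (X.dd i)) ∉ X.seg 0 l := fun i hi k => (X.bd i).2 (X.NS_U (sub k))
  obtain ⟨c, ⟨⟨k1, k2⟩, k3⟩, k4⟩ := exists_of_cnt (cnt_cancel (bal (X.seg 0 l) X.Inn).symm)
    (d := X.dd 0) ⟨⟨⟨X.st ▸ X.seg_mem le_rfl (Nat.zero_le _), nA 0 hm.le⟩, Or.inr ⟨0, hm, rfl⟩⟩,
      fun k => X.n0 k.2⟩
  have k5 : ¬X.Inn (v (α c)) := fun k => k4 ⟨⟨k1, k2⟩, k⟩
  rcases (X.step k3 (Or.inl (X.NS_U (sub k1)))).resolve_left k5 with k | rfl | rfl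
  · rw [← key c k1 k2 k.2]
    exact ⟨k3, k5⟩
  · exact absurd (by rwa [fα] at k1) (nA 0 hm.le)
  · obtain ⟨n, -, m1, m2⟩ := X.mem_seg.1 k1
    have := X.s_inj (by omega) le_rfl (m2.trans X.en.symm)
    omega

/-- Position of a pocket relative to the path. -/
lemma arc2 {J : Finset (F D)} (h1 : J ⊆ X.U \ X.NS) (h2 : Conn J) (h3 : i ≤ X.m)
    (h4 : f (X.dd i) ∈ J) (h5 : l ≤ X.r) (h6 : Ad J {X.s l}) (h7 : j ≤ X.r) (h8 : k ≤ X.m)
    (h9 : f (X.dd k) = X.s j) : (l < j → i < k) ∧ (j < l → k < i) := by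
  have mL := X.mL
  have dj : ∀ a a', a' ≤ X.r → Disjoint J (X.seg a a') := fun a a' h =>
    (subset_sdiff.1 h1).2.mono_right (X.seg_NS h)
  have JU : J ⊆ X.U := h1.trans sdiff_subset
  refine ⟨fun a => not_le.1 fun a' => ?_, fun a => not_le.1 fun a' => ?_⟩
  · exact X.arc (conn_union h2 (X.seg_conn (Nat.zero_le l) h5) (Or.inl (h6.mono Subset.rfl
      (singleton_subset_iff.2 (X.seg_mem (Nat.zero_le _) le_rfl))))) (X.seg_conn h7 le_rfl)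
      (union_subset JU (X.seg_U h5)) (X.seg_U le_rfl)
      (disjoint_union_left.2 ⟨dj _ _ le_rfl, X.seg_disj a le_rfl h5⟩) (Nat.zero_le k) a' h3
      (by omega) (mem_union_right _ (X.st ▸ X.seg_mem le_rfl (Nat.zero_le _)))
      (h9 ▸ X.seg_mem le_rfl h7) (mem_union_left _ h4) (X.en ▸ X.seg_mem h7 le_rfl)
  · exact X.arc (X.seg_conn (Nat.zero_le j) h7) (conn_union h2 (X.seg_conn h5 le_rfl)
      (Or.inl (h6.mono Subset.rfl (singleton_subset_iff.2 (X.seg_mem le_rfl h5)))))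
      (X.seg_U h7) (union_subset JU (X.seg_U le_rfl))
      (disjoint_union_right.2 ⟨(dj _ _ h7).symm, X.seg_disj a le_rfl h7⟩) (Nat.zero_le i) a' h8
      (by omega) (X.st ▸ X.seg_mem le_rfl (Nat.zero_le _)) (mem_union_left _ h4)
      (h9 ▸ X.seg_mem (Nat.zero_le _) le_rfl) (mem_union_right _ (X.en ▸ X.seg_mem h5 le_rfl))

lemma djB : Disjoint {X.s X.r} X.B := disjoint_singleton_left.2 fun k => X.h.BU k (X.sU le_rfl)

lemma cR : Conn ({X.s X.r} ∪ X.B)ᶜ := by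
  have sub : X.A ⊆ ({X.s X.r} ∪ X.B)ᶜ := fun g hg => by
    simp only [mem_compl, mem_union, mem_singleton, not_or]
    exact ⟨fun k => X.h.AU hg (k ▸ X.sU le_rfl), X.h.AB hg⟩
  refine conn_of_core X.h.cA sub fun Z z1 ⟨g, z2⟩ z3 => ?_
  have z4 := z1 z2
  simp only [mem_compl, mem_union, mem_singleton, not_or] at z4
  by_cases k : g ∈ X.U
  · obtain ⟨K, k1, k2, k3, k4⟩ := X.irr _ (X.sU le_rfl)
      ⟨_, mem_singleton.2 X.en.symm, X.fA _ le_rfl⟩ ⟨_, mem_singleton.2 X.x1, X.fB⟩ g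
      (mem_erase.2 ⟨z4.1, k⟩)
    refine ⟨_, X.fA 0 (Nat.zero_le _), z3 _ (k2.sub (fun y hy => ?_) z3 k3 z2 k4)
      (sub (X.fA 0 (Nat.zero_le _)))⟩
    simp only [mem_compl, mem_union, mem_singleton, not_or]
    exact ⟨(mem_erase.1 (k1 hy)).1, fun m => X.h.BU m (mem_erase.1 (k1 hy)).2⟩
  · exact ⟨g, (X.h.or k).resolve_right z4.2, z2⟩

lemma pat1 (h1 : f c = X.s X.r) (h2 : f (ρ c) ∈ X.B) (h3 : f (ρ (ρ c)) ∉ X.B) :
    c = X.dd (X.m + 1) :=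
  tri1 X.djB (conn_single _) X.h.cB X.cR (mem_singleton.2 h1) h2 (by
    rw [mem_union, mem_singleton, ← h1]; exact fun k => k.elim (s0' c) h3)
    (mem_singleton.2 X.x1) X.fB (by
      rw [mem_union, mem_singleton, ← X.x1]; exact fun k => k.elim (s0' _) (X.h.AB X.x2))

lemma pat2 : ∃ t, (f t ∈ X.B ∧ f (ρ t) = X.s X.r ∧ f (ρ (ρ t)) ∉ X.B) ∧
    ∀ c, f c ∈ X.B → f (ρ c) = X.s X.r → f (ρ (ρ c)) ∉ X.B → c = t := by
  obtain ⟨t, k1, k2, k3⟩ := par' X.djB (mem_singleton.2 X.x1) X.fB (by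
    rw [mem_union, mem_singleton, ← X.x1]; exact fun k => k.elim (s0' _) (X.h.AB X.x2))
  refine ⟨t, ⟨k1, mem_singleton.1 k2, fun k => k3 (mem_union_right _ k)⟩, fun c h1 h2 h3 =>
    tri1 X.djB.symm X.h.cB (conn_single _) (union_comm X.B _ ▸ X.cR) h1 (mem_singleton.2 h2) ?_
      k1 k2 (union_comm X.B _ ▸ k3)⟩
  rw [mem_union, mem_singleton, ← h2]
  exact fun k => k.elim h3 (s0 _)

end Fan

end CM

end Pool.Agent.MP_42ec7b_co

end MrgPart3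

-- ======== part 4: formerly Pool.Agent.MP_42ec7b_co.T4
section MrgPart4

/-!
The first colouring of a fan and the blue blocks that meet the path.
-/

set_option autoImplicit false

open Finset

namespace Pool.Agent.MP_42ec7b_co

open Classical

namespace CM

variable {D : Type} [CM D]

/-- A function of vertices that is constant along the edges of a connected set of faces. -/
lemma tch_const {S : Finset (F D)} (hS : Conn S) (P : V D → Prop)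
    (hP : ∀ c, f c ∈ S → P (v c) → P (v (α c))) {c c' : D} (h1 : f c ∈ S) (h2 : f c' ∈ S)
    (h : P (v c)) : P (v c') := by
  have key : ∀ c c', f c ∈ S → P (v c) → f c' = f c → P (v c') := fun c c' k1 k2 k3 =>
    face_ind (Q := fun c => P (v c)) k2 (fun d k4 k5 => by rw [vφ]; exact hP d (k4 ▸ k1) k5) k3
  exact (mem_filter.1 (hS (S.filter fun g => ∀ d, f d = g → P (v d)) (filter_subset _ _)
    ⟨_, mem_filter.2 ⟨h1, fun d => key c d h1 h⟩⟩ (fun d k1 k2 => mem_filter.2 ⟨k2, fun d' =>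
      key (ρ d) d' k2 (by rw [vρ]; exact (mem_filter.1 k1).2 d rfl)⟩) h2)).2 c' rfl

lemma ex1 {Y : Set (V D)} {c : D} (h1 : v c ∈ Y) (h2 : v (α c) ∉ Y) :
    ∃ d, f d = f (ρ c) ∧ v d ∈ Y ∧ v (α d) ∉ Y :=
  exists_of_cnt (balf (f (ρ c)) Y).symm ⟨rfl, h1, h2⟩

lemma ex2 {Y : Set (V D)} {c : D} (h1 : v c ∈ Y) (h2 : v (α c) ∉ Y) :
    ∃ d, f (ρ d) = f c ∧ v d ∈ Y ∧ v (α d) ∉ Y :=
  exists_of_cnt (balf (f c) Y) ⟨rfl, h1, h2⟩

namespace Fan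

variable (X : Fan D) {c a b : D} {g : F D} {u : V D} {i j k l n : ℕ} {S : Finset (F D)}

/-- The faces outside the fan. -/
noncomputable def O : Finset (F D) := (X.U \ X.NS) \ X.In

lemma mem_O : g ∈ X.O ↔ g ∈ X.U ∧ g ∉ X.NS ∧ g ∉ X.In := by simp only [O, mem_sdiff, and_assoc]

lemma O_U : X.O ⊆ X.U := fun _ h => (X.mem_O.1 h).1

lemma not_inn (h : Tch X.O u) : ¬X.Inn u := fun k => by
  obtain ⟨c, rfl, h⟩ := h
  obtain ⟨h1, h2, h3⟩ := X.mem_O.1 h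
  exact (X.inn_f k).elim (fun m => X.h.AU m h1) fun m => m.elim h3 h2

lemma cA1 : Conn (X.A ∪ X.In) :=
  conn_of_core X.h.cA subset_union_left fun Z z1 ⟨g, z2⟩ z3 =>
    (mem_union.1 (z1 z2)).elim (fun k => ⟨g, k, z2⟩) fun k => by
      obtain ⟨J, k1, k2, k3, i, k4, k5⟩ := X.mem_In.1 k
      exact ⟨_, X.fA i k4, z3 _ (k2.sub (fun y hy => mem_union_right _
        (X.mem_In.2 ⟨J, k1, k2, hy, i, k4, k5⟩)) z3 k3 z2 k5) (mem_union_left _ (X.fA i k4))⟩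

/-- The first colouring. -/
structure St (S : Finset (F D)) : Prop where
  sA : X.A ⊆ S
  sI : X.In ⊆ S
  sB : ∀ {g}, g ∈ X.B → g ∉ S
  sP : ∀ {g}, g ∈ X.NS → g ∉ S
  cS : Conn S
  cT : Conn Sᶜ
  good : Good X.O S
  tb : ∀ c, f c ∈ X.B → f (ρ c) = X.s X.r → f (ρ (ρ c)) ∉ X.B → BV S (v c)

lemma stage1 (ih : IH D #X.U) : ∃ S, X.St S := by
  obtain ⟨t, ⟨t1, t2, t3⟩, t4⟩ := X.pat2
  have cB : Conn (X.B ∪ X.NS) := conn_union X.h.cB (X.seg_conn (Nat.zero_le _) le_rfl)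
    (Or.inl (Ad.symm ⟨_, X.x1 ▸ X.sNS le_rfl, X.fB⟩))
  have hI : Inst (X.A ∪ X.In) (X.B ∪ X.NS) X.O := ⟨fun g => by
    have := X.h.part g
    have := @X.In_sub _ _ g
    have : g ∈ X.NS → g ∈ X.U := fun k => X.NS_U k
    simp only [mem_union, mem_O]
    tauto, X.cA1, cB, X.h.ad.mono subset_union_left subset_union_left⟩
  obtain ⟨S, s⟩ := ih _ _ X.O (fun e => e = ρ (ρ t) ∧ f e ∈ X.O) (card_lt_card ⟨X.O_U, fun k =>
    (X.mem_O.1 (k (X.sU le_rfl))).2.1 (X.sNS le_rfl)⟩) hI ⟨by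
      rintro _ ⟨rfl, he⟩
      obtain ⟨J, k1, k2, k3, k4⟩ := exists_comp he
      refine ⟨J, k1, k3, k2, Or.inr ⟨mem_union_left _ (by rwa [ρ3]), by_contra fun k => ?_⟩⟩
      have dj : Disjoint J X.B := disjoint_left.2 fun g m1 m2 => X.h.BU m2 (X.O_U (k1 m1))
      obtain ⟨c, m1, m2, m3⟩ := par' dj k2 (by rwa [ρ3]) (by
        rw [ρ3, t2, mem_union]
        exact fun m => m.elim (fun m => (X.mem_O.1 (k1 m)).2.1 (X.sNS le_rfl))
          fun m => X.h.BU m (X.sU le_rfl))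
      rw [mem_union, not_or] at m3
      have m4 : f (ρ (ρ c)) ∈ X.NS := (mem_union.1 ((hI.or fun m => m3.1 (k4 _ m2 m)).resolve_left
        fun m => k ⟨_, m2, m⟩)).resolve_left m3.2
      have m5 := X.pat1 (X.f1 m4 (by rwa [ρ3])) (by rwa [ρ3])
        (by rw [ρ3]; exact disjoint_left.1 dj m2)
      have m6 := X.x2
      rw [← m5, ρ3] at m6
      exact X.h.AU m6 (X.O_U (k1 m2)), fun e e' _ a a' _ _ _ _ => a.1.trans a'.1.symm⟩
  have sB : ∀ {g}, g ∈ X.B → g ∉ S := fun k => mem_compl.1 (s.sB (mem_union_left _ k))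
  refine ⟨S, subset_union_left.trans s.sA, subset_union_right.trans s.sA, sB,
    fun k => mem_compl.1 (s.sB (mem_union_right _ k)), s.cS, s.cT, s.good, fun c h1 h2 h3 => ?_⟩
  obtain rfl := t4 c h1 h2 h3
  by_cases k : f (ρ (ρ c)) ∈ X.O
  · simpa using bv_of (vρ (ρ (ρ c))).symm (s.pre _ ⟨rfl, k⟩)
  · refine bv_of (c' := ρ (ρ c)) (by simp) fun m => sB h1 (m.2 (s.sA ((hI.or k).resolve_right
      fun m => ?_)))
    have m1 := (mem_union.1 m).resolve_left h3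
    exact s0 _ ((X.f1 m1 (by rwa [ρ3])).trans h2.symm)

/-- The outer end of an edge of the path. -/
def out (l : ℕ) : V D := v (α (X.ε l))

/-- One step inside a block. -/
def Rl (S : Finset (F D)) (u u' : V D) : Prop :=
  ∃ c, v c = u ∧ v (α c) = u' ∧ InE X.O c ∧ ¬BV S u ∧ ¬BV S u'

/-- The outer end is one-coloured. -/
def Bad (S : Finset (F D)) (l : ℕ) : Prop := l < X.r ∧ ¬BV S (X.out l)

/-- The block of an outer end. -/
def Yb (S : Finset (F D)) (l : ℕ) : Set (V D) := {u | Relation.ReflTransGen (X.Rl S) (X.out l) u}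

/-- The frame of a block. -/
structure Fr (S : Finset (F D)) (l i j : ℕ) (a b : D) : Prop where
  il : i ≤ l
  lj : l < j
  jr : j ≤ X.r
  iv : ∀ n < X.r, X.out n ∈ X.Yb S l ↔ i ≤ n ∧ n < j
  va : v a ∈ X.Yb S l
  vb : v b ∈ X.Yb S l
  ba : BV S (v (α a))
  bb : BV S (v (α b))
  fa : f a = X.s i
  ab : f (ρ a) = f b
  fb : f (ρ b) = X.s j
  ob : f b ∈ X.O
  ex : ∀ c, v c ∈ X.Yb S l → v (α c) ∉ X.Yb S l →
    c = a ∨ c = b ∨ ∃ n, i ≤ n ∧ n < j ∧ c = α (X.ε n)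
  nB : ∀ c, v c ∈ X.Yb S l → f c ∉ X.B

variable {X}

lemma y_self : X.out l ∈ X.Yb S l := Relation.ReflTransGen.refl

lemma y_eq (h : u ∈ X.Yb S l) (h' : u ∈ X.Yb S n) : X.Yb S l = X.Yb S n := by
  have sy : Std.Symm (X.Rl S) := ⟨by
    rintro _ _ ⟨c, rfl, rfl, k1, k2, k3⟩
    exact ⟨α c, rfl, by rw [αα], k1.symm, k3, k2⟩⟩
  exact Set.ext fun w => ⟨fun k => (h'.trans (symm h)).trans k, fun k => (h.trans (symm h')).trans k⟩

lemma Bad.mono (h : X.Bad S l) (k : u ∈ X.Yb S l) : ¬BV S u := by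
  induction k with
  | refl => exact h.2
  | tail _ k _ => exact k.choose_spec.2.2.2.2

lemma Bad.cl (h : X.Bad S l) (h1 : v c ∈ X.Yb S l) (h2 : InE X.O c) (h3 : v (α c) ∉ X.Yb S l) :
    BV S (v (α c)) :=
  by_contra fun k => h3 (h1.tail ⟨c, rfl, rfl, h2, h.mono h1, k⟩)

namespace St

variable (s : X.St S)

include s

lemma nbv (h : f c ∈ X.NS ∧ f (ρ c) ∈ X.B ∨ f c ∈ X.B ∧ f (ρ c) ∈ X.NS)
    (h3 : f (ρ (ρ c)) ∉ X.B) : BV S (v c) := by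
  rcases h with h | h
  · obtain rfl := X.pat1 (X.f1 h.1 h.2) h.2 h3
    exact bv_of (c' := ρ (ρ _)) (by simp) fun k => s.sP h.1 (k.2 (s.sA X.x2))
  · refine s.tb c h.1 ?_ h3
    simpa using X.f1 (c := α c) (by rw [fα]; exact h.2) (by rw [fρα]; exact h.1)

lemma blue (h : X.Bad S l) (k : v c ∈ X.Yb S l) : f c ∉ S := by
  have key : ∀ u ∈ X.Yb S l, ∀ c, v c = u → f c ∉ S := fun u hu => by
    induction hu with
    | refl => exact fun c hc k => s.sP (X.sNS h.1) (by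
        rw [← (X.ad l h.1).2, ← fα]; exact (mono_iff (hc ▸ h.2) hc).1 k)
    | tail _ k ih =>
      obtain ⟨d, k1, k2, -, -, k3⟩ := k
      exact fun c hc k => ih (ρ d) (by rw [vρ, k1]) (by
        rw [← fα]; exact (mono_iff (hc ▸ k3) (hc.trans k2.symm)).1 k)
  exact key _ k c rfl

lemma tch (h : X.Bad S l) (k : u ∈ X.Yb S l) : Tch X.O u := by
  induction k with
  | refl =>
    have e1 : f (ρ (α (X.ε l))) = X.s l := by rw [fρα, (X.ad l h.1).1]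
    have e2 := s.blue h (c := ρ (ρ (α (X.ε l)))) (by rw [vρ, vρ]; exact y_self)
    refine ⟨ρ (ρ (α (X.ε l))), by simp [out], X.mem_O.2 ⟨by_contra fun k => ?_,
      X.no3 (by rw [fα, (X.ad l h.1).2]; exact X.sNS h.1) (e1 ▸ X.sNS h.1.le),
      fun k => e2 (s.sI k)⟩⟩
    exact h.1.ne (X.s_inj h.1.le le_rfl (e1 ▸ X.f1 (e1 ▸ X.sNS h.1.le)
      ((X.h.or k).resolve_left fun k => e2 (s.sA k))))
  | tail _ k _ =>
    obtain ⟨d, -, rfl, k2, -⟩ := k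
    exact k2.tch'

lemma cnt2 (h : X.Bad S l) : cnt (fun c => v c ∈ X.Yb S l ∧ InE X.O c ∧ v (α c) ∉ X.Yb S l) ≤ 2 := by
  obtain ⟨Y, y1, y2⟩ := (s.good _ (s.tch h y_self) h.2).resolve_left fun k =>
    (X.mem_O.1 (k _ rfl).1).2.1 (by rw [fα, (X.ad l h.1).2]; exact X.sNS h.1)
  have sub : ∀ u ∈ X.Yb S l, u ∈ Y := fun u hu => by
    induction hu with
    | refl => exact y1
    | tail _ k ih =>
      obtain ⟨d, rfl, rfl, k2, -, k3⟩ := k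
      exact by_contra fun k => k3 (y2.2.1 d ih k2 k)
  exact (cnt_mono fun c k => ⟨sub _ k.1, k.2.1, fun m => (y2.1 _ m).2 (h.cl k.1 k.2.1 k.2.2)⟩).trans
    y2.2.2

lemma side (h : X.Bad S l) (k : v c ∈ X.Yb S l) : f c ∈ X.O ∨ f c ∈ X.NS ∨ f c ∈ X.B := by
  have k1 := s.blue h k
  by_cases k2 : f c ∈ X.U
  · by_cases k3 : f c ∈ X.NS
    exacts [Or.inr (Or.inl k3), Or.inl (X.mem_O.2 ⟨k2, k3, fun m => k1 (s.sI m)⟩)]
  · exact Or.inr (Or.inr ((X.h.or k2).resolve_left fun m => k1 (s.sA m)))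

lemma types (h : X.Bad S l) (k : v c ∈ X.Yb S l) : InE X.O c ∨
    (∃ n < X.r, X.out n ∈ X.Yb S l ∧ c = α (X.ε n)) ∨ f c ∈ X.B ∧ f (ρ c) ∈ X.B := by
  refine or_iff_not_imp_left.2 fun k0 => ?_
  have a1 := (s.side h k).resolve_left fun m => k0 (Or.inl m)
  have a2 := (s.side h (c := ρ c) (by rwa [vρ])).resolve_left fun m => k0 (Or.inr m)
  have a3 : f (ρ (ρ c)) ∉ X.B := fun m => X.h.BU m (X.O_U (((tch_iff.1 (s.tch h k)).resolve_left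
    fun m => k0 (Or.inl m)).resolve_left fun m => k0 (Or.inr m)))
  rcases a1 with a1 | a1 <;> rcases a2 with a2 | a2
  · obtain ⟨n, m1, rfl | rfl⟩ := X.fd a1 a2
    · exact absurd (X.eps m1).1 (X.not_inn (s.tch h k))
    · exact Or.inl ⟨n, m1, k, rfl⟩
  · exact absurd (s.nbv (Or.inl ⟨a1, a2⟩) a3) (h.mono k)
  · exact absurd (s.nbv (Or.inr ⟨a1, a2⟩) a3) (h.mono k)
  · exact Or.inr ⟨a1, a2⟩

lemma exit (h : X.Bad S l) (hn : n < X.r) : v (α (α (X.ε n))) ∉ X.Yb S l := fun k =>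
  X.not_inn (s.tch h k) (by rw [αα]; exact (X.eps hn).1)

lemma noB (h : X.Bad S l)
    (hx : ∀ c, v c ∈ X.Yb S l → v (α c) ∉ X.Yb S l → InE X.B c → f c ∈ X.B ∧ f (ρ c) ∈ X.B)
    (k : v c ∈ X.Yb S l) : f c ∉ X.B := fun hB => by
  let y0 : V D → ZMod 2 := fun u => if u ∈ X.Yb S l then 1 else 0
  let T := X.A ∪ X.In ∪ X.B
  have red : ∀ c, v c ∈ X.Yb S l → f c ∈ T → f c ∈ X.B := fun c k1 k2 =>
    (mem_union.1 k2).resolve_left fun m => s.blue h k1 (union_subset s.sA s.sI m)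
  have same : ∀ d, f d ∉ T → f (ρ d) ∈ T → y0 (v d) + y0 (v (α d)) = 0 := fun d k1 k2 => by
    have : v d ∈ X.Yb S l ↔ v (α d) ∈ X.Yb S l := by
      refine ⟨fun m => by_contra fun m' => k1 (mem_union_right _
        (hx d m m' (Or.inr (red _ (by rwa [vρ]) k2))).1), fun m => by_contra fun m' => k1 ?_⟩
      have := (hx (α d) m (by rwa [αα]) (Or.inl (red _ m (by rwa [fα])))).2
      rw [fρα] at this
      exact mem_union_right _ this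
    simp only [y0, this, z2_add_self]
  obtain ⟨y, hy⟩ := (core αα αne ed_surj ed_eq conn_v conn_f orth_f).2 euler
    (fun d : D => if InE T d then 0 else y0 (v d) + y0 (v (α d))) (fun d => by
      rw [αα, add_comm]
      exact if_congr ⟨fun m => by simpa using m.symm, InE.symm⟩ rfl rfl) fun x => by
      by_cases m : x ∈ T
      · exact sum_eq_zero fun d hd => if_pos (Or.inl ((mem_filter.1 hd).2 ▸ m))
      · refine (sum_congr rfl fun d hd => ?_).trans (orth_f y0 x)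
        split_ifs with m1
        · rw [← (mem_filter.1 hd).2] at m
          exact (same d m (m1.resolve_left m)).symm
        · rfl
  have cT : Conn T := conn_union X.cA1 X.h.cB (Or.inl (X.h.ad.mono subset_union_left Subset.rfl))
  have e1 : ∀ u ∈ X.Yb S l, y u = y (X.out l) := fun u hu => by
    induction hu with
    | refl => rfl
    | tail k1 k2 ih =>
      have k3 := k1.tail k2
      obtain ⟨d, rfl, rfl, -⟩ := k2
      rw [← ih, eq_comm, ← z2_add_eq, ← hy]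
      split_ifs
      · rfl
      · simp only [y0, if_pos (show v d ∈ X.Yb S l from k1), if_pos (show _ ∈ X.Yb S l from k3),
          z2_add_self]
  have p1 : f (X.ε l) ∈ X.NS := (X.ad l h.1).1 ▸ X.sNS h.1.le
  have p2 : f (ρ (X.ε l)) ∈ X.NS := (X.ad l h.1).2 ▸ X.sNS h.1
  have nT : ∀ g ∈ X.NS, g ∉ T := fun g k1 k2 => (mem_union.1 k2).elim
    (fun m => s.sP k1 (union_subset s.sA s.sI m)) fun m => X.h.BU m (X.NS_U k1)
  have e2 : y (v (ρ (ρ (X.ε l)))) = y (v c) := tch_const cT (fun u => y u = y (v c))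
    (fun d k1 k2 => by rw [← k2, eq_comm, ← z2_add_eq, ← hy]; exact if_pos (Or.inl k1))
    (mem_union_right _ hB) (mem_union_left _ (mem_union.2 ((or_assoc.2 (X.inn_f
      (by simpa using (X.eps h.1).1))).resolve_right (X.no3 p1 p2)))) rfl
  have e3 := hy (X.ε l)
  rw [vρ, vρ, e1 _ k] at e2
  rw [if_neg fun m => m.elim (nT _ p1) (nT _ p2), e2, show v (α (X.ε l)) = X.out l from rfl,
    z2_add_self] at e3
  simp only [y0, if_pos y_self, if_neg (show v (X.ε l) ∉ _ by simpa using s.exit h h.1)] at e3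
  exact absurd e3 (by decide)

/-- Structure of a blue block that meets the path. -/
lemma frame (h : X.Bad S l) : ∃ i j a b, X.Fr S l i j a b := by
  let T := (range X.r).filter fun n => X.out n ∈ X.Yb S l
  have mT : ∀ n, n ∈ T ↔ n < X.r ∧ X.out n ∈ X.Yb S l := fun n => by
    simp only [T, mem_filter, mem_range]
  have lT := (mT l).2 ⟨h.1, y_self⟩
  obtain ⟨i, i1, i2⟩ := exists_min_image T id ⟨l, lT⟩
  obtain ⟨j, j1, j2⟩ := exists_max_image T id ⟨l, lT⟩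
  simp only [id] at i2 j2
  rw [mT] at i1 j1
  have NO : ∀ n ≤ X.r, X.s n ∉ X.O := fun n k1 k2 => (X.mem_O.1 k2).2.1 (X.sNS k1)
  have NB : ∀ n ≤ X.r, X.s n ∉ X.B := fun n k1 k2 => X.h.BU k2 (X.sU k1)
  obtain ⟨a, a1, a2, a3⟩ := ex1 (c := α (X.ε i)) i1.2 (s.exit h i1.1)
  obtain ⟨b, b1, b2, b3⟩ := ex2 (c := α (X.ε j)) j1.2 (s.exit h j1.1)
  rw [fρα, (X.ad i i1.1).1] at a1
  rw [fα, (X.ad j j1.1).2] at b1
  have a4 : f (ρ a) ∈ X.O := by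
    rcases s.types h a2 with k | ⟨n, k1, k2, rfl⟩ | k
    · exact k.resolve_left (a1 ▸ NO i i1.1.le)
    · rw [fα, (X.ad n k1).2] at a1
      have := X.s_inj k1 i1.1.le a1
      have := i2 n ((mT n).2 ⟨k1, k2⟩)
      omega
    · exact absurd (a1 ▸ k.1) (NB i i1.1.le)
  have b4 : f b ∈ X.O := by
    rcases s.types h b2 with k | ⟨n, k1, k2, rfl⟩ | k
    · exact k.resolve_right (b1 ▸ NO _ j1.1)
    · rw [fρα, (X.ad n k1).1] at b1
      have := X.s_inj k1.le j1.1 b1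
      have := j2 n ((mT n).2 ⟨k1, k2⟩)
      omega
    · exact absurd (b1 ▸ k.2) (NB _ j1.1)
  have two : ∀ c, v c ∈ X.Yb S l → v (α c) ∉ X.Yb S l → InE X.O c → c = a ∨ c = b := by
    intro c k1 k2 k3
    by_contra k
    rw [not_or] at k
    have := (card_le_cnt (s := {c, a, b}) fun d hd => by
      simp only [mem_insert, mem_singleton] at hd
      rcases hd with rfl | rfl | rfl
      exacts [⟨k1, k3, k2⟩, ⟨a2, Or.inr a4, a3⟩, ⟨b2, Or.inl b4, b3⟩]).trans (s.cnt2 h)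
    rw [card_eq_three.2 ⟨c, a, b, k.1, k.2, fun m => NO i i1.1.le (by rwa [← a1, m]), rfl⟩] at this
    omega
  have ab : f (ρ a) = f b := by
    obtain ⟨c, k1, k2, k3⟩ := ex1 a2 a3
    rcases two c k2 k3 (Or.inl (k1 ▸ a4)) with rfl | rfl
    exacts [absurd k1.symm (s0 c), k1.symm]
  have nB : ∀ c, v c ∈ X.Yb S l → f c ∉ X.B := fun c => s.noB h fun c k1 k2 k3 => by
    have OB : ∀ g ∈ X.O, g ∉ X.B := fun g m1 m2 => X.h.BU m2 (X.O_U m1)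
    rcases s.types h k1 with k | ⟨n, m1, -, rfl⟩ | k
    · rcases two c k1 k2 k with rfl | rfl
      · exact k3.elim (fun m => absurd (a1 ▸ m) (NB i i1.1.le)) fun m => absurd m (OB _ a4)
      · exact k3.elim (fun m => absurd m (OB _ b4)) fun m => absurd (b1 ▸ m) (NB _ j1.1)
    · rw [InE, fα, fρα, (X.ad n m1).1, (X.ad n m1).2] at k3
      exact k3.elim (fun m => absurd m (NB _ m1)) fun m => absurd m (NB _ m1.le)
    · exact k
  have ex : ∀ c, v c ∈ X.Yb S l → v (α c) ∉ X.Yb S l →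
      c = a ∨ c = b ∨ ∃ n, n ∈ T ∧ c = α (X.ε n) := fun c k1 k2 => by
    rcases s.types h k1 with k | ⟨n, m1, m2, m3⟩ | k
    exacts [(two c k1 k2 k).imp_right Or.inl, Or.inr (Or.inr ⟨n, (mT n).2 ⟨m1, m2⟩, m3⟩),
      absurd k.1 (nB c k1)]
  refine ⟨i, j + 1, a, b, i2 l lT, Nat.lt_succ_of_le (j2 l lT), j1.1, fun n hn => ⟨fun k =>
    ⟨i2 n ((mT n).2 ⟨hn, k⟩), Nat.lt_succ_of_le (j2 n ((mT n).2 ⟨hn, k⟩))⟩, fun k => ?_⟩,
    a2, b2, h.cl a2 (Or.inr a4) a3, h.cl b2 (Or.inl b4) b3, a1, ab, b1, b4, fun c k1 k2 =>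
    (ex c k1 k2).imp_right fun k => k.imp_right fun ⟨n, m1, m2⟩ =>
      ⟨n, i2 n m1, Nat.lt_succ_of_le (j2 n m1), m2⟩, nB⟩
  obtain ⟨k1, k2⟩ := k
  induction n, k1 using Nat.le_induction with
  | base => exact i1.2
  | succ n k1 ih =>
    obtain ⟨c, m1, m2, m3⟩ := ex2 (c := α (X.ε n)) (ih (by omega) (by omega)) (s.exit h (by omega))
    rw [fα, (X.ad n (by omega)).2] at m1
    rcases ex c m2 m3 with rfl | rfl | ⟨n', m4, rfl⟩
    · exact absurd (m1 ▸ a4) (NO _ hn.le)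
    · have := X.s_inj j1.1 hn.le (b1.symm.trans m1)
      omega
    · rw [mT] at m4
      rw [fρα, (X.ad n' m4.1).1] at m1
      exact X.s_inj m4.1.le hn.le m1 ▸ m4.2

end St

end Fan

end CM

end Pool.Agent.MP_42ec7b_co

end MrgPart4

-- ======== part 5: formerly Pool.Agent.MP_42ec7b_co.T5
section MrgPart5

/-!
The faces that are uncoloured again and their blue corners.
-/

set_option autoImplicit false

open Finset

namespace Pool.Agent.MP_42ec7b_co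

open Classical

namespace CM

variable {D : Type} [CM D]

namespace Fan

variable (X : Fan D) {c a b d e : D} {g : F D} {u : V D} {i j k l n : ℕ} {S : Finset (F D)}

/-- Inner vertices and vertices of the blocks. -/
def XX (S : Finset (F D)) (u : V D) : Prop := X.Inn u ∨ ∃ l, X.Bad S l ∧ u ∈ X.Yb S l

/-- The faces that are uncoloured again. -/
noncomputable def M (S : Finset (F D)) : Finset (F D) :=
  X.U.filter fun g => ∀ c, f c = g → X.XX S (v c)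

/-- The face lies after the `n`-th face of the path. -/
def Rq (S : Finset (F D)) (n : ℕ) (g : F D) : Prop :=
  (∃ J ⊆ X.U \ X.NS, Conn J ∧ g ∈ J ∧ ∃ i ≤ X.m, f (X.dd i) ∈ J ∧
    ∃ k ≤ X.m, f (X.dd k) = X.s n ∧ k < i) ∨
  ∃ l, n ≤ l ∧ X.Bad S l ∧ ∃ c, f c = g ∧ v c ∈ X.Yb S l

/-- A blue corner. -/
def Cor (S : Finset (F D)) (e : D) : Prop :=
  f e ∈ X.M S ∧ (f (ρ e) ∉ S ∧ f (ρ e) ∉ X.M S) ∧ f (ρ (ρ e)) ∉ S ∧ f (ρ (ρ e)) ∉ X.M S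

variable {X}

lemma M_U : X.M S ⊆ X.U := filter_subset _ _

lemma In_M (h : g ∈ X.In) : g ∈ X.M S :=
  mem_filter.2 ⟨(X.In_sub h).1, fun _ hc => Or.inl (Or.inl (tch_v (hc ▸ h)))⟩

lemma M_X (h : f c ∈ X.M S) : X.XX S (v c) := (mem_filter.1 h).2 c rfl

lemma tchM (h : Tch (X.M S) u) : X.XX S u := by
  obtain ⟨c, rfl, k⟩ := h
  exact M_X k

lemma nX (h : BV S u) (h' : ¬X.Inn u) : ¬X.XX S u :=
  fun k => k.elim h' fun ⟨_, k1, k2⟩ => k1.mono k2 h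

lemma Fr.ia (x : X.Fr S l i j a b) : ¬X.Inn (v (α a)) :=
  X.not_inn (tch_v (by rw [fα, x.ab]; exact x.ob))

lemma Fr.ib (x : X.Fr S l i j a b) : ¬X.Inn (v (α b)) := X.not_inn (tch_α x.ob)

lemma Fr.k1 (x : X.Fr S l i j a b) : X.s i ∉ X.M S := fun k =>
  nX x.ba x.ia (vφ a ▸ M_X (by rwa [fφ, x.fa]))

lemma Fr.k2 (x : X.Fr S l i j a b) : f b ∉ X.M S := fun k =>
  nX x.ba x.ia (M_X (by rwa [fα, x.ab]))

lemma Fr.k3 (x : X.Fr S l i j a b) : X.s j ∉ X.M S := fun k =>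
  nX x.bb x.ib (M_X (by rwa [fα, x.fb]))

lemma Fr.ij (x : X.Fr S l i j a b) : i < j := x.il.trans_lt x.lj

lemma NO (h : n ≤ X.r) : X.s n ∉ X.O := fun k => (X.mem_O.1 k).2.1 (X.sNS h)

lemma Fr.mid (x : X.Fr S l i j a b) (h1 : i < n) (h2 : n < j) (h : f c = X.s n) :
    v c ∈ X.Yb S l ∨ X.Inn (v c) := by
  have jr := x.jr
  have nr : n < X.r := by omega
  refine face_ind (Q := fun c => v c ∈ X.Yb S l ∨ X.Inn (v c)) (Or.inr (X.eps nr).1)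
    (fun c k1 k2 => ?_) (h.trans (X.ad n nr).1.symm)
  rw [(X.ad n nr).1] at k1
  rw [vφ]
  rcases k2 with k2 | k2
  · refine or_iff_not_imp_left.2 fun k3 => ?_
    rcases x.ex c k2 k3 with rfl | rfl | ⟨n', -, m, rfl⟩
    · exact absurd (X.s_inj (by omega) nr.le (x.fa.symm.trans k1)) h1.ne
    · exact absurd (k1 ▸ x.ob) (NO nr.le)
    · rw [αα]
      exact (X.eps (by omega)).1
  · rcases X.step k2 (Or.inl (k1 ▸ X.sU nr.le)) with k | k | rfl | rfl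
    · exact Or.inr k
    · obtain ⟨n', m1, rfl | rfl⟩ := X.fd k.1 k.2
      · obtain rfl := X.s_inj m1.le nr.le ((X.ad n' m1).1.symm.trans k1)
        exact Or.inl ((x.iv _ nr).2 ⟨h1.le, h2⟩)
      · exact absurd k2 (X.eps m1).2
    · exact absurd (by rw [← fα, k1]; exact X.sU nr.le) (X.bd 0).2
    · exact absurd (X.s_inj le_rfl nr.le (X.en.trans k1)) nr.ne'

lemma Fr.adj (x : X.Fr S l i j a b) (h1 : f c = X.s i ∨ f c = X.s j)
    (h2 : f (ρ c) = X.s i ∨ f (ρ c) = X.s j) : j = i + 1 := by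
  rcases h1 with h1 | h1 <;> rcases h2 with h2 | h2
  · exact absurd (h2.trans h1.symm) (s0 c)
  · exact (X.ind i j x.ij x.jr).2 c h1 h2
  · exact (X.ind i j x.ij x.jr).2 (α c) (by rwa [fα]) (by rwa [fρα])
  · exact absurd (h2.trans h1.symm) (s0 c)

namespace St

variable (s : X.St S)

include s

lemma face (h : X.Bad S l) (k : v c ∈ X.Yb S l) : f c ∈ X.O ∨ f c ∈ X.NS := by
  obtain ⟨i, j, a, b, x⟩ := s.frame h
  exact (or_assoc.2 (s.side h k)).resolve_right (x.nB c k)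

lemma xf (h : X.XX S (v c)) : f c ∈ X.A ∨ f c ∈ X.In ∨ f c ∉ S ∧ f c ∈ X.U := by
  rcases h with h | ⟨l, h1, h2⟩
  · exact (X.inn_f h).imp_right fun k => k.imp_right fun k => ⟨s.sP k, X.NS_U k⟩
  · exact Or.inr (Or.inr ⟨s.blue h1 h2, (s.face h1 h2).elim (fun k => X.O_U k) fun k => X.NS_U k⟩)

lemma ni (h : X.Bad S l) (k : u ∈ X.Yb S l) : ¬X.Inn u := X.not_inn (s.tch h k)

lemma k0 : X.s 0 ∉ X.M S := fun k =>
  nX (bv_of (vρ (X.dd 0)).symm fun m => s.sP (X.st ▸ X.sNS (Nat.zero_le _))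
    (m.2 (s.sA (X.fA 0 (Nat.zero_le _))))) X.n0 (M_X (X.st ▸ k))

lemma kr : X.s X.r ∉ X.M S := fun k =>
  nX (s.nbv (Or.inl ⟨X.x1 ▸ X.sNS le_rfl, X.fB⟩) (X.h.AB X.x2)) (X.vnx X.m ▸ X.nm) (M_X (X.x1 ▸ k))

lemma idx (h : X.Bad S l) (x : X.Fr S l i j a b) (k : v c ∈ X.Yb S l) (h1 : f c = X.s n)
    (h2 : n ≤ X.r) : i ≤ n ∧ n ≤ j := by
  by_contra hne
  have ij := x.ij
  have jr := x.jr
  obtain ⟨k', m1, m2⟩ := X.sN n h2
  refine s.blue h (c := ρ (X.dd k')) ?_ (s.sA (X.fA k' m1))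
  rw [vρ]
  refine face_ind (Q := fun c => v c ∈ X.Yb S l) k (fun c k1 k2 => ?_) (m2.trans h1.symm)
  rw [h1] at k1
  rw [vφ]
  by_contra k3
  rcases x.ex c k2 k3 with rfl | rfl | ⟨n', m3, m4, rfl⟩
  · have := X.s_inj (by omega) h2 (x.fa.symm.trans k1)
    omega
  · exact absurd (k1 ▸ x.ob) (NO h2)
  · rw [fα, (X.ad n' (by omega)).2] at k1
    have := X.s_inj (by omega) h2 k1
    omega

lemma all (h : X.Bad S l) (x : X.Fr S l i j a b) (k : v c ∈ X.Yb S l) :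
    (f c = X.s i ∨ f c = f b ∨ f c = X.s j) ∨
      ∀ c', f c' = f c → v c' ∈ X.Yb S l ∨ X.Inn (v c') := by
  have jr := x.jr
  refine or_iff_not_imp_left.2 fun hne c' hc => ?_
  rcases s.face h k with k1 | k1
  · refine Or.inl (face_ind (Q := fun c => v c ∈ X.Yb S l) k (fun d k2 k3 => ?_) hc)
    rw [vφ]
    by_contra k4
    rcases x.ex d k3 k4 with rfl | rfl | ⟨n', -, m4, rfl⟩
    · exact hne (Or.inl (k2.symm.trans x.fa))
    · exact hne (Or.inr (Or.inl k2.symm))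
    · rw [fα, (X.ad n' (by omega)).2] at k2
      exact NO (by omega) (k2 ▸ k1)
  · obtain ⟨n, m1, m2⟩ := X.mem_NS.1 k1
    obtain ⟨m3, m4⟩ := s.idx h x k m2.symm m1
    exact x.mid (m3.lt_of_ne fun m => hne (Or.inl (m ▸ m2.symm)))
      (m4.lt_of_ne fun m => hne (Or.inr (Or.inr (m ▸ m2.symm)))) (hc.trans m2.symm)

lemma fr_of (h : X.Bad S l) (x : X.Fr S l i j a b) (k : v c ∈ X.Yb S l) (h1 : f c ∉ X.M S) :
    f c = X.s i ∨ f c = f b ∨ f c = X.s j :=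
  (s.all h x k).resolve_right fun m => h1 (mem_filter.2 ⟨(s.face h k).elim (fun k => X.O_U k)
    fun k => X.NS_U k, fun c' hc => (m c' hc).symm.imp_right fun m => ⟨l, h, m⟩⟩)

lemma allM (h : X.Bad S l) (k : v c ∈ X.Yb S l) (h1 : f c ∈ X.M S) (h2 : f d = f c) :
    v d ∈ X.Yb S l ∨ X.Inn (v d) := by
  obtain ⟨i, j, a, b, x⟩ := s.frame h
  exact (s.all h x k).resolve_left (fun m => m.elim (fun m => x.k1 (m ▸ h1))
    fun m => m.elim (fun m => x.k2 (m ▸ h1)) fun m => x.k3 (m ▸ h1)) d h2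

lemma dart (h : X.Bad S l) (x : X.Fr S l i (i + 1) a b) (k : v c ∈ X.Yb S l) :
    c = a ∨ c = b ∨ c = α (X.ε i) := by
  have ex : ∀ c, v c ∈ X.Yb S l → v (α c) ∉ X.Yb S l → c = a ∨ c = b ∨ c = α (X.ε i) :=
    fun c k1 k2 => (x.ex c k1 k2).imp_right fun m => m.imp_right fun ⟨n, m1, m2, m3⟩ => by
      rw [m3, show n = i by omega]
  rcases e4' (X.Yb S l) ((cnt_le_card (s := {a, b, α (X.ε i)}) fun c m => by
    simpa using ex c m.1 m.2).trans card_le_three) with m | m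
  · exact ex c k fun k' => loop c (m k' k)
  · exact absurd (m (fun k => h.mono k x.ba) (s.exit h x.jr) ▸ by rw [αα]; exact (X.eps x.jr).1) x.ia

lemma out_bad (h : X.s n ∈ X.M S) (h1 : n ≤ X.r) : X.Bad S n ∧ f (φ (X.ε n)) = X.s n ∧
    v (φ (X.ε n)) ∈ X.Yb S n := by
  have nr : n < X.r := h1.lt_of_ne fun k => s.kr (k ▸ h)
  have e1 : f (φ (X.ε n)) = X.s n := by rw [fφ, (X.ad n nr).1]
  obtain ⟨l, k1, k2⟩ := (M_X (e1 ▸ h)).resolve_left (vφ (X.ε n) ▸ (X.eps nr).2)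
  rw [vφ] at k2 ⊢
  exact ⟨⟨nr, k1.mono k2⟩, e1, y_self⟩

lemma touch (h : g ∈ X.M S) (h1 : g ∉ S) : ∃ l c, X.Bad S l ∧ f c = g ∧ v c ∈ X.Yb S l := by
  by_cases k : g ∈ X.NS
  · obtain ⟨n, k1, rfl⟩ := X.mem_NS.1 k
    exact ⟨n, _, s.out_bad h k1⟩
  · obtain ⟨c, rfl⟩ := f_surj g
    obtain ⟨l, k1, k2⟩ := (M_X h).resolve_left
      (X.not_inn (tch_v (X.mem_O.2 ⟨M_U h, k, fun m => h1 (s.sI m)⟩)))
    exact ⟨l, c, k1, rfl, k2⟩

lemma l1 (h : X.Bad S l) (k : v c ∈ X.Yb S l) (h1 : f c ∈ X.M S) (h2 : f d = f c)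
    (h3 : f (ρ d) ∉ S) : ∃ c', f c' = f (ρ d) ∧ v c' ∈ X.Yb S l := by
  rcases s.allM h k h1 h2 with k1 | k1
  · exact ⟨ρ d, rfl, by rwa [vρ]⟩
  rcases s.allM h k h1 (d := φ d) (by rwa [fφ]) with k2 | k2
  · exact ⟨α d, fα d, by rwa [vφ] at k2⟩
  have ns : ∀ c, X.Inn (v c) → f c ∉ S → f c ∈ X.NS := fun c m1 m2 =>
    ((X.inn_f m1).resolve_left fun m => m2 (s.sA m)).resolve_left fun m => m2 (s.sI m)
  rw [vφ] at k2
  obtain ⟨n, m, rfl | rfl⟩ := X.fd (ns d k1 (h2 ▸ s.blue h k)) (ns _ (by rwa [vρ]) h3)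
  exacts [absurd k2 (X.eps m).2, absurd k1 (X.eps m).2]

lemma aS : X.A ⊆ S \ X.M S := fun _ h => mem_sdiff.2 ⟨s.sA h, fun k => X.h.AU h (M_U k)⟩

lemma bS : X.B ⊆ Sᶜ \ X.M S := fun _ h =>
  mem_sdiff.2 ⟨mem_compl.2 (s.sB h), fun k => X.h.BU h (M_U k)⟩

lemma cR2 : Conn (S \ X.M S) :=
  conn_sdiff s.cS X.h.cA X.h.nA s.aS fun d k1 k2 k3 =>
    (s.xf (c := ρ d) (by rw [vρ]; exact M_X k1)).resolve_right
      fun m => m.elim (fun m => k3 (In_M m)) fun m => m.1 k2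

lemma cB2 : Conn (Sᶜ \ X.M S) := by
  refine conn_of_core X.h.cB s.bS fun Z z1 z2 z3 => ?_
  have fz : ∀ l c c', X.Bad S l → v c ∈ X.Yb S l → v c' ∈ X.Yb S l → f c' ∈ Z → f c ∉ X.M S →
      f c ∈ Z := fun l c c' h k1 k2 k3 k4 => by
    obtain ⟨i, j, a, b, x⟩ := s.frame h
    have m1 : f a ∈ Sᶜ \ X.M S := mem_sdiff.2 ⟨mem_compl.2 (s.blue h x.va), x.fa ▸ x.k1⟩
    have m2 : f b ∈ Sᶜ \ X.M S := mem_sdiff.2 ⟨mem_compl.2 (s.blue h x.vb), x.k2⟩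
    have m3 : f (ρ b) ∈ Sᶜ \ X.M S := mem_sdiff.2 ⟨mem_compl.2
      (s.blue h (by rw [vρ]; exact x.vb)), x.fb ▸ x.k3⟩
    have e1 : X.s i ∈ Z ↔ f b ∈ Z := by
      rw [← x.fa, ← x.ab]
      exact ⟨fun m => z3 a m (x.ab ▸ m2), fun m => z3.symm a m m1⟩
    have e2 : X.s j ∈ Z ↔ f b ∈ Z := by
      rw [← x.fb]
      exact ⟨fun m => z3.symm b m m2, fun m => z3 b m m3⟩
    have e3 : ∀ c, v c ∈ X.Yb S l → f c ∉ X.M S → (f c ∈ Z ↔ f b ∈ Z) := fun c m4 m5 => by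
      rcases s.fr_of h x m4 m5 with m | m | m <;> rw [m]
      exacts [e1, e2]
    exact (e3 c k1 k4).2 ((e3 c' k2 (mem_sdiff.1 (z1 k3)).2).1 k3)
  obtain ⟨g, hg⟩ := X.h.nB
  obtain ⟨z, hz⟩ := z2
  refine ⟨g, hg, (mem_filter.1 (s.cT (Sᶜ.filter fun g => g ∈ Z ∨ g ∈ X.M S ∧ ∃ l c c', X.Bad S l ∧
    f c = g ∧ v c ∈ X.Yb S l ∧ f c' ∈ Z ∧ v c' ∈ X.Yb S l) (filter_subset _ _)
    ⟨z, mem_filter.2 ⟨(mem_sdiff.1 (z1 hz)).1, Or.inl hz⟩⟩ (fun d k1 k2 => mem_filter.2 ⟨k2, ?_⟩)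
    (mem_sdiff.1 (s.bS hg)).1)).2.resolve_right fun k => X.h.BU hg (M_U k.1)⟩
  obtain ⟨k0, k1 | ⟨k1, l, c, c', k3, k4, k5, k6, k7⟩⟩ := mem_filter.1 k1
  · by_cases k : f (ρ d) ∈ X.M S
    · obtain ⟨l, c, m1, m2, m3⟩ := s.touch k (mem_compl.1 k2)
      obtain ⟨c', m4, m5⟩ := s.l1 m1 m3 (m2 ▸ k) (d := α d) (by rw [fα, m2])
        (by rw [fρα]; exact mem_compl.1 k0)
      exact Or.inr ⟨k, l, c, c', m1, m2, m3, by rwa [m4, fρα], m5⟩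
    · exact Or.inl (z3 d k1 (mem_sdiff.2 ⟨k2, k⟩))
  · obtain ⟨c'', m4, m5⟩ := s.l1 k3 k5 (k4 ▸ k1) k4.symm (mem_compl.1 k2)
    by_cases k : f (ρ d) ∈ X.M S
    · exact Or.inr ⟨k, l, c'', c', k3, m4, m5, k6, k7⟩
    · exact Or.inl (m4 ▸ fz l c'' c' k3 m5 k7 k6 (m4 ▸ k))

lemma le_of_kept (x : X.Fr S l i j a b) (h1 : X.s n ∉ X.M S) (h : X.Bad S l) (h2 : n < j) :
    n ≤ i :=
  not_lt.1 fun k => h1 (mem_filter.2 ⟨X.sU (h2.le.trans x.jr), fun _ hc =>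
    (x.mid k h2 hc).symm.imp_right fun m => ⟨l, h, m⟩⟩)

lemma rq_cl (h1 : n ≤ X.r) (h2 : X.s n ∉ X.M S) : Cl (X.M S) ((X.M S).filter (X.Rq S n)) := by
  intro d k1 k2
  refine mem_filter.2 ⟨k2, ?_⟩
  obtain ⟨k0, ⟨J, j1, j2, j3, i, j4, j5, k, j6, j7, j8⟩ | ⟨l, j1, j2, c, j3, j4⟩⟩ := mem_filter.1 k1
  · by_cases m : f (ρ d) ∈ X.NS
    · obtain ⟨n', m1, m2⟩ := X.mem_NS.1 m
      have m3 := (X.arc2 j1 j2 j4 j5 m1 ⟨d, j3, mem_singleton.2 m2.symm⟩ h1 j6 j7).1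
      have m4 : n' ≠ n := fun m => h2 (m ▸ m2 ▸ k2)
      obtain ⟨m5, m6, m7⟩ := s.out_bad (m2 ▸ k2) m1
      exact Or.inr ⟨n', by omega, m5, _, m6.trans m2, m7⟩
    · exact Or.inl ⟨insert (f (α d)) J, insert_subset (by rw [fα]; exact mem_sdiff.2 ⟨M_U k2, m⟩)
        j1, conn_insert j2 (by rwa [fρα]), by rw [fα]; exact mem_insert_self _ _, i, j4,
        mem_insert_of_mem j5, k, j6, j7, j8⟩
  · by_cases m : f (ρ d) ∈ S
    · have m1 : f (ρ d) ∈ X.In := ((s.xf (M_X k2)).resolve_left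
        fun m => X.h.AU m (M_U k2)).resolve_right fun m' => m'.1 m
      obtain ⟨n', m2, m3⟩ := X.mem_NS.1 ((j3 ▸ s.face j2 j4).resolve_left fun m' =>
        (X.mem_O.1 m').2.2 (X.In_cl.symm d m1 (mem_sdiff.1 m').1))
      obtain ⟨i, j, a, b, x⟩ := s.frame j2
      have m4 := (s.idx j2 x j4 (j3.trans m3.symm) m2).1
      have m5 : i ≠ n' := fun m => x.k1 (m ▸ m3 ▸ k0)
      have m6 := s.le_of_kept x h2 j2 (j1.trans_lt x.lj)
      obtain ⟨J, o1, o2, o3, i', o4, o5⟩ := X.mem_In.1 m1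
      obtain ⟨k, o6, o7⟩ := X.sN n h1
      exact Or.inl ⟨J, o1, o2, o3, i', o4, o5, k, o6, o7, (X.arc2 o1 o2 o4 o5 m2
        (Ad.symm ⟨d, mem_singleton.2 m3.symm, o3⟩) h1 o6 o7).2 (by omega)⟩
    · obtain ⟨c', m1, m2⟩ := s.l1 j2 j4 (j3 ▸ k0) j3.symm m
      exact Or.inr ⟨l, j1, j2, c', m1, m2⟩

/-- Classification of the blue corners. -/
lemma cor (h : X.Cor S e) : ∃ i < X.r, X.s i ∉ X.M S ∧
    (∀ n ≤ X.r, X.s n ∉ X.M S → (X.Rq S n (f e) ↔ n ≤ i)) ∧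
    (ρ e = X.ε i ∧ X.s (i + 1) ∉ X.M S ∨ X.s (i + 1) ∈ X.M S ∧ X.Bad S i ∧ v e ∈ X.Yb S i ∧
      InE X.O (ρ e) ∧ BV S (v (α (ρ e)))) := by
  obtain ⟨h1, ⟨h2, h3⟩, h4, h5⟩ := h
  rcases M_X h1 with k | ⟨l, k1, k2⟩
  · have ns : ∀ c, v c = v e → f c ∉ S → f c ∈ X.NS := fun c m1 m2 =>
      ((X.inn_f (m1 ▸ k)).resolve_left fun m => m2 (s.sA m)).resolve_left fun m => m2 (s.sI m)
    have a1 := ns _ (vρ e) h2
    have a2 := ns (ρ (ρ e)) (by simp) h4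
    obtain ⟨i, m1, m2⟩ := X.fd a1 a2
    have m3 : ρ e = X.ε i := m2.resolve_right fun m => (X.eps m1).2 (by rwa [← m, vρ])
    have a3 : f (ρ e) = X.s i := m3 ▸ (X.ad i m1).1
    have a4 : f (ρ (ρ e)) = X.s (i + 1) := m3 ▸ (X.ad i m1).2
    have a5 : f e ∈ X.In := ((X.inn_f k).resolve_left fun m => X.h.AU m (M_U h1)).resolve_right
      (by simpa using X.no3 a1 a2)
    refine ⟨i, m1, a3 ▸ h3, fun n n1 _ => ⟨?_, fun n3 => ?_⟩, Or.inl ⟨m3, a4 ▸ h5⟩⟩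
    · rintro (⟨J, j1, j2, j3, i', j4, j5, k, j6, j7, j8⟩ | ⟨l, -, j2, c, j3, j4⟩)
      · have := (X.arc2 j1 j2 j4 j5 m1.le ⟨e, j3, mem_singleton.2 a3⟩ n1 j6 j7).1
        omega
      · exact absurd (Or.inl (tch_v (j3 ▸ a5))) (s.ni j2 j4)
    · obtain ⟨J, o1, o2, o3, i', o4, o5⟩ := X.mem_In.1 a5
      obtain ⟨k, o6, o7⟩ := X.sN n n1
      exact Or.inl ⟨J, o1, o2, o3, i', o4, o5, k, o6, o7, (X.arc2 o1 o2 o4 o5 m1
        (Ad.symm ⟨_, mem_singleton.2 a4, by rwa [ρ3]⟩) n1 o6 o7).2 (by omega)⟩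
  · obtain ⟨i, j, a, b, x⟩ := s.frame k1
    have ij := x.ij
    have jr := x.jr
    have ne : j ≠ i + 1 := by
      rintro rfl
      rcases s.dart k1 x k2 with rfl | rfl | rfl
      · exact x.k1 (x.fa ▸ h1)
      · exact x.k2 h1
      · exact x.k3 (by rwa [fα, (X.ad i jr).2] at h1)
    have oi := (x.iv i (by omega)).2 ⟨le_rfl, ij⟩
    have bi : X.Bad S i := ⟨by omega, k1.mono oi⟩
    have ye : X.Yb S i = X.Yb S l := y_eq y_self oi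
    have v1 : v (ρ e) ∈ X.Yb S l := by rwa [vρ]
    refine ⟨i, bi.1, x.k1, fun n n1 n2 => ⟨?_, fun n3 => Or.inr ⟨i, n3, bi, e, rfl, ye ▸ k2⟩⟩,
      Or.inr ⟨by_contra fun m => ?_, bi, ye ▸ k2, ?_⟩⟩
    · rintro (⟨J, j1, j2, j3, i', j4, j5, -⟩ | ⟨l', j1, j2, c, j3, j4⟩)
      · exact absurd (Or.inl (tch_v (X.mem_In.2 ⟨J, j1, j2, j3, i', j4, j5⟩))) (s.ni k1 k2)
      · have m1 := (s.allM k1 k2 h1 j3).resolve_right (s.ni j2 j4)
        have m2 := (x.iv l' j2.1).1 (y_eq j4 m1 ▸ y_self)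
        exact s.le_of_kept x n2 k1 (by omega)
    · have := s.le_of_kept x m k1 (by omega)
      omega
    · rcases s.fr_of k1 x v1 h3 with m1 | m1 | m1 <;>
        rcases s.fr_of k1 x (c := ρ (ρ e)) (by rwa [vρ]) h5 with m2 | m2 | m2
      · exact absurd (x.adj (Or.inl m1) (Or.inl m2)) ne
      · rw [s1 (m1.trans x.fa.symm) (m2.trans x.ab.symm)]
        exact ⟨Or.inr (x.ab ▸ x.ob), x.ba⟩
      · exact absurd (x.adj (Or.inl m1) (Or.inr m2)) ne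
      · rw [s1 (d := ρ e) (d' := α a) (by rw [fα, x.ab, m1]) (by rw [fρα, x.fa, m2])] at v1
        exact absurd x.ba (k1.mono v1)
      · exact absurd (m2.trans m1.symm) (s0 _)
      · rw [s1 m1 (m2.trans x.fb.symm)]
        exact ⟨Or.inl x.ob, x.bb⟩
      · exact absurd (x.adj (Or.inr m1) (Or.inl m2)) ne
      · rw [s1 (d := ρ e) (d' := α b) (by rw [fα, x.fb, m1]) (by rw [fρα, m2])] at v1
        exact absurd x.bb (k1.mono v1)
      · exact absurd (x.adj (Or.inr m1) (Or.inr m2)) ne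

lemma uniq {e' : D} {J : Finset (F D)} (h : X.Cor S e) (h' : X.Cor S e') (j1 : J ⊆ X.M S)
    (j2 : Conn J) (j3 : f e ∈ J) (j4 : f e' ∈ J) (hn : f (ρ e) ∈ X.NS ↔ f (ρ e') ∈ X.NS) :
    e = e' := by
  obtain ⟨i, a1, a2, a3, a4⟩ := s.cor h
  obtain ⟨i', b1, b2, b3, b4⟩ := s.cor h'
  have m1 := (b3 i a1.le a2).1 (mem_filter.1 (j2.sub j1 (s.rq_cl a1.le a2) j3
    (mem_filter.2 ⟨h.1, (a3 i a1.le a2).2 le_rfl⟩) j4)).2
  have m2 := (a3 i' b1.le b2).1 (mem_filter.1 (j2.sub j1 (s.rq_cl b1.le b2) j4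
    (mem_filter.2 ⟨h'.1, (b3 i' b1.le b2).2 le_rfl⟩) j3)).2
  obtain rfl := le_antisymm m1 m2
  refine ρ.injective ?_
  rcases a4 with a4 | ⟨a4, a5, a6⟩ <;> rcases b4 with b4 | ⟨b4, -, b6⟩
  · exact a4.1.trans b4.1.symm
  · exact absurd b4 a4.2
  · exact absurd a4 b4.2
  obtain ⟨i0, j, a, b, x⟩ := s.frame a5
  have key : ∀ e, v e ∈ X.Yb S i ∧ InE X.O (ρ e) ∧ BV S (v (α (ρ e))) →
      ρ e = a ∧ f (ρ e) ∈ X.NS ∨ ρ e = b ∧ f (ρ e) ∉ X.NS := fun e k => by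
    have jr := x.jr
    rcases x.ex (ρ e) (by rw [vρ]; exact k.1) (fun m => a5.mono m k.2.2) with m | m | ⟨n, -, m1, m⟩
    · exact Or.inl ⟨m, by rw [m, x.fa]; exact X.sNS (x.ij.le.trans jr)⟩
    · exact Or.inr ⟨m, by rw [m]; exact (X.mem_O.1 x.ob).2.1⟩
    · have m2 := k.2.1
      rw [m, InE, fα, fρα, (X.ad n (by omega)).1, (X.ad n (by omega)).2] at m2
      exact m2.elim (fun m => absurd m (NO (by omega))) fun m => absurd m (NO (by omega))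
  rcases key e a6 with k | k <;> rcases key e' b6 with k' | k'
  exacts [k.1.trans k'.1.symm, absurd (hn.1 k.2) k'.2, absurd (hn.2 k'.2) k.2, k.1.trans k'.1.symm]

lemma cor_b (h : X.Cor S e) (h1 : f (ρ e) ∉ X.NS) :
    BV S (v (α (ρ e))) ∧ ¬X.Inn (v (α (ρ e))) := by
  obtain ⟨i, a1, -, -, a4 | a4⟩ := s.cor h
  · exact absurd (by rw [a4.1, (X.ad i a1).1]; exact X.sNS a1.le) h1
  · exact ⟨a4.2.2.2.2, X.not_inn a4.2.2.2.1.tch'⟩

lemma one {K : Finset (F D)} (k1 : K ⊆ X.M S) (k2 : Conn K) (P : Prop) :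
    cnt (fun c => X.Cor S (ρ (ρ c)) ∧ f (ρ (ρ c)) ∈ K ∧ (f c ∈ X.NS ↔ P)) ≤ 1 :=
  cnt_le_one fun c c' m m' => ρ.injective (ρ.injective (s.uniq m.1 m'.1 k1 k2 m.2.1 m'.2.1
    (by rw [ρ3, ρ3, m.2.2, m'.2.2])))

lemma reach {K : Finset (F D)} (k1 : K ⊆ X.M S) (k2 : Conn K) (k3 : Cl (X.M S) K) (k4 : g ∈ K) :
    Ad K X.A := by
  by_contra hn
  obtain ⟨c0, rfl⟩ := f_surj g
  obtain ⟨d, d1, -⟩ := X.h.ad
  have nA : ∀ c, Tch K (v c) → f c ∉ X.A := fun c m1 m2 =>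
    hn (ad_of_tch m1 (tch_v m2) fun g m3 m4 => X.h.AU m4 (M_U (k1 m3)))
  have bl : ∀ c, Tch K (v c) → f c ∉ K → f c ∉ S ∧ f c ∉ X.M S := fun c m1 m2 => by
    have m3 : f c ∉ X.M S := fun m => m2 (m1.elim fun c' m' => k3.corner m'.1 m'.2 m)
    exact ⟨(((s.xf (tchM (m1.mono k1))).resolve_left (nA c m1)).resolve_left
      fun m => m3 (In_M m)).1, m3⟩
  have h3 := e3 (Y := {u | Tch K u}) (tch_v k4) fun m => nA d m d1
  have h1 := s.one k1 k2 True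
  have h2 := s.one k1 k2 False
  refine absurd (h3.trans ((cnt_mono fun c m => ?_).trans ((cnt_or_le _ _).trans
    (Nat.add_le_add h1 h2)))) (by omega)
  have m1 : f c ∉ K := fun k => m.2 (tch_α k)
  have m2 : f (ρ c) ∉ K := fun k => m.2 (tch_v (by rwa [fα]))
  have m3 := ((tch_iff.1 m.1).resolve_left m1).resolve_left m2
  have m4 : X.Cor S (ρ (ρ c)) := ⟨k1 m3, by rw [ρ3]; exact bl c m.1 m1,
    by rw [ρ3]; exact bl _ (by rw [vρ]; exact m.1) m2⟩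
  by_cases m5 : f c ∈ X.NS
  exacts [Or.inl ⟨m4, m3, iff_true_intro m5⟩, Or.inr ⟨m4, m3, iff_false_intro m5⟩]

end St

end Fan

end CM

end Pool.Agent.MP_42ec7b_co

end MrgPart5

-- marker of a merged file
example : 731051 + 125395 = 731051 + 125395 := rfl
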