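import Mathlib.Combinatorics.SimpleGraph.DegreeSum
import Mathlib.Combinatorics.SimpleGraph.LineGraph
import Pool.Agent.MP_42ec7b_co.T5
import Pool.Agent.MP_42ec7b_co.Top
import Pool.Agent.MP_42ec7b_co.Defs

-- ======== part 0: formerly Pool.Agent.MP_42ec7b_co.T6
section MrgPart0

/-!
The second colouring of a fan, the induction, and a disc whose boundary meets every edge.
-/

set_option autoImplicit false

open Finset

namespace Pool.Agent.MP_42ec7b_co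

open Classical

namespace CM

variable {D : Type} [CM D]

namespace Fan

variable {X : Fan D} {S S' : Finset (F D)} {u : V D}

namespace St

variable (s : X.St S) (t1 : ∀ g ∉ X.M S, g ∈ S' ↔ g ∈ S)
  (t4 : ∀ e, X.Cor S e ∧ f (ρ e) ∈ X.NS → ¬(f e ∈ S' ↔ f (ρ e) ∈ S'))

include s t1

omit s in
lemma keep (h : BV S u) (h' : ¬X.Inn u) : BV S' u :=
  (bv_congr t1 fun k => nX h h' (tchM k)).2 h

lemma aS' {g : F D} (h : g ∈ X.A) : g ∈ S' := (t1 g (mem_sdiff.1 (s.aS h)).2).2 (s.sA h)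

lemma bS' {g : F D} (h : g ∈ X.B) : g ∉ S' :=
  fun k => s.sB h ((t1 g (mem_sdiff.1 (s.bS h)).2).1 k)

include t4

lemma good1 (t5 : Good (X.M S) S') (h1 : Tch (X.M S) u) (h2 : ¬BV S' u) :
    (∀ c, v c = u → f c ∈ X.U ∧ BV S' (v (α c))) ∨ ∃ Y, u ∈ Y ∧ Blk X.U S' Y := by
  rcases t5 u h1 h2 with k | ⟨Z, z1, z2⟩
  · exact Or.inl fun c hc => ⟨M_U (k c hc).1, (k c hc).2⟩
  obtain ⟨c0, rfl, h1⟩ := h1
  have xz : ∀ c, v c ∈ Z → f c ∉ X.M S → f c ∈ X.A ∨ f c ∉ S ∧ f c ∈ X.U := fun c k1 k2 =>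
    (s.xf (tchM (z2.1 _ k1).1)).imp_right fun m => m.resolve_left fun m => k2 (In_M m)
  by_cases red : f c0 ∈ S'
  · have rd : ∀ c c', v c ∈ Z → Tch S' (v c) → v c = v c' → f c' ∈ S' :=
      fun c c' k1 ⟨d, k2, k3⟩ k4 => (mono_iff (k2 ▸ (z2.1 _ k1).2) (k2.trans k4)).1 k3
    refine Or.inr ⟨{z | z ∈ Z ∧ Tch S' z}, ⟨z1, tch_v red⟩, (z2.restrict (Tch S')
      fun c k1 k2 _ _ => tch_α (rd c c k1 k2 rfl)).transfer (fun u hu =>
        ⟨(z2.1 u hu.1).1.mono M_U, (z2.1 u hu.1).2⟩) fun c k1 k2 _ => ⟨by_contra fun k => ?_, id⟩⟩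
    have nU : ∀ c', v c = v c' → f c' ∉ X.M S → f c' ∉ X.U := fun c' m1 m2 =>
      X.h.AU ((xz c' (m1 ▸ k1.1) m2).resolve_right fun m =>
        m.1 ((t1 _ m2).1 (rd c c' k1.1 k1.2 m1)))
    exact k2.elim (nU c rfl fun m => k (Or.inl m)) (nU _ (vρ c).symm fun m => k (Or.inr m))
  obtain ⟨K, k1, k2, k3, k4⟩ := exists_comp h1
  have bl : ∀ c c', v c ∈ Z → Tch S'ᶜ (v c) → v c = v c' → f c' ∉ S' :=
    fun c c' k1 ⟨d, k2, k3⟩ k4 k5 => mem_compl.1 k3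
      ((mono_iff (k2 ▸ (z2.1 _ k1).2) (k2.trans k4)).2 k5)
  have ck : ∀ c c', Tch K (v c) → v c = v c' → f c' ∈ X.M S → f c' ∈ K :=
    fun c c' ⟨d, m1, m2⟩ m3 m4 => k4.corner (m1.trans m3) m2 m4
  have z3 := z2.restrict (fun z => Tch K z ∧ Tch S'ᶜ z) fun c m1 m2 m3 _ =>
    ⟨InE.tch' (m3.imp (ck c c m2.1 rfl) (ck c _ m2.1 (vρ c).symm)),
      tch_α (mem_compl.2 (bl c c m1 m2.2 rfl))⟩
  set Z' := {z | z ∈ Z ∧ Tch K z ∧ Tch S'ᶜ z}
  have cr : ∀ c, v c ∈ Z' → ¬InE (X.M S) c →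
      X.Cor S (ρ (ρ c)) ∧ f (ρ (ρ c)) ∈ K ∧ (f c ∈ X.NS ↔ False) := fun c m1 m2 => by
    rw [InE, not_or] at m2
    have m3 := ((tch_iff.1 m1.2.1).resolve_left fun m => m2.1 (k1 m)).resolve_left
      fun m => m2.2 (k1 m)
    have m4 : X.Cor S (ρ (ρ c)) := ⟨k1 m3, by
      rw [ρ3]; exact ⟨fun m => bl c c m1.1 m1.2.2 rfl ((t1 _ m2.1).2 m), m2.1⟩, by
      rw [ρ3]; exact ⟨fun m => bl c _ m1.1 m1.2.2 (vρ c).symm ((t1 _ m2.2).2 m), m2.2⟩⟩
    exact ⟨m4, m3, iff_false_intro fun m => (z2.1 _ m1.1).2 (by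
      simpa using bv_of (vρ (ρ (ρ c))).symm (t4 _ ⟨m4, by rwa [ρ3]⟩))⟩
  have u1 : v c0 ∈ Z' := ⟨z1, tch_v k2, tch_v (mem_compl.2 red)⟩
  rcases e4' Z' ((cnt_mono fun c m => (Classical.em (InE (X.M S) c)).imp (fun m1 => ⟨m.1, m1, m.2⟩)
    (cr c m.1)).trans ((cnt_or_le _ _).trans (Nat.add_le_add z3.2.2 (s.one k1 k3 False))))
    with m | m
  · refine Or.inl fun c hc => ⟨?_, ?_⟩
    · by_cases m1 : f c ∈ X.M S
      · exact M_U m1
      · exact ((xz c (hc ▸ z1) m1).resolve_left fun m2 =>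
          bl c0 c z1 u1.2.2 hc.symm (s.aS' t1 m2)).2
    · by_cases m1 : InE (X.M S) c
      · exact z3.2.1 c (hc ▸ u1) m1 fun m2 => loop c (m m2 (hc ▸ u1))
      · obtain ⟨m2, -, m3⟩ := cr c (hc ▸ u1) m1
        have := s.cor_b m2 (by rw [ρ3]; exact m3.1)
        rw [ρ3] at this
        exact keep t1 this.1 this.2
  · obtain ⟨d, d1, d2⟩ := X.h.ad
    have d3 : ¬(f d ∈ S' ↔ f (ρ d) ∈ S') := fun k => s.bS' t1 d2 (k.1 (s.aS' t1 d1))
    exact absurd (m (fun k => (z2.1 _ k.1).2 (bv_of (vρ (α d)).symm (by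
      rw [fα, fρα]; exact fun k => d3 k.symm))) fun k => (z2.1 _ k.1).2 (bv_of (vρ d).symm d3))
      (loop d)

lemma good2 {l : ℕ} (h : X.Bad S l) (h1 : ¬Tch (X.M S) u) (h2 : u ∈ X.Yb S l) (c : D)
    (hc : v c = u) : f c ∈ X.U ∧ BV S' (v (α c)) := by
  subst hc
  obtain ⟨i, j, a, b, x⟩ := s.frame h
  have fr : ∀ c', v c' = v c → f c' ≠ f b → f c' = X.s i ∨ f c' = X.s j := fun c' k1 k2 =>
    (s.fr_of h x (k1 ▸ h2) fun m => h1 ⟨c', k1, m⟩).imp_right fun m => m.resolve_left k2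
  obtain rfl : j = i + 1 := by
    by_cases k1 : f c = f b
    · exact x.adj (fr _ (vρ c) (k1 ▸ s0 c)) (fr _ (by simp) (k1 ▸ s0' c))
    by_cases k2 : f (ρ c) = f b
    · exact x.adj (fr (ρ (ρ c)) (by simp) (k2 ▸ s0 _)) (fr _ (by simp) (by rwa [ρ3]))
    · exact x.adj (fr c rfl k1) (fr _ (vρ c) k2)
  refine ⟨(s.face h h2).elim (fun k => X.O_U k) fun k => X.NS_U k, ?_⟩
  rcases s.dart h x h2 with rfl | rfl | rfl
  · exact keep t1 x.ba x.ia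
  · exact keep t1 x.bb x.ib
  have jr := x.jr
  have p1 := (X.ad i jr).1
  have p2 := (X.ad i jr).2
  have p3 : X.s i ∈ X.NS := X.sNS (by omega)
  rw [αα]
  rcases X.inn_f (c := ρ (ρ (X.ε i))) (by simpa using (X.eps jr).1) with k | k | k
  · exact bv_of (c' := ρ (ρ (X.ε i))) (by simp) fun m =>
      s.sP p3 ((t1 _ x.k1).1 (p1 ▸ m.2 (s.aS' t1 k)))
  · simpa using bv_of (vρ (ρ (ρ (X.ε i)))).symm (t4 _ ⟨⟨In_M k, by
      rw [ρ3, p1]; exact ⟨s.sP p3, x.k1⟩, by rw [ρ3, p2]; exact ⟨s.sP (X.sNS jr), x.k3⟩⟩,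
      by rwa [ρ3, p1]⟩)
  · exact absurd k (X.no3 (p1 ▸ p3) (p2 ▸ X.sNS jr))

omit t4 in
lemma good3 (h1 : Tch X.O u) (h2 : ¬BV S u) (h3 : ¬∃ l, X.Bad S l ∧ u ∈ X.Yb S l) :
    (∀ c, v c = u → f c ∈ X.U ∧ BV S' (v (α c))) ∨ ∃ Y, u ∈ Y ∧ Blk X.U S' Y := by
  refine (s.good u h1 h2).imp (fun k c hc => ⟨X.O_U (k c hc).1,
    keep t1 (k c hc).2 (X.not_inn (tch_α (k c hc).1))⟩) fun ⟨Y, y1, y2⟩ =>
    ⟨{z | z ∈ Y ∧ ¬∃ l, X.Bad S l ∧ z ∈ X.Yb S l}, ⟨y1, h3⟩, (y2.restrict _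
      fun c k1 k2 k3 k4 ⟨l, k5, k6⟩ => k2 ⟨l, k5, k6.tail ⟨α c, rfl, by rw [αα], k3.symm,
        (y2.1 _ k4).2, (y2.1 _ k1).2⟩⟩).transfer (fun z hz => ⟨(y2.1 z hz.1).1.mono X.O_U, ?_⟩)
      fun c k1 k2 _ => ?_⟩
  · rw [bv_congr t1 fun k => (tchM k).elim (X.not_inn (y2.1 z hz.1).1) hz.2]
    exact (y2.1 z hz.1).2
  have k3 : InE X.O c := by
    by_contra k
    rw [InE, not_or] at k
    obtain ⟨m1, m2⟩ := y2.1 _ k1.1
    have m3 := X.not_inn m1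
    have ns : ∀ c', v c' = v c → f c' ∉ X.O → f c' ∈ X.U → f c' ∈ X.NS := fun c' a1 a2 a3 =>
      by_contra fun a4 => a2 (X.mem_O.2 ⟨a3, a4, fun a5 => m3 (Or.inl ⟨c', a1, a5⟩)⟩)
    have nb : ∀ c', v c' = v c → f c' ∉ X.O → f c' ∉ S → f c' ∈ X.NS ∨ f c' ∈ X.B :=
      fun c' a1 a2 a3 => by
        by_cases a4 : f c' ∈ X.U
        exacts [Or.inl (ns c' a1 a2 a4), Or.inr ((X.h.or a4).resolve_left fun a5 => a3 (s.sA a5))]
    have m4 : f (ρ (ρ c)) ∉ X.B := fun m =>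
      X.h.BU m (X.O_U (((tch_iff.1 m1).resolve_left k.1).resolve_left k.2))
    have m5 := mono_iff m2 (vρ c).symm
    have both : f c ∈ X.NS → f (ρ c) ∈ X.NS → False := fun a1 a2 => by
      obtain ⟨n, a3, rfl | rfl⟩ := X.fd a1 a2
      exacts [m3 (X.eps a3).1, k1.2 ⟨n, ⟨a3, m2⟩, y_self⟩]
    rcases k2 with k2 | k2
    · have a1 := ns c rfl k.1 k2
      exact (nb _ (vρ c) k.2 fun a => s.sP a1 (m5.2 a)).elim (both a1)
        fun a2 => m2 (s.nbv (Or.inl ⟨a1, a2⟩) m4)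
    · have a1 := ns _ (vρ c) k.2 k2
      exact (nb c rfl k.1 fun a => s.sP a1 (m5.1 a)).elim (fun a2 => both a2 a1)
        fun a2 => m2 (s.nbv (Or.inr ⟨a2, a1⟩) m4)
  exact ⟨k3, fun k => keep t1 k (X.not_inn k3.tch')⟩

omit t4 in
lemma good4 (h0 : Tch X.U u) (h1 : ¬Tch X.O u) (h2 : ¬BV S u) (h3 : ¬Tch (X.M S) u) :
    ∃ Y, u ∈ Y ∧ Blk X.U S' Y := by
  obtain ⟨c0, rfl, h0⟩ := h0
  have ns : ∀ c, v c = v c0 → f c ∈ X.U → f c ∈ X.NS := fun c a1 a3 => by_contra fun a4 =>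
    h1 ⟨c, a1, X.mem_O.2 ⟨a3, a4, fun a5 => h3 ⟨c, a1, In_M a5⟩⟩⟩
  have nb : ∀ c, v c = v c0 → f c ∈ X.NS ∨ f c ∈ X.B := fun c a1 => by
    by_cases a4 : f c ∈ X.U
    exacts [Or.inl (ns c a1 a4), Or.inr ((X.h.or a4).resolve_left fun a5 =>
      s.sP (ns c0 rfl h0) ((mono_iff h2 a1.symm).2 (s.sA a5)))]
  obtain ⟨c1, a1, a2⟩ : Tch X.B (v c0) := by
    by_contra k
    exact X.no3 (ns c0 rfl h0) ((nb _ (vρ c0)).resolve_right fun m => k ⟨_, vρ c0, m⟩)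
      ((nb _ (by simp)).resolve_right fun m => k ⟨_, by simp, m⟩)
  have f1 : ∀ c, v c = v c0 → f c ∈ X.NS → f c = X.s X.r := fun c a3 a4 => by
    obtain ⟨d, d1, d2⟩ := ad_of_tch (A := {f c}) ⟨c, a3, mem_singleton_self _⟩ ⟨c1, a1, a2⟩
      fun g m1 m2 => X.h.BU m2 (mem_singleton.1 m1 ▸ X.NS_U a4)
    rw [mem_singleton] at d1
    exact d1 ▸ X.f1 (d1 ▸ a4) d2
  obtain ⟨t, -, ht⟩ := X.pat2
  have nr := X.sNS le_rfl
  let Y : Set (V D) := {z | Tch {X.s X.r} z ∧ ∀ c, v c = z → f c = X.s X.r ∨ f c ∈ X.B}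
  have ex : ∀ c, v c ∈ Y → InE X.U c → v (α c) ∉ Y → (f (α c) = X.s X.r ∧ f (ρ (α c)) ∈ X.B ∨
      f (α c) ∈ X.B ∧ f (ρ (α c)) = X.s X.r) ∧ f (ρ (ρ (α c))) ∉ X.B := fun c k1 k2 k3 => by
    have m : f (α c) = X.s X.r ∧ f (ρ (α c)) ∈ X.B ∨ f (α c) ∈ X.B ∧ f (ρ (α c)) = X.s X.r := by
      rw [fα, fρα]
      rcases k1.2 c rfl with m1 | m1 <;> rcases k1.2 _ (vρ c) with m2 | m2
      exacts [absurd (m2.trans m1.symm) (s0 c), Or.inr ⟨m2, m1⟩, Or.inl ⟨m2, m1⟩,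
        absurd k2 (not_or.2 ⟨X.h.BU m1, X.h.BU m2⟩)]
    refine ⟨m, fun m' => k3 ⟨m.elim (fun m => tch_v (mem_singleton.2 m.1))
      fun m => ⟨_, vρ _, mem_singleton.2 m.2⟩, fun c' hc => ?_⟩⟩
    rcases (v_eq _ _).1 hc.symm with rfl | rfl | rfl
    exacts [m.imp And.left And.left, m.symm.imp And.right And.right, Or.inr m']
  refine ⟨Y, ⟨⟨c0, rfl, mem_singleton.2 (f1 c0 rfl (ns c0 rfl h0))⟩, fun c hc =>
    (nb c hc).imp_left (f1 c hc)⟩, fun z hz => ⟨hz.1.mono (singleton_subset_iff.2 (X.sU le_rfl)),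
      fun ⟨⟨c, m1, m2⟩, _⟩ => (hz.2 c m1).elim (fun m => s.sP nr ((t1 _ s.kr).1 (m ▸ m2)))
        fun m => s.bS' t1 m m2⟩, fun c k1 k2 k3 => ?_, ?_⟩
  · obtain ⟨m1, m2⟩ := ex c k1 k2 k3
    refine keep t1 (s.nbv (m1.elim (fun m => Or.inl ⟨m.1 ▸ nr, m.2⟩)
      fun m => Or.inr ⟨m.1, m.2 ▸ nr⟩) m2)
      fun m => ?_
    have : ∀ c', v c' = v (α c) → f c' ∉ X.B := fun c' m3 m4 => (X.inn_f (m3 ▸ m)).elim
      (fun m => X.h.AB m m4) fun m => X.h.BU m4 (m.elim (fun m => (X.In_sub m).1) fun m => X.NS_U m)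
    exact m1.elim (fun m => this _ (vρ _) m.2) fun m => this _ rfl m.1
  · refine (cnt_le_card (s := {α (X.dd (X.m + 1)), α t}) fun c k => ?_).trans card_le_two
    obtain ⟨m1 | m1, m2⟩ := ex c k.1 k.2.1 k.2.2
    · rw [← X.pat1 m1.1 m1.2 m2, αα]
      exact mem_insert_self _ _
    · rw [← ht _ m1.1 m1.2 m2, αα]
      exact mem_insert_of_mem (mem_singleton_self _)

end St

theorem solve (X : Fan D) (ih : IH D #X.U) : ∃ S, Sol X.A X.B X.U (· = X.dd 0) S := by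
  obtain ⟨S, s⟩ := X.stage1 ih
  obtain ⟨S', t1, t2, t3, t4, t5⟩ := resolve (S := S) (K := X.M S)
    (W := fun e => X.Cor S e ∧ f (ρ e) ∈ X.NS) ih
    (card_lt_card ⟨M_U, fun k => s.kr (k (X.sU le_rfl))⟩) s.cR2 s.cB2 (X.h.ad.mono s.aS s.bS)
    ⟨fun e he => by
      obtain ⟨K, k1, k2, k3, k4⟩ := exists_comp he.1.1
      exact ⟨K, k1, k3, k2, Or.inr ⟨mem_sdiff.2 ⟨mem_compl.2 he.1.2.1.1, he.1.2.1.2⟩,
        (s.reach k1 k3 k4 k2).mono Subset.rfl s.aS⟩⟩,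
      fun e e' J a a' j1 j2 j3 j4 => s.uniq a.1 a'.1 j1 j2 j3 j4 (iff_of_true a.2 a'.2)⟩
  refine ⟨S', fun _ k => s.aS' t1 k, fun _ k => mem_compl.2 (s.bS' t1 k), t2, t3, ?_,
    fun u h1 h2 => ?_⟩
  · rintro _ rfl k
    exact s.sP (X.st ▸ X.sNS (Nat.zero_le _))
      ((t1 _ (X.st ▸ s.k0)).1 (k.2 (s.aS' t1 (X.fA 0 (Nat.zero_le _)))))
  by_cases k1 : Tch (X.M S) u
  · exact s.good1 t1 t4 t5 k1 h2
  by_cases k2 : ∃ l, X.Bad S l ∧ u ∈ X.Yb S l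
  · obtain ⟨l, k3, k4⟩ := k2
    exact Or.inl (s.good2 t1 t4 k3 k1 k4)
  rw [bv_congr t1 k1] at h2
  by_cases k3 : Tch X.O u
  exacts [s.good3 t1 k3 h2 k2, Or.inr (s.good4 t1 h1 k3 h2 k1)]

end Fan

/-- A shortest walk is an induced path. -/
lemma exists_path {T : Type} {R : T → T → Prop} {P : T → Prop} {x y : T}
    (h : ∃ r, ∃ s : ℕ → T, s 0 = x ∧ s r = y ∧ (∀ l ≤ r, P (s l)) ∧
      ∀ l < r, s l = s (l + 1) ∨ R (s l) (s (l + 1))) :
    ∃ r, ∃ s : ℕ → T, s 0 = x ∧ s r = y ∧ (∀ l ≤ r, P (s l)) ∧ (∀ l < r, R (s l) (s (l + 1))) ∧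
      ∀ i j, i < j → j ≤ r → s i ≠ s j ∧ (R (s i) (s j) → j = i + 1) := by
  obtain ⟨s, h1, h2, h3, h4⟩ := Nat.find_spec h
  have hm := fun m => Nat.find_min h (m := m)
  generalize Nat.find h = r at *
  have cut : ∀ i k, 0 < k → i + k ≤ r → (i + k < r → s i = s (i + k + 1) ∨ R (s i) (s (i + k + 1))) →
      (i + k = r → s i = s r) → False := fun i k a1 a2 a3 a4 => by
    refine hm (r - k) (by omega) ⟨fun l => if l ≤ i then s l else s (l + k), by simpa, ?_,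
      fun l hl => ?_, fun l hl => ?_⟩
    · simp only
      split_ifs with m
      · rw [show r - k = i by omega, a4 (by omega), h2]
      · rw [Nat.sub_add_cancel (by omega), h2]
    · simp only
      split_ifs <;> exact h3 _ (by omega)
    · simp only
      split_ifs with m1 m2 m2
      · exact h4 l (by omega)
      · obtain rfl : l = i := by omega
        rw [add_right_comm]
        exact a3 (by omega)
      · omega
      · rw [add_right_comm]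
        exact h4 _ (by omega)
  have ne : ∀ i j, i < j → j ≤ r → s i ≠ s j := fun i j a1 a2 a3 => by
    obtain ⟨k, rfl⟩ := Nat.exists_eq_add_of_le a1.le
    exact cut i k (by omega) a2 (fun m => a3 ▸ h4 _ m) fun m => m ▸ a3
  refine ⟨r, s, h1, h2, h3, fun l hl => (h4 l hl).resolve_left (ne l _ l.lt_succ_self hl),
    fun i j a1 a2 => ⟨ne i j a1 a2, fun a3 => by_contra fun a4 => ?_⟩⟩
  obtain ⟨k, rfl⟩ := Nat.exists_eq_add_of_lt a1
  exact cut i k (by omega) (by omega) (fun _ => Or.inr a3) fun m => by omega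

variable {A B U : Finset (F D)}

lemma two (ih : IH D #U) (h : Inst A B U) (hU : Conn U) (hB : Ad U B) {e : D} (h1 : f e ∈ U)
    (h2 : f (ρ e) ∈ A) : ∃ S, Sol A B U (· = e) S := by
  by_cases hp : ∃ n K, Pock A B U K n ∧ f e ∉ K
  · obtain ⟨n, K, k1, k2⟩ := hp
    exact k1.solve ih ⟨by rintro _ rfl; exact ⟨U, Subset.rfl, hU, h1, Or.inl ⟨h2, hB⟩⟩,
      fun _ _ _ a a' _ _ _ _ => a.trans a'.symm⟩ (by rintro _ rfl; exact k2)
  obtain ⟨L, dd, rfl, d1, d2, d3, d4⟩ := orbit (U := U)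
    ⟨⟨_, h1⟩, ⟨_, mem_compl.2 (h.AU h2)⟩, hU, h.cU⟩ h1 (h.AU h2)
  obtain ⟨d, k1, k2⟩ := hB
  obtain ⟨i, k3, rfl⟩ := d4 d k1 (h.BU k2)
  have hex : ∃ i, f (ρ (dd i)) ∈ B := ⟨i, k2⟩
  obtain ⟨m, hm⟩ : ∃ m, Nat.find hex = m + 1 :=
    Nat.exists_eq_succ_of_ne_zero fun k => h.AB h2 (k ▸ Nat.find_spec hex)
  obtain ⟨r, s, s1, s2, s3, s4, s5⟩ := exists_path (R := fun g g' => ∃ d, f d = g ∧ f (ρ d) = g')
    (P := fun g => ∃ i ≤ m, f (dd i) = g) ⟨m, fun i => f (dd i), rfl, rfl, fun l hl => ⟨l, hl, rfl⟩,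
      fun l _ => (d2 l).imp (fun k => by simp only [k, fφ]) fun k =>
        ⟨φ (dd l), fφ _, congrArg f k.symm⟩⟩
  have : Nonempty D := ⟨dd 0⟩
  choose! ε hε using s4
  exact Fan.solve ⟨A, B, U, L, m, r, dd, s, ε, h, hU, d1, d2, d3, d4,
    hm ▸ (Nat.find_min' hex k2).trans_lt k3, fun i hi => (h.or (d1 i).2).resolve_right
      (Nat.find_min hex (by omega)), hm ▸ Nat.find_spec hex, fun n a1 a2 a3 g hg => by
      obtain ⟨K, m1, m2, m3, m4⟩ := exists_comp hg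
      exact ⟨K, m1, m3, m2, by_contra fun m5 => hp ⟨n, K, ⟨h, hU, a1, a2, a3, m1, m3, m4, _, m2⟩,
        m5⟩⟩, s1, s2, s3, hε, fun i j a1 a2 => ⟨(s5 i j a1 a2).1, fun d a3 a4 =>
      (s5 i j a1 a2).2 ⟨d, a3, a4⟩⟩⟩ ih

/-- Every instance has a solution. -/
theorem all_sol (n : ℕ) : IH D n := by
  induction n with
  | zero => exact fun _ _ _ _ h => absurd h (Nat.not_lt_zero _)
  | succ n ihn =>
    intro A B U W hn h hp
    have ih : IH D #U := fun A B U' W k => ihn A B U' W (by omega)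
    by_cases hU : Conn U
    · by_cases hB : Ad U B
      swap
      · exact one_side h hp hU hB
      by_cases hA : Ad U A
      swap
      · obtain ⟨S, s⟩ := one_side h.symm hp.symm hU hA
        exact ⟨_, s.symm⟩
      have wU : ∀ e, W e → f e ∈ U ∧ (f (ρ e) ∈ A ∨ f (ρ e) ∈ B) := fun e he => by
        obtain ⟨J, k1, -, k2, k3⟩ := hp.1 e he
        exact ⟨k1 k2, k3.imp And.left And.left⟩
      obtain ⟨e, ⟨k1, k2⟩, k3⟩ : ∃ e, (f e ∈ U ∧ (f (ρ e) ∈ A ∨ f (ρ e) ∈ B)) ∧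
          ∀ e', W e' → e' = e := by
        by_cases k : ∃ e, W e
        · obtain ⟨e, he⟩ := k
          exact ⟨e, wU e he, fun e' he' => hp.2 e' e U he' he Subset.rfl hU (wU e' he').1 (wU e he).1⟩
        · obtain ⟨e, k1, k2⟩ := hA
          exact ⟨e, ⟨k1, Or.inl k2⟩, fun e' he' => absurd ⟨e', he'⟩ k⟩
      obtain ⟨S, s⟩ : ∃ S, Sol A B U (· = e) S := k2.elim (two ih h hU hB k1) fun k2 => by
        obtain ⟨S, s⟩ := two ih h.symm hU hA k1 k2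
        exact ⟨_, s.symm⟩
      exact ⟨S, s.sA, s.sB, s.cS, s.cT, fun e' he' => s.pre e' (k3 e' he'), s.good⟩
    · rw [Conn] at hU
      push Not at hU
      obtain ⟨Z, z1, ⟨g, z2⟩, z3, z4⟩ := hU
      obtain ⟨K, k1, k2, k3, k4⟩ := exists_comp (z1 z2)
      have k5 : ¬U ⊆ K := fun k => z4 (k.trans (k3.sub k1 z3 k2 z2))
      obtain ⟨a, ha⟩ := h.nA
      obtain ⟨d, d1, d2⟩ := exists_bd ⟨g, k2⟩ ⟨a, mem_compl.2 fun k => h.AU ha (k1 k)⟩
      rcases h.or fun k => d2 (k4 d d1 k) with k | k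
      · exact split ih h hp k1 k3 k4 ⟨d, d1, k⟩ k5
      · obtain ⟨S, s⟩ := split ih h.symm hp.symm k1 k3 k4 ⟨d, d1, k⟩ k5
        exact ⟨_, s.symm⟩

/-- A disc whose boundary meets every edge. -/
theorem dom (d0 : D) : ∃ S : Finset (F D), Disc S ∧ Fintype.card (E D) ≤ e S := by
  obtain ⟨S, s⟩ := all_sol _ {f d0} {f (ρ d0)} ({f d0} ∪ {f (ρ d0)})ᶜ (fun _ => False)
    (Nat.lt_succ_self _) ⟨fun g => by
      have : g = f d0 → g ≠ f (ρ d0) := fun k => k ▸ (s0 d0).symm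
      simp only [mem_compl, mem_union, mem_singleton]
      tauto, conn_single _, conn_single _, d0, mem_singleton_self _, mem_singleton_self _⟩
    ⟨fun _ k => k.elim, fun _ _ _ k => k.elim⟩
  have a1 := s.sA (mem_singleton_self _)
  have a2 := s.sB (mem_singleton_self _)
  have out : ∀ c, ¬BV S (v c) → InE ({f d0} ∪ {f (ρ d0)})ᶜ c := fun c k => by
    by_contra k'
    simp only [InE, mem_compl, mem_union, mem_singleton, not_or, not_not, not_and_or] at k'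
    have k1 := mono_iff k (vρ c).symm
    rcases k' with ⟨k2 | k2, k3 | k3⟩
    exacts [s0 c (k3.trans k2.symm), mem_compl.1 a2 (k3 ▸ k1.1 (k2 ▸ a1)),
      mem_compl.1 a2 (k2 ▸ k1.2 (k3 ▸ a1)), s0 c (k3.trans k2.symm)]
  have bi : ∀ c, BV S (v c) → Bi S c := fun c ⟨k1, k2⟩ k => by
    rw [tch_iff] at k1 k2
    simp only [mem_compl] at k2
    tauto
  refine ⟨S, ⟨⟨_, a1⟩, ⟨_, a2⟩, s.cS, s.cT⟩, card_le_card fun x _ => ?_⟩
  obtain ⟨c, rfl⟩ := ed_surj x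
  by_cases k : BV S (v c)
  · exact mem_image.2 ⟨c, mem_dset.2 (bi c k), rfl⟩
  refine mem_image.2 ⟨α c, mem_dset.2 (bi _ ?_), edα c⟩
  rcases s.good _ (out c k).tch k with k1 | ⟨Y, y1, y2⟩
  · exact (k1 c rfl).2
  · exact absurd ((e3 y1 fun m => (y2.1 _ m).2 (bv_of (vρ d0).symm fun m =>
      mem_compl.1 a2 (m.1 a1))).trans ((cnt_mono fun c m =>
        ⟨m.1, out c (y2.1 _ m.1).2, m.2⟩).trans y2.2.2)) (by omega)

/-- Cycles of all lengths except possibly four in the line graph. -/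
theorem full {l : ℕ} (h3 : 3 ≤ l) (h4 : l ≠ 4) (hl : l ≤ Fintype.card (E D)) :
    HasCyc (Γ (D := D)) l := by
  obtain ⟨x⟩ : Nonempty (E D) := Fintype.card_pos_iff.1 (by omega)
  rcases h3.eq_or_lt with rfl | h3
  · exact tri x
  have h5 : 5 ≤ l := by omega
  by_contra k
  obtain ⟨d, -⟩ := ed_surj x
  obtain ⟨S, h1, h2⟩ := dom d
  have := all_low (fun S hS => by
    by_contra k'
    exact k (cyc hS (by omega) (by omega) (by omega))) h5 h1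
  omega

end CM

end Pool.Agent.MP_42ec7b_co

end MrgPart0

-- ======== part 1: formerly Pool.Agent.MP_42ec7b_co.Inst
section MrgPart1

/-!
The map of a planar cubic graph with a 4-connected line graph.
-/

set_option autoImplicit false

open Finset

namespace Pool.Agent.MP_42ec7b_co

open Classical

variable {V : Type} [Fintype V] {G : SimpleGraph V}

lemma fib3 (h3 : ∀ v, (G.neighborSet v).ncard = 3) (v : V) : #{d : G.Dart | d.fst = v} = 3 := by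
  rw [G.dart_fst_fiber_card_eq_degree, ← h3 v, ← G.card_neighborSet_eq_degree,
    Set.ncard_eq_toFinset_card', Set.toFinset_card]

lemma rot3 (h3 : ∀ v, (G.neighborSet v).ncard = 3) {ρ : Equiv.Perm G.Dart}
    (hρ : ∀ d d', ρ.SameCycle d d' ↔ d.fst = d'.fst) (d : G.Dart) :
    ρ d ≠ d ∧ ρ (ρ (ρ d)) = d ∧ ∀ d', d.fst = d'.fst ↔ d' = d ∨ d' = ρ d ∨ d' = ρ (ρ d) := by
  have h2 : ∀ d, ρ (ρ d) ≠ d := fun d h => by
    have : #{c : G.Dart | c.fst = d.fst} ≤ 2 := by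
      refine (card_le_card (t := {d, ρ d}) fun c hc => ?_).trans card_le_two
      obtain ⟨n, rfl⟩ := ((hρ d c).2 (mem_filter.1 hc).2.symm).exists_nat_pow_eq
      clear hc
      induction n with
      | zero => simp
      | succ n ih =>
        rw [pow_succ', Equiv.Perm.mul_apply]
        rcases mem_insert.1 ih with k | k
        · simp [k]
        · simp [mem_singleton.1 k, h]
    rw [fib3 h3] at this
    omega
  have h1 : ∀ d, ρ d ≠ d := fun d h => h2 d (by rw [h, h])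
  have hf : ∀ d, (ρ d).fst = d.fst := fun d =>
    ((hρ d _).1 (Equiv.Perm.SameCycle.refl ρ d).apply_right).symm
  have e : ({d, ρ d, ρ (ρ d)} : Finset G.Dart) = univ.filter fun c : G.Dart => c.fst = d.fst :=
    eq_of_subset_of_card_le (fun c hc => by
      simp only [mem_insert, mem_singleton] at hc
      rcases hc with rfl | rfl | rfl <;> simp [hf]) ((fib3 h3 _).trans
      (card_eq_three.2 ⟨_, _, _, (h1 d).symm, (h2 d).symm, (h1 _).symm, rfl⟩).symm).le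
  have e' : ∀ d', d.fst = d'.fst ↔ d' = d ∨ d' = ρ d ∨ d' = ρ (ρ d) := fun d' => by
    simpa [eq_comm (a := d.fst)] using (Finset.ext_iff.1 e d').symm
  exact ⟨h1 d, (((e' _).1 (by simp [hf])).resolve_right fun k => k.elim (h2 _) (h1 _)), e'⟩

lemma cut4 (h3 : ∀ v, (G.neighborSet v).ncard = 3)
    (h4 : ∀ S : Finset G.edgeSet, S.card ≤ 3 →
      (G.lineGraph.induce ((↑S : Set G.edgeSet)ᶜ)).Connected)
    (X : Set V) (C : Finset G.Dart) (hC : C.card ≤ 3)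
    (h : ∀ d : G.Dart, d.fst ∈ X → d.snd ∉ X → d ∈ C) : X.Subsingleton ∨ Xᶜ.Subsingleton := by
  have key : ∀ (X : Set V) (C : Finset G.Dart), C.card ≤ 3 →
      (∀ d : G.Dart, d.fst ∈ X → d.snd ∉ X → d ∈ C) → ¬X.Subsingleton →
      ∃ d : G.Dart, d.fst ∈ X ∧ d.snd ∈ X := by
    intro X C hC h hX
    obtain ⟨u, hu, u', hu', hne⟩ := Set.not_subsingleton_iff.1 hX
    by_contra k
    have : #((univ.filter fun d : G.Dart => d.fst = u) ∪
        univ.filter fun d : G.Dart => d.fst = u') ≤ #C :=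
      card_le_card fun d hd => by
        have : d.fst ∈ X := by
          rcases mem_union.1 hd with k1 | k1 <;> rwa [(mem_filter.1 k1).2]
        exact h d this fun k1 => k ⟨d, this, k1⟩
    rw [card_union_of_disjoint (disjoint_left.2 fun d k1 k2 =>
      hne ((mem_filter.1 k1).2.symm.trans (mem_filter.1 k2).2)), fib3 h3, fib3 h3] at this
    omega
  by_contra k
  obtain ⟨d1, a1, a2⟩ := key X C hC h fun k' => k (Or.inl k')
  obtain ⟨d2, b1, b2⟩ := key Xᶜ (C.image SimpleGraph.Dart.symm) (card_image_le.trans hC)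
    (fun d k1 k2 => mem_image.2 ⟨d.symm, h _ (not_not.1 k2) k1, d.symm_symm⟩) fun k' => k (Or.inr k')
  let S : Finset G.edgeSet := (C.filter fun d => d.fst ∈ X ∧ d.snd ∉ X).image
    fun d => ⟨d.edge, d.edge_mem⟩
  have hS : ∀ e : G.edgeSet, e ∈ S ↔ (∃ u ∈ e.1, u ∈ X) ∧ ∃ u ∈ e.1, u ∉ X := fun e => by
    constructor
    · intro he
      obtain ⟨d, hd, rfl⟩ := mem_image.1 he
      exact ⟨⟨_, Sym2.mem_mk_left _ _, (mem_filter.1 hd).2.1⟩,
        _, Sym2.mem_mk_right _ _, (mem_filter.1 hd).2.2⟩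
    · rintro ⟨⟨u, h1, h2⟩, w, h3, h4⟩
      have e1 : e.1 = s(u, w) := (Sym2.mem_and_mem_iff fun k : u = w => h4 (k ▸ h2)).1 ⟨h1, h3⟩
      have e2 : G.Adj u w := by rw [← SimpleGraph.mem_edgeSet, ← e1]; exact e.2
      exact mem_image.2 ⟨⟨(u, w), e2⟩, mem_filter.2 ⟨h _ h2 h4, h2, h4⟩, Subtype.ext e1.symm⟩
  obtain ⟨p⟩ := (h4 S (card_image_le.trans ((card_filter_le _ _).trans hC))).preconnected
    ⟨⟨d1.edge, d1.edge_mem⟩, fun k => by
      obtain ⟨u, k1, k2⟩ := ((hS _).1 k).2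
      rcases Sym2.mem_iff.1 k1 with rfl | rfl <;> contradiction⟩
    ⟨⟨d2.edge, d2.edge_mem⟩, fun k => by
      obtain ⟨u, k1, k2⟩ := ((hS _).1 k).1
      rcases Sym2.mem_iff.1 k1 with rfl | rfl <;> contradiction⟩
  obtain ⟨d, -, c1, c2⟩ := p.exists_boundary_dart {e | ∀ u ∈ e.1.1, u ∈ X}
    (fun u k1 => by rcases Sym2.mem_iff.1 k1 with rfl | rfl <;> assumption)
    fun k => b1 (k _ (Sym2.mem_mk_left _ _))
  obtain ⟨-, u, c3, c4⟩ := SimpleGraph.lineGraph_adj_iff_exists.1 d.adj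
  refine d.snd.2 ((hS _).2 ⟨⟨u, c4, c1 u c3⟩, ?_⟩)
  by_contra k'
  exact c2 fun w hw => by_contra fun k1 => k' ⟨w, hw, k1⟩

/-- The map of the graph. -/
@[reducible] noncomputable def toCM (h3 : ∀ v, (G.neighborSet v).ncard = 3)
    (h4 : ∀ S : Finset G.edgeSet, S.card ≤ 3 →
      (G.lineGraph.induce ((↑S : Set G.edgeSet)ᶜ)).Connected)
    {ρ φ : Equiv.Perm G.Dart} (hρ : ∀ d d', ρ.SameCycle d d' ↔ d.fst = d'.fst)
    (hφ : ∀ d, φ d = ρ d.symm) (he : Nat.card V +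
      Nat.card (Quotient (Equiv.Perm.SameCycle.setoid φ)) = Nat.card G.edgeSet + 2) :
    CM G.Dart where
  V := V
  F := Quotient (Equiv.Perm.SameCycle.setoid φ)
  E := G.edgeSet
  fD := inferInstance
  fV := inferInstance
  fF := Fintype.ofFinite _
  fE := Fintype.ofFinite _
  α := SimpleGraph.Dart.symm_involutive.toPerm _
  ρ := ρ
  v d := d.fst
  f d := Quotient.mk _ d
  ed d := ⟨d.edge, d.edge_mem⟩
  Γ := G.lineGraph
  αα d := d.symm_symm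
  ρ3 d := (rot3 h3 hρ d).2.1
  ρne d := (rot3 h3 hρ d).1
  v_eq d := (rot3 h3 hρ d).2.2
  f_eq d d' := by
    rw [show ρ * SimpleGraph.Dart.symm_involutive.toPerm _ = φ from Equiv.ext fun d => (hφ d).symm]
    exact Quotient.eq
  ed_eq d d' := by
    rw [Subtype.ext_iff, eq_comm]
    exact SimpleGraph.dart_edge_eq_iff _ _
  v_surj u := by
    obtain ⟨d, hd⟩ := card_pos.1 ((fib3 h3 u).symm ▸ (by norm_num : 0 < 3))
    exact ⟨d, (mem_filter.1 hd).2⟩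
  f_surj := Quotient.mk_surjective
  ed_surj := by
    rintro ⟨e, he⟩
    induction e using Sym2.ind with
    | h a b => exact ⟨⟨(a, b), he⟩, rfl⟩
  loop d := d.snd_ne_fst
  simple d d' h1 h2 := SimpleGraph.Dart.ext _ _ (Prod.ext h1 h2)
  euler := by simpa only [← Nat.card_eq_fintype_card] using he
  adj e e' := by
    rw [SimpleGraph.lineGraph_adj_iff_exists]
    refine and_congr Iff.rfl ⟨fun ⟨u, h1, h2⟩ => ?_, ?_⟩
    · have k : ∀ e : G.edgeSet, u ∈ e.1 → ∃ d : G.Dart, ⟨d.edge, d.edge_mem⟩ = e ∧ d.fst = u :=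
        fun e h => by
          obtain ⟨w, hw⟩ := Sym2.mem_iff_exists.1 h
          exact ⟨⟨(u, w), by rw [← SimpleGraph.mem_edgeSet, ← hw]; exact e.2⟩,
            Subtype.ext hw.symm, rfl⟩
      obtain ⟨d, k1, k2⟩ := k e h1
      obtain ⟨d', k3, k4⟩ := k e' h2
      exact ⟨d, d', k1, k3, k2.trans k4.symm⟩
    · rintro ⟨d, d', rfl, rfl, h⟩
      exact ⟨d.fst, Sym2.mem_mk_left _ _, h ▸ Sym2.mem_mk_left _ _⟩
  e4 := cut4 h3 h4

theorem weak_line (hp : Planar G) (h3 : ∀ v, (G.neighborSet v).ncard = 3)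
    (h4 : ∀ S : Finset G.edgeSet, S.card ≤ 3 →
      (G.lineGraph.induce ((↑S : Set G.edgeSet)ᶜ)).Connected)
    {m l : ℕ} (h : HasCyc G.lineGraph m) (h5 : 3 ≤ l) (h6 : l ≠ 4) (hl : l ≤ m) :
    HasCyc G.lineGraph l := by
  obtain ⟨ρ, φ, hρ, hφ, he⟩ := hp
  exact @CM.weak _ (toCM h3 h4 hρ hφ he) _ _ h h5 h6 hl

end Pool.Agent.MP_42ec7b_co

end MrgPart1

-- ======== part 2: formerly Pool.Agent.MP_42ec7b_co.Full
section MrgPart2

/-!
All cycle lengths in 4-connected line graphs of planar cubic graphs.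
-/

set_option autoImplicit false

namespace Pool.Agent.MP_42ec7b_co

variable {V : Type} [Fintype V] {G : SimpleGraph V}

theorem full_line (hp : Planar G) (h3 : ∀ v, (G.neighborSet v).ncard = 3)
    (h4 : ∀ S : Finset G.edgeSet, S.card ≤ 3 →
      (G.lineGraph.induce ((↑S : Set G.edgeSet)ᶜ)).Connected)
    {l : ℕ} (h5 : 3 ≤ l) (h6 : l ≠ 4) (hl : l ≤ Nat.card G.edgeSet) :
    HasCyc G.lineGraph l := by
  obtain ⟨ρ, φ, hρ, hφ, he⟩ := hp
  refine @CM.full _ (toCM h3 h4 hρ hφ he) _ h5 h6 ?_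
  rw [← Nat.card_eq_fintype_card]
  exact hl

end Pool.Agent.MP_42ec7b_co

end MrgPart2

-- marker of a merged file
example : 731051 + 136428 = 731051 + 136428 := rfl
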