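import Mathlib.Combinatorics.SimpleGraph.Basic
import Pool.Agent.MP_42ec7b_co.Exact

/-!
Cubic maps on the sphere given by darts, with the condition on small edge cuts.
-/

set_option autoImplicit false

open Finset

namespace Pool.Agent.MP_42ec7b_co

open Classical

/-- A cubic map of genus zero whose edge cuts of size at most three are trivial. -/
class CM (D : Type) where
  V : Type
  F : Type
  E : Type
  fD : Fintype D
  fV : Fintype V
  fF : Fintype F
  fE : Fintype E
  α : Equiv.Perm D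
  ρ : Equiv.Perm D
  v : D → V
  f : D → F
  ed : D → E
  Γ : SimpleGraph E
  αα : ∀ d, α (α d) = d
  ρ3 : ∀ d, ρ (ρ (ρ d)) = d
  ρne : ∀ d, ρ d ≠ d
  v_eq : ∀ d d', v d = v d' ↔ d' = d ∨ d' = ρ d ∨ d' = ρ (ρ d)
  f_eq : ∀ d d', f d = f d' ↔ (ρ * α).SameCycle d d'
  ed_eq : ∀ d d', ed d = ed d' ↔ d' = d ∨ d' = α d
  v_surj : Function.Surjective v
  f_surj : Function.Surjective f
  ed_surj : Function.Surjective ed
  loop : ∀ d, v (α d) ≠ v d
  simple : ∀ d d', v d = v d' → v (α d) = v (α d') → d = d'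
  euler : @Fintype.card V fV + @Fintype.card F fF = @Fintype.card E fE + 2
  adj : ∀ e e', Γ.Adj e e' ↔ e ≠ e' ∧ ∃ d d', ed d = e ∧ ed d' = e' ∧ v d = v d'
  e4 : ∀ (X : Set V) (C : Finset D), C.card ≤ 3 → (∀ d, v d ∈ X → v (α d) ∉ X → d ∈ C) →
    X.Subsingleton ∨ Xᶜ.Subsingleton

namespace CM

variable {D : Type} [CM D]

instance : Fintype D := fD
instance : Fintype (V D) := fV
instance : Fintype (F D) := fF
instance : Fintype (E D) := fE

/-- The darts with a property. -/
noncomputable def dset (P : D → Prop) : Finset D := univ.filter P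

@[simp] lemma mem_dset {P : D → Prop} {d : D} : d ∈ dset P ↔ P d := by simp [dset]

/-- Number of darts with a property. -/
noncomputable def cnt (P : D → Prop) : ℕ := #(dset P)

lemma cnt_congr {P Q : D → Prop} (h : ∀ d, P d ↔ Q d) : cnt P = cnt Q := by
  rw [show P = Q from funext fun d => propext (h d)]

lemma cnt_mono {P Q : D → Prop} (h : ∀ d, P d → Q d) : cnt P ≤ cnt Q :=
  card_le_card fun d => by simpa using h d

lemma cnt_eq_sum (P : D → Prop) : cnt P = ∑ d, if P d then 1 else 0 := by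
  rw [cnt, dset, card_filter]

lemma cnt_perm (σ : Equiv.Perm D) (P : D → Prop) : cnt (fun d => P (σ d)) = cnt P := by
  rw [cnt_eq_sum, cnt_eq_sum]
  exact Equiv.sum_comp σ fun d => if P d then 1 else 0

lemma cnt_split (P Q : D → Prop) : cnt P = cnt (fun d => P d ∧ Q d) + cnt fun d => P d ∧ ¬Q d := by
  simp only [cnt_eq_sum, ← sum_add_distrib]
  refine sum_congr rfl fun d _ => ?_
  by_cases h : P d <;> by_cases h' : Q d <;> simp [h, h']

lemma cnt_or_le (P Q : D → Prop) : cnt (fun d => P d ∨ Q d) ≤ cnt P + cnt Q := by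
  simp only [cnt_eq_sum, ← sum_add_distrib]
  refine sum_le_sum fun d _ => ?_
  by_cases h : P d <;> by_cases h' : Q d <;> simp [h, h']

lemma cnt_le_card {P : D → Prop} {s : Finset D} (h : ∀ d, P d → d ∈ s) : cnt P ≤ #s :=
  card_le_card fun d hd => h d (mem_dset.1 hd)

lemma card_le_cnt {P : D → Prop} {s : Finset D} (h : ∀ d ∈ s, P d) : #s ≤ cnt P :=
  card_le_card fun d hd => mem_dset.2 (h d hd)

lemma cnt_le_one {P : D → Prop} (h : ∀ d d', P d → P d' → d = d') : cnt P ≤ 1 :=
  card_le_one.2 fun a ha b hb => h a b (mem_dset.1 ha) (mem_dset.1 hb)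

lemma cnt_pos {P : D → Prop} {d : D} (h : P d) : 0 < cnt P :=
  card_pos.2 ⟨d, mem_dset.2 h⟩

lemma cnt_cover (σ : Equiv.Perm D) {P Q : D → Prop} {r : ℕ}
    (h : ∀ d, P d → ∃ k < r, Q ((σ ^ k) d)) : cnt P ≤ r * cnt Q := by
  calc cnt P ≤ #((range r).biUnion fun k => dset fun d => Q ((σ ^ k) d)) :=
        cnt_le_card fun d hd => by simpa using h d hd
    _ ≤ ∑ k ∈ range r, cnt Q := card_biUnion_le.trans (sum_le_sum fun k _ =>
        (cnt_perm (σ ^ k) Q).le)
    _ = _ := by simp

/-- The face permutation. -/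
def φ : Equiv.Perm D := ρ * α

lemma φ_def (d : D) : φ d = ρ (α d) := rfl

@[simp] lemma αα' (d : D) : α (α d) = d := αα d

@[simp] lemma ρ3' (d : D) : ρ (ρ (ρ d)) = d := ρ3 d

@[simp] lemma vρ (d : D) : v (ρ d) = v d := ((v_eq d _).2 (Or.inr (Or.inl rfl))).symm

@[simp] lemma vφ (d : D) : v (φ d) = v (α d) := vρ _

@[simp] lemma edα (d : D) : ed (α d) = ed d := ((ed_eq d _).2 (Or.inr rfl)).symm

@[simp] lemma fφ (d : D) : f (φ d) = f d :=
  ((f_eq d _).2 (Equiv.Perm.SameCycle.refl _ d).apply_right).symm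

@[simp] lemma fα (d : D) : f (α d) = f (ρ d) := by rw [← fφ, φ_def, αα]

lemma fρα (d : D) : f (ρ (α d)) = f d := fφ d

@[simp] lemma fρφ (d : D) : f (ρ (ρ (φ d))) = f (ρ d) := by rw [← fα, ← fα d, φ_def, fα, ρ3]

lemma αne (d : D) : α d ≠ d := fun h => loop d (by rw [h])

lemma ρρne (d : D) : ρ (ρ d) ≠ d := fun h => ρne d (by rw [← ρ3 (ρ d), h, h])

lemma φne (d : D) : φ d ≠ d := fun h => loop d (by rw [← vφ, h])

lemma φφne (d : D) : φ (φ d) ≠ d := fun h =>
  ρne (α d) (simple (φ d) (α d) (vφ d) (by rw [αα, ← vφ, h]))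

lemma fφpow (k : ℕ) (d : D) : f ((φ ^ k) d) = f d := by
  induction k with
  | zero => rfl
  | succ k ih => rw [pow_succ', Equiv.Perm.mul_apply, fφ, ih]

lemma face_ind {Q : D → Prop} {c0 c : D} (h0 : Q c0) (hs : ∀ c, f c = f c0 → Q c → Q (φ c))
    (hc : f c = f c0) : Q c := by
  obtain ⟨n, rfl⟩ := ((f_eq _ _).1 hc.symm).exists_nat_pow_eq
  clear hc
  induction n with
  | zero => exact h0
  | succ n ih =>
    rw [pow_succ', Equiv.Perm.mul_apply]
    exact hs _ (fφpow n c0) ih

/-- Length of a face. -/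
noncomputable def len (x : F D) : ℕ := cnt fun d => f d = x

lemma len_le_period {c : D} {k : ℕ} (hk : 0 < k) (h : (φ ^ k) c = c) : len (f c) ≤ k := by
  refine (cnt_le_card (s := (range k).image fun i => (φ ^ i) c) fun d hd => ?_).trans
    (card_image_le.trans (card_range k).le)
  refine face_ind (Q := fun d => d ∈ (range k).image fun i => (φ ^ i) c)
    (mem_image.2 ⟨0, mem_range.2 hk, rfl⟩) (fun d _ h1 => ?_) hd
  obtain ⟨i, hi, rfl⟩ := mem_image.1 h1
  rw [← Equiv.Perm.mul_apply, ← pow_succ']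
  rcases (Nat.succ_le_of_lt (mem_range.1 hi)).lt_or_eq with k1 | k1
  · exact mem_image.2 ⟨i + 1, mem_range.2 k1, rfl⟩
  · exact mem_image.2 ⟨0, mem_range.2 hk, by rw [show i + 1 = k from k1, h]; rfl⟩

lemma pow_ne {c : D} {i j : ℕ} (h : i < j) (hj : j < len (f c)) : (φ ^ i) c ≠ (φ ^ j) c := by
  intro k
  obtain ⟨m, rfl⟩ := Nat.exists_eq_add_of_lt h
  rw [add_assoc, pow_add, Equiv.Perm.mul_apply] at k
  have := len_le_period (Nat.succ_pos m) ((φ ^ i).injective k).symm
  omega

lemma vfib (d : D) : univ.filter (fun c => v c = v d) = {d, ρ d, ρ (ρ d)} := by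
  ext c
  rw [mem_filter, eq_comm, v_eq]
  simp

lemma sum_vfib {M : Type} [AddCommMonoid M] (g : D → M) (d : D) :
    ∑ c with v c = v d, g c = g d + g (ρ d) + g (ρ (ρ d)) := by
  rw [vfib, sum_insert, sum_pair (ρne _).symm, add_assoc]
  simp [(ρne d).symm, (ρρne d).symm]

lemma cnt_v (u : V D) : cnt (fun c => v c = u) = 3 := by
  obtain ⟨d, rfl⟩ := v_surj u
  exact (card_eq_sum_ones _).trans (sum_vfib (fun _ => (1 : ℕ)) d)

lemma cnt_v_le {X : Set (V D)} (h : X.Subsingleton) : cnt (fun c => v c ∈ X) ≤ 3 := by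
  rcases h.eq_empty_or_singleton with rfl | ⟨u, rfl⟩
  · simp [cnt, dset]
  · exact (cnt_v u).le

lemma e4' (X : Set (V D)) (h : cnt (fun d => v d ∈ X ∧ v (α d) ∉ X) ≤ 3) :
    X.Subsingleton ∨ Xᶜ.Subsingleton :=
  e4 X _ h fun _ h1 h2 => mem_dset.2 ⟨h1, h2⟩

lemma z2_cases (x : ZMod 2) : x = 0 ∨ x = 1 := by revert x; decide

lemma z2_ne {x y : ZMod 2} : x + y = 1 ↔ ¬(x = 1 ↔ y = 1) := by revert x y; decide

lemma z2_eq {x y : ZMod 2} (h : x = 1 ↔ y = 1) : x = y := by revert x y; decide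

lemma conn_v (y : V D → ZMod 2) (h : ∀ d, y (v d) = y (v (α d))) (u u' : V D) : y u = y u' := by
  have key : ∀ X : Set (V D), X.Subsingleton → (∀ d, v d ∈ X → v (α d) ∈ X) → ∀ u, u ∉ X := by
    intro X hX hc u hu
    obtain ⟨d, rfl⟩ := v_surj u
    exact loop d (hX (hc d hu) hu)
  rcases e4 {u | y u = 1} ∅ (by simp) (fun d h1 h2 => absurd ((h d).symm.trans h1) h2) with k | k
  · have := key _ k fun d h1 => (h d).symm.trans h1
    exact z2_eq (iff_of_false (this u) (this u'))
  · have := key _ k fun d h1 h2 => h1 ((h d).trans h2)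
    exact z2_eq (iff_of_true (not_not.1 (this u)) (not_not.1 (this u')))

lemma conn_f (y : F D → ZMod 2) (h : ∀ d, y (f d) = y (f (α d))) (x x' : F D) : y x = y x' := by
  choose r hr using v_surj (D := D)
  have k : ∀ d, y (f (r (v d))) = y (f d) := fun d => by
    rcases (v_eq d _).1 (hr (v d)).symm with k | k | k <;> rw [k]
    · rw [← fα, ← h]
    · rw [← fα, ← h, ← fα, ← h]
  obtain ⟨d, rfl⟩ := f_surj x
  obtain ⟨d', rfl⟩ := f_surj x'
  rw [← k, ← k d']
  exact conn_v (fun u => y (f (r u))) (fun d => by rw [k, k, h]) _ _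

lemma orth_f (y : V D → ZMod 2) (x : F D) :
    ∑ d with f d = x, (y (v d) + y (v (α d))) = 0 := by
  rw [sum_add_distrib, z2_add_eq]
  symm
  exact sum_equiv φ (by simp) (by simp)

lemma orth_v (y : F D → ZMod 2) (u : V D) :
    ∑ d with v d = u, (y (f d) + y (f (α d))) = 0 := by
  rw [sum_add_distrib, z2_add_eq]
  symm
  exact sum_equiv ρ (by simp) (by simp)

/-- An even edge set is a boundary of a set of faces. -/
lemma exact_f (z : D → ZMod 2) (hz : ∀ d, z (α d) = z d)
    (hb : ∀ d, z d + z (ρ d) + z (ρ (ρ d)) = 0) :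
    ∃ y : F D → ZMod 2, ∀ d, z d = y (f d) + y (f (α d)) :=
  (core αα αne ed_surj ed_eq conn_f conn_v orth_v).2 (by rw [add_comm]; exact euler) z hz
    fun u => by
      obtain ⟨d, rfl⟩ := v_surj u
      rw [sum_vfib, hb]

/-- A small edge set meeting every face evenly is the star of a vertex. -/
lemma star (z : D → ZMod 2) (hz : ∀ d, z (α d) = z d) (hb : ∀ x, ∑ d with f d = x, z d = 0)
    (h6 : cnt (fun d => z d = 1) ≤ 6) {d0 : D} (h0 : z d0 = 1) :
    cnt (fun d => z d = 1) = 6 ∧ ∃ u, ∀ d, z d = 1 → v d = u ∨ v (α d) = u := by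
  obtain ⟨y, hy⟩ := (core αα αne ed_surj ed_eq conn_v conn_f orth_f).2 euler z hz hb
  have key : ∀ X : Set (V D), (∀ d, z d = 1 ↔ ¬(v d ∈ X ↔ v (α d) ∈ X)) →
      cnt (fun d => z d = 1) = 2 * cnt (fun d => v d ∈ X ∧ v (α d) ∉ X) ∧ (X.Subsingleton →
      cnt (fun d => z d = 1) = 6 ∧ ∃ u, ∀ d, z d = 1 → v d = u ∨ v (α d) = u) := by
    intro X hX
    have e : cnt (fun d => z d = 1) = 2 * cnt (fun d => v d ∈ X ∧ v (α d) ∉ X) := by
      rw [cnt_split _ fun d => v d ∈ X, two_mul]
      congr 1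
      · exact cnt_congr fun d => by rw [hX]; tauto
      · rw [← cnt_perm α]
        exact cnt_congr fun d => by rw [hX, αα]; tauto
    refine ⟨e, fun hs => ?_⟩
    rcases hs.eq_empty_or_singleton with rfl | ⟨u, rfl⟩
    · simp [hX] at h0
    · refine ⟨?_, u, fun d hd => ?_⟩
      · rw [e, cnt_congr (Q := fun d => v d = u), cnt_v]
        exact fun d => ⟨fun k => k.1, fun k => ⟨k, fun k' => loop d (k'.trans k.symm)⟩⟩
      · rw [hX] at hd
        simp only [Set.mem_singleton_iff] at hd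
        tauto
  have k1 := key {u | y u = 1} fun d => by rw [hy, z2_ne]; rfl
  have k2 := key {u | y u = 1}ᶜ fun d => by rw [hy, z2_ne]; exact not_congr not_iff_not.symm
  rcases e4' {u | y u = 1} (by have := k1.1; omega) with k | k
  exacts [k1.2 k, k2.2 k]

/-- Indicator of the two darts of an edge. -/
noncomputable def ind (c d : D) : ZMod 2 := (if c = d then 1 else 0) + if α c = d then 1 else 0

lemma ind_α (c d : D) : ind c (α d) = ind c d := by
  unfold ind
  rw [add_comm]
  congr 2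
  · exact propext α.injective.eq_iff
  · exact propext ⟨fun h => by rw [h, αα], fun h => by rw [← h, αα]⟩

lemma ind_sum (c : D) (x : F D) : ∑ d with f d = x, ind c d =
    (if f c = x then 1 else 0) + if f (ρ c) = x then 1 else 0 := by
  simp [ind, sum_add_distrib]

lemma ind_self (c : D) : ind c c = 1 := by simp [ind, αne]

lemma ind_zero {c d : D} (h : c ≠ d) (h' : α c ≠ d) : ind c d = 0 := by simp [ind, h, h']

/-- No face is adjacent to itself. -/
lemma s0 (d : D) : f (ρ d) ≠ f d := fun h => by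
  have k : cnt (fun c => ind d c = 1) ≤ 2 :=
    (cnt_le_card (s := {d, α d}) fun c hc => by
      by_contra k
      simp only [mem_insert, mem_singleton, not_or] at k
      rw [ind_zero (Ne.symm k.1) (Ne.symm k.2)] at hc
      exact zero_ne_one hc).trans card_le_two
  have := (star (ind d) (ind_α d) (fun x => by rw [ind_sum, h, z2_add_self]) (by omega)
    (ind_self d)).1
  omega

lemma s0' (d : D) : f (ρ (ρ d)) ≠ f d := fun h => s0 (ρ (ρ d)) (by rw [ρ3, h])

/-- Two faces share at most one edge. -/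
lemma s1 {d d' : D} (h : f d = f d') (h' : f (ρ d) = f (ρ d')) : d = d' := by
  by_contra hne
  have k : cnt (fun c => ind d c + ind d' c = 1) ≤ 4 :=
    (cnt_le_card (s := {d, α d, d', α d'}) fun c hc => by
      by_contra k
      simp only [mem_insert, mem_singleton, not_or] at k
      rw [ind_zero (Ne.symm k.1) (Ne.symm k.2.1), ind_zero (Ne.symm k.2.2.1) (Ne.symm k.2.2.2),
        add_zero] at hc
      exact zero_ne_one hc).trans card_le_four
  have := (star (fun c => ind d c + ind d' c) (fun c => by rw [ind_α, ind_α])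
    (fun x => by rw [sum_add_distrib, ind_sum, ind_sum, h, h', z2_add_self]) (by omega) (d0 := d)
    (by rw [ind_self, ind_zero (Ne.symm hne) fun k => s0 d' (by rw [← fα, k, h]), add_zero])).1
  omega

lemma eq_of_fv {d d' : D} (h : f d = f d') (h' : v d = v d') : d = d' := by
  rcases (v_eq _ _).1 h' with k | k | k
  · exact k.symm
  · exact absurd (k ▸ h).symm (s0 d)
  · exact absurd (k ▸ h).symm (s0' d)

/-- Two adjacent neighbours of a face are consecutive. -/
lemma s3 {c c' d : D} (h : f c = f c') (h1 : f d = f (ρ c)) (h2 : f (ρ d) = f (ρ c')) :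
    c = φ c' ∨ c' = φ c := by
  have n1 : c ≠ c' := fun k => s0 d (by rw [h1, h2, k])
  have n2 : α c' ≠ c := fun k => s0 c' (by rw [← fα, k, h])
  have n3 : α c ≠ c' := fun k => s0 c (by rw [← fα, k, h])
  have n4 : d ≠ c := fun k => s0 c (by rw [← h1, k])
  have n5 : d ≠ c' := fun k => s0 c (by rw [← h1, k, h])
  have n6 : α d ≠ c := fun k => s0 c' (by rw [← h2, ← fα, k, h])
  have n7 : α d ≠ c' := fun k => s0 c' (by rw [← h2, ← fα, k])
  have k : cnt (fun e => ind c e + ind c' e + ind d e = 1) ≤ 6 :=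
    (cnt_le_card (s := {c, α c, c', α c', d, α d}) fun e hc => by
      by_contra k
      simp only [mem_insert, mem_singleton, not_or] at k
      rw [ind_zero (Ne.symm k.1) (Ne.symm k.2.1), ind_zero (Ne.symm k.2.2.1) (Ne.symm k.2.2.2.1),
        ind_zero (Ne.symm k.2.2.2.2.1) (Ne.symm k.2.2.2.2.2), add_zero, add_zero] at hc
      exact zero_ne_one hc).trans card_le_six
  have p1 : ind c c + ind c' c + ind d c = 1 := by
    rw [ind_self, ind_zero n1.symm n2, ind_zero n4 n6, add_zero, add_zero]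
  have p2 : ind c c' + ind c' c' + ind d c' = 1 := by
    rw [ind_self, ind_zero n1 n3, ind_zero n5 n7, add_zero, zero_add]
  obtain ⟨u, hu⟩ := (star (fun e => ind c e + ind c' e + ind d e)
    (fun e => by rw [ind_α, ind_α, ind_α]) (fun x => by
      rw [sum_add_distrib, sum_add_distrib, ind_sum, ind_sum, ind_sum, h, h1, h2]
      generalize (if f c' = x then (1 : ZMod 2) else 0) = a
      generalize (if f (ρ c) = x then (1 : ZMod 2) else 0) = b
      generalize (if f (ρ c') = x then (1 : ZMod 2) else 0) = c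
      revert a b c
      decide) k p1).2
  rcases hu c p1 with k1 | k1 <;> rcases hu c' p2 with k2 | k2
  · exact absurd (eq_of_fv h (k1.trans k2.symm)) n1
  · exact Or.inl (eq_of_fv (by rw [fφ, h]) (by rw [vφ, k1, k2]))
  · exact Or.inr (eq_of_fv (by rw [fφ, h]) (by rw [vφ, k1, k2]))
  · exact absurd (φ.injective (eq_of_fv (by rw [fφ, fφ, h]) (by rw [vφ, vφ, k1, k2]))) n1

end CM

end Pool.Agent.MP_42ec7b_co
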